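import Pool.Agent.H429.MZU.Stmts

/-! MP_aa8fd2_nt, part DELTA over every totally real field. -/

set_option autoImplicit false

namespace Pool.Agent.H429.MZU

open NumberField IsDedekindDomain _root_.MZ

lemma nrComplex_of_real (F : Type) [Field F] [NumberField F]
    (hF : ∀ τ : F →+* ℂ, ComplexEmbedding.IsReal τ) : InfinitePlace.nrComplexPlaces F = 0 := by
  classical
  unfold InfinitePlace.nrComplexPlaces
  rw [Fintype.card_eq_zero_iff]
  constructor
  rintro ⟨w, hw⟩
  rw [InfinitePlace.isComplex_iff] at hw
  exact hw (hF _)

lemma card_of_real (F : Type) [Field F] [NumberField F]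
    (hF : ∀ τ : F →+* ℂ, ComplexEmbedding.IsReal τ) :
    Fintype.card (InfinitePlace F) = Module.finrank ℚ F := by
  have h1 := InfinitePlace.card_eq_nrRealPlaces_add_nrComplexPlaces F
  have h2 := InfinitePlace.card_add_two_mul_card_eq_rank F
  rw [nrComplex_of_real F hF] at h1 h2
  omega

lemma finrank_trace (k : Type) [Field k] :
    Module.finrank k (LinearMap.ker (Matrix.traceLinearMap (Fin 3) k k)) = 8 := by
  have h1 := LinearMap.finrank_range_add_finrank_ker (Matrix.traceLinearMap (Fin 3) k k)
  have h2 : LinearMap.range (Matrix.traceLinearMap (Fin 3) k k) = ⊤ := by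
    rw [LinearMap.range_eq_top]
    intro c
    refine ⟨Matrix.single 0 0 c, ?_⟩
    simp
  rw [h2, finrank_top, Module.finrank_self, Module.finrank_matrix] at h1
  simp at h1
  omega

/-- `δ = 1 + 9 r₂` when involutions map to `1`. -/
theorem deltaR : ∀ (F Ω : Type) [Field F] [NumberField F] [Field Ω] [Algebra F Ω] [IsAlgClosure F Ω]
  (S : Set (HeightOneSpectrum (𝓞 F))),
    ∀ (k : Type) [Field k] [CharP k 2] (ρbar : GFS Ω S →* GL (Fin 3) k),
    (∀ g : GFS Ω S, g * g = 1 → ρbar g = 1) →
    ∀ w : InfinitePlace F → InfinitePlace (FSmax S : IntermediateField F Ω),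
      (∀ v : InfinitePlace F,
        (w v).comap (algebraMap F (FSmax S : IntermediateField F Ω)) = v) →
      _root_.MZ.delta S ρbar w = 1 + 9 * (InfinitePlace.nrComplexPlaces F : ℤ) := by
  intro F Ω _ _ _ _ _ S k _ _ ρbar hρ w hw
  have key : ∀ v : InfinitePlace F,
      Module.finrank k (ad0Inv ρbar (MulAction.stabilizer (GFS Ω S) (w v))) = 8 := by
    intro v
    rw [← finrank_trace k]
    have : ad0Inv ρbar (MulAction.stabilizer (GFS Ω S) (w v)) =
        LinearMap.ker (Matrix.traceLinearMap (Fin 3) k k) := by
      ext X
      constructor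
      · intro hX
        exact hX.1
      · intro hX
        refine ⟨hX, ?_⟩
        intro g hg
        have hg2 : g * g = 1 := by
          rw [← InfinitePlace.mk_embedding (w v), InfinitePlace.mem_stabilizer_mk_iff] at hg
          rcases hg with rfl | hg
          · simp
          · apply AlgEquiv.ext
            intro x
            apply (InfinitePlace.embedding (w v)).injective
            show InfinitePlace.embedding (w v) (g (g x)) = InfinitePlace.embedding (w v) x
            rw [hg.eq, hg.eq, star_star]
        rw [hρ g hg2]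
        simp
    rw [this]
  unfold _root_.MZ.delta
  have h1 := InfinitePlace.card_eq_nrRealPlaces_add_nrComplexPlaces F
  have h2 := InfinitePlace.card_add_two_mul_card_eq_rank F
  rw [Finset.sum_congr rfl (fun v _ => by rw [key v]), Finset.sum_const, Finset.card_univ,
    nsmul_eq_mul, h1, ← h2]
  push_cast
  ring

end Pool.Agent.H429.MZU
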