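import Pool.Agent.H429.MZU.Ext
import Pool.Graph.R_seed8.W566.MZ.Gal

/-!
# MP_aa8fd2_nt : restriction `Gal(K/F) → Gal(E/F₀)` (helper429)
-/

set_option autoImplicit false
set_option linter.all false

namespace Pool.Agent.H429.MZU

open MZ IsLocalRing NumberField

lemma alg_int (F₀ F K : Type) [Field F₀] [Field F] [Field K] [Algebra F₀ K] [Algebra F₀ F]
    [Algebra F K] [IsScalarTower F₀ F K] [IsGalois F K] [FiniteDimensional F₀ F] :
    Algebra.IsIntegral F₀ K := by
  haveI : Algebra.IsIntegral F₀ F := inferInstance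
  haveI : Algebra.IsIntegral F K := inferInstance
  exact Algebra.IsIntegral.trans F

section

variable (F₀ E F K : Type) [Field F₀] [Field E] [Field F] [Field K]
  [Algebra F₀ E] [Algebra E K] [Algebra F₀ K] [IsScalarTower F₀ E K]
  [Algebra F₀ F] [Algebra F K] [IsScalarTower F₀ F K]
  [IsGalois F₀ E] [IsGalois F K] [FiniteDimensional F₀ F]

/-- restriction `Gal(K/F) → Gal(E/F₀)` -/
noncomputable def resU : Gal(K/F) →* Gal(E/F₀) :=
  (AlgEquiv.restrictNormalHom (F := F₀) (K₁ := K) E).comp (jR F₀ F K)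

variable {F₀ E F K}

lemma resU_apply (g : Gal(K/F)) (x : E) :
    algebraMap E K (resU F₀ E F K g x) = g (algebraMap E K x) := by
  show algebraMap E K (AlgEquiv.restrictNormalHom (F := F₀) (K₁ := K) E (jR F₀ F K g) x) = _
  rw [res_apply, jR_apply]

variable (F₀ E F K)

lemma continuous_resU : Continuous (resU F₀ E F K) := by
  haveI := alg_int F₀ F K
  refine continuous_of_stab _ (fun x => ?_)
  have := isOpen_stab (F := F) (E := K) (algebraMap E K x)
  convert this using 1
  ext g
  constructor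
  · intro h
    have h' : resU F₀ E F K g x = x := h
    show g (algebraMap E K x) = algebraMap E K x
    rw [← resU_apply (F₀ := F₀), h']
  · intro h
    have h' : g (algebraMap E K x) = algebraMap E K x := h
    apply (algebraMap E K).injective
    rw [resU_apply, h']

lemma isClosed_range_resU : IsClosed ((resU F₀ E F K).range : Set Gal(E/F₀)) := by
  rw [MonoidHom.coe_range]
  exact (isCompact_range (continuous_resU F₀ E F K)).isClosed

lemma fixed_resU (x : E) :
    x ∈ IntermediateField.fixedField (resU F₀ E F K).range ↔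
      ∃ y : F, algebraMap E K x = algebraMap F K y := by
  rw [IntermediateField.mem_fixedField_iff]
  constructor
  · intro h
    have h1 : algebraMap E K x ∈ Set.range (algebraMap F K) := by
      rw [InfiniteGalois.mem_range_algebraMap_iff_fixed]
      intro g
      rw [← resU_apply (F₀ := F₀) g x, h _ ⟨g, rfl⟩]
    obtain ⟨y, hy⟩ := h1
    exact ⟨y, hy.symm⟩
  · rintro ⟨y, hy⟩ _ ⟨g, rfl⟩
    apply (algebraMap E K).injective
    rw [resU_apply, hy, AlgEquiv.commutes]

lemma mem_range_resU (g : Gal(E/F₀)) : g ∈ (resU F₀ E F K).range ↔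
    ∀ x : E, (∃ y : F, algebraMap E K x = algebraMap F K y) → g x = x := by
  have h1 : (IntermediateField.fixedField (resU F₀ E F K).range).fixingSubgroup =
      (resU F₀ E F K).range :=
    InfiniteGalois.fixingSubgroup_fixedField ⟨(resU F₀ E F K).range, isClosed_range_resU F₀ E F K⟩
  rw [← h1, IntermediateField.mem_fixingSubgroup_iff]
  constructor
  · intro h x hx
    exact h x ((fixed_resU F₀ E F K x).mpr hx)
  · intro h x hx
    exact h x ((fixed_resU F₀ E F K x).mp hx)

lemma isOpen_range_resU : IsOpen ((resU F₀ E F K).range : Set Gal(E/F₀)) := by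
  have h1 : (IntermediateField.fixedField (resU F₀ E F K).range).fixingSubgroup =
      (resU F₀ E F K).range :=
    InfiniteGalois.fixingSubgroup_fixedField ⟨(resU F₀ E F K).range, isClosed_range_resU F₀ E F K⟩
  set M := IntermediateField.fixedField (resU F₀ E F K).range with hM
  rw [← h1]
  -- M embeds into F
  let f : M →ₐ[F₀] K := (IsScalarTower.toAlgHom F₀ E K).comp M.val
  let i : F →ₐ[F₀] K := IsScalarTower.toAlgHom F₀ F K
  have hf : ∀ x : M, f x ∈ i.range := by
    intro x
    obtain ⟨y, hy⟩ := (fixed_resU F₀ E F K x.1).mp x.2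
    exact ⟨y, hy.symm⟩
  let f' : M →ₐ[F₀] i.range := f.codRestrict i.range hf
  have hf' : Function.Injective f' := f'.toRingHom.injective
  haveI : FiniteDimensional F₀ i.range := by
    have e : F ≃ₐ[F₀] i.range := AlgEquiv.ofInjective i i.toRingHom.injective
    exact LinearEquiv.finiteDimensional e.toLinearEquiv
  haveI : FiniteDimensional F₀ M := FiniteDimensional.of_injective f'.toLinearMap hf'
  exact IntermediateField.fixingSubgroup_isOpen M

end

/-- a commuting product `x^i a` in `U`, `x^(2^e) ∈ U`, `a^9 = 1` implies `a ∈ U` -/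
lemma mem_of_coprime {G : Type} [Group G] (U : Subgroup G) (x a : G) (i : ℤ) (e : ℕ)
    (hc : Commute x a) (h1 : x ^ i * a ∈ U) (h2 : x ^ (2 ^ e) ∈ U) (h3 : a ^ 9 = 1) : a ∈ U := by
  have h4 : (x ^ i * a) ^ (2 ^ e) = (x ^ (2 ^ e)) ^ i * a ^ (2 ^ e) := by
    rw [(hc.zpow_left i).mul_pow]
    congr 1
    rw [← zpow_natCast, ← zpow_natCast, ← zpow_mul, ← zpow_mul, mul_comm]
  have h5 : a ^ (2 ^ e) ∈ U := by
    have h6 := U.pow_mem h1 (2 ^ e)
    rw [h4] at h6
    have h7 := U.zpow_mem h2 i
    have := U.mul_mem (U.inv_mem h7) h6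
    rwa [inv_mul_cancel_left] at this
  have hcop : Nat.Coprime (2 ^ e) 9 := by
    apply Nat.Coprime.pow_left
    decide
  have hb : (1 : ℤ) = (2 ^ e : ℕ) * Nat.gcdA (2 ^ e) 9 + (9 : ℕ) * Nat.gcdB (2 ^ e) 9 := by
    have := Nat.gcd_eq_gcd_ab (2 ^ e) 9
    rw [Nat.Coprime.gcd_eq_one hcop] at this
    exact_mod_cast this
  have h8 : a = (a ^ (2 ^ e)) ^ (Nat.gcdA (2 ^ e) 9) * (a ^ 9) ^ (Nat.gcdB (2 ^ e) 9) := by
    rw [← zpow_natCast, ← zpow_natCast, ← zpow_mul, ← zpow_mul, ← zpow_add, ← hb, zpow_one]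
  rw [h8, h3, one_zpow, mul_one]
  exact U.zpow_mem h5 _

end Pool.Agent.H429.MZU
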