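import Pool.Agent.H429.MZU.Stmts
import Pool.Graph.R_seed8.W294.MZ.ExStmts

/-!
# MP_aa8fd2_nt: `(F₀)_{S₀} ⊆ F_S` (statement `S_BC`, base change of unramified extensions)
-/

set_option autoImplicit false

namespace Pool.Agent.H429.MZU

open MZ NumberField IsDedekindDomain IsLocalRing

/-- unramified = trivial inertia group -/
theorem bc_inert (F W : Type) [Field F] [NumberField F] [Field W] [NumberField W] [Algebra F W]
    [IsGalois F W] (P : Ideal (𝓞 W)) [P.IsPrime] :
    (∀ g : Gal(W/F), (∀ a : 𝓞 W, ∃ b : 𝓞 W, b ∈ P ∧ (b : W) = g (a : W) - (a : W)) → g = 1) ↔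
      Algebra.IsUnramifiedAt (𝓞 F) P := by
  classical
  letI : MulSemiringAction Gal(W/F) (𝓞 W) := IsIntegralClosure.MulSemiringAction (𝓞 F) F W (𝓞 W)
  haveI : IsGaloisGroup Gal(W/F) (𝓞 F) (𝓞 W) :=
    IsGaloisGroup.of_isFractionRing Gal(W/F) (𝓞 F) (𝓞 W) F W
  have hact : ∀ (g : Gal(W/F)) (x : 𝓞 W), ((g • x : 𝓞 W) : W) = g (x : W) := by
    intro g x
    exact algebraMap_galRestrict_apply (𝓞 F) g x
  have hmem : ∀ g : Gal(W/F), g ∈ P.toAddSubgroup.inertia Gal(W/F) ↔
      ∀ a : 𝓞 W, ∃ b : 𝓞 W, b ∈ P ∧ (b : W) = g (a : W) - (a : W) := by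
    intro g
    rw [AddSubgroup.mem_inertia]
    constructor
    · intro h a
      refine ⟨g • a - a, h a, ?_⟩
      rw [show ((g • a - a : 𝓞 W) : W) = ((g • a : 𝓞 W) : W) - (a : W) from rfl, hact]
    · intro h a
      obtain ⟨b, hb, hba⟩ := h a
      have : g • a - a = b := by
        apply RingOfIntegers.ext
        rw [hba, show ((g • a - a : 𝓞 W) : W) = ((g • a : 𝓞 W) : W) - (a : W) from rfl, hact]
      rw [this]
      exact hb
  have key := Ideal.card_inertia_eq_ramificationIdxIn (G := Gal(W/F)) (P.under (𝓞 F)) P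
  have key2 := Ideal.ramificationIdxIn_eq_ramificationIdx (P.under (𝓞 F)) P Gal(W/F)
  rw [key2] at key
  constructor
  · intro h
    have hcard : Nat.card (P.toAddSubgroup.inertia Gal(W/F)) = 1 := by
      rw [Nat.card_eq_one_iff_unique]
      refine ⟨⟨fun a b => ?_⟩, ⟨1⟩⟩
      apply Subtype.ext
      rw [h a.1 ((hmem a.1).1 a.2), h b.1 ((hmem b.1).1 b.2)]
    rw [hcard] at key
    exact Ideal.ramificationIdx_eq_one_iff.mp key.symm
  · intro h g hg
    rw [Ideal.ramificationIdx_eq_one_iff.mpr h] at key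
    rw [Nat.card_eq_one_iff_unique] at key
    have h1 : (⟨g, (hmem g).2 hg⟩ : P.toAddSubgroup.inertia Gal(W/F)) = 1 :=
      @Subsingleton.elim _ key.1 _ _
    exact congrArg Subtype.val h1

/-- the contraction of a nonzero ideal -/
theorem bc_comap_ne_bot (A W : Type) [Field A] [NumberField A] [Field W] [NumberField W]
    (f : 𝓞 A →+* 𝓞 W) (P : Ideal (𝓞 W)) (hP : P ≠ ⊥) : P.comap f ≠ ⊥ := by
  intro h
  have h1 : Ideal.absNorm P ≠ 0 := by
    rw [Ne, Ideal.absNorm_eq_zero_iff]
    exact hP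
  have h2 : ((Ideal.absNorm P : ℕ) : 𝓞 A) ∈ P.comap f := by
    rw [Ideal.mem_comap, map_natCast]
    exact Ideal.absNorm_mem P
  rw [h, Ideal.mem_bot] at h2
  exact h1 (by exact_mod_cast h2)

theorem bc (h1 : MZEX.StmExH1) (h7 : MZ.StmK7) : S_BC := by
  classical
  intro F₀ Ω _ _ _ _ _ S₀ F _ S hS x hx
  haveI : IsAlgClosed Ω := IsAlgClosure.isAlgClosed F₀
  haveI : Algebra.IsAlgebraic F₀ Ω := IsAlgClosure.isAlgebraic
  haveI hgal : IsGalois F₀ (FSmax S₀ : IntermediateField F₀ Ω) := h7 F₀ Ω S₀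
  have hint : IsIntegral F₀ x := Algebra.IsIntegral.isIntegral x
  set f := minpoly F₀ x with hf
  have hf0 : f ≠ 0 := minpoly.ne_zero hint
  have hxR : x ∈ f.rootSet Ω := by
    rw [Polynomial.mem_rootSet]
    exact ⟨hf0, minpoly.aeval F₀ x⟩
  have hsplit : (f.map (algebraMap F₀ Ω)).Splits := IsAlgClosed.splits _
  -- the field `M`
  set M : IntermediateField F₀ Ω := IntermediateField.adjoin F₀ (f.rootSet Ω) with hM
  haveI hMs : f.IsSplittingField F₀ M := IntermediateField.adjoin_rootSet_isSplittingField hsplit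
  haveI hMfin : FiniteDimensional F₀ M := Polynomial.IsSplittingField.finiteDimensional M f
  haveI hMnorm : Normal F₀ M := Normal.of_isSplittingField f
  haveI hMgal : IsGalois F₀ M := ⟨⟩
  haveI hMnf : NumberField M := NumberField.of_module_finite F₀ M
  -- `M ≤ FSmax S₀`
  have hMle : M ≤ (FSmax S₀ : IntermediateField F₀ Ω) := by
    rw [hM, IntermediateField.adjoin_le_iff]
    have h2 : (f.map (algebraMap F₀ (FSmax S₀ : IntermediateField F₀ Ω))).Splits := by
      have h3 := hgal.to_normal.splits (⟨x, hx⟩ : (FSmax S₀ : IntermediateField F₀ Ω))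
      have h4 : minpoly F₀ (⟨x, hx⟩ : (FSmax S₀ : IntermediateField F₀ Ω)) = f := by
        rw [hf, IntermediateField.minpoly_eq]
      rwa [h4] at h3
    have h5 := Polynomial.Splits.image_rootSet h2 (FSmax S₀ : IntermediateField F₀ Ω).val
    rw [← h5]
    rintro _ ⟨y, -, rfl⟩
    exact y.2
  have hMun : UnramifiedOutside S₀ M := h1 F₀ Ω S₀ M hMfin hMle
  -- the field `K`
  set fF := f.map (algebraMap F₀ F) with hfF
  have hroot : fF.rootSet Ω = f.rootSet Ω := by
    ext y
    rw [Polynomial.mem_rootSet, Polynomial.mem_rootSet, hfF, Polynomial.aeval_map_algebraMap]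
    have : fF ≠ 0 ↔ f ≠ 0 := by
      rw [hfF, Ne, Polynomial.map_eq_zero]
    rw [← hfF, this]
  have hsplitF : (fF.map (algebraMap F Ω)).Splits := IsAlgClosed.splits _
  set K : IntermediateField F Ω := IntermediateField.adjoin F (fF.rootSet Ω) with hK
  haveI hKs : fF.IsSplittingField F K := IntermediateField.adjoin_rootSet_isSplittingField hsplitF
  haveI hKfin : FiniteDimensional F K := Polynomial.IsSplittingField.finiteDimensional K fF
  haveI hKnorm : Normal F K := Normal.of_isSplittingField fF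
  haveI hKgal : IsGalois F K := ⟨⟩
  haveI hKnf : NumberField K := NumberField.of_module_finite F K
  have hRK : ∀ y ∈ f.rootSet Ω, y ∈ K := by
    intro y hy
    rw [← hroot] at hy
    exact IntermediateField.subset_adjoin F _ hy
  have hMK : ∀ y : Ω, y ∈ M → y ∈ K := by
    intro y hy
    have h2 : M ≤ K.restrictScalars F₀ := by
      rw [hM, IntermediateField.adjoin_le_iff]
      intro z hz
      exact hRK z hz
    exact h2 hy
  have hKun : UnramifiedOutside S K := by
    intro w hw
    haveI : w.asIdeal.IsPrime := w.isPrime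
    rw [← bc_inert F K w.asIdeal]
    intro g hg
    let ι : M →+* K :=
      { toFun := fun y => ⟨y.1, hMK y.1 y.2⟩
        map_one' := rfl
        map_mul' := fun _ _ => rfl
        map_zero' := rfl
        map_add' := fun _ _ => rfl }
    let jO : 𝓞 M →+* 𝓞 K := RingOfIntegers.mapRingHom ι
    haveI hPp : (w.asIdeal.comap jO).IsPrime := Ideal.comap_isPrime _ _
    have hPb : w.asIdeal.comap jO ≠ ⊥ := bc_comap_ne_bot M K jO w.asIdeal w.ne_bot
    have hPun : Algebra.IsUnramifiedAt (𝓞 F₀) (w.asIdeal.comap jO) := by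
      refine hMun ⟨w.asIdeal.comap jO, hPp, hPb⟩ ?_
      intro v hv hcon
      let u : HeightOneSpectrum (𝓞 F) := ⟨w.asIdeal.comap (algebraMap (𝓞 F) (𝓞 K)),
        Ideal.comap_isPrime _ _, bc_comap_ne_bot F K _ _ w.ne_bot⟩
      refine hw u (hS u v hv ?_) rfl
      rw [← hcon]
      show (w.asIdeal.comap (algebraMap (𝓞 F) (𝓞 K))).comap (algebraMap (𝓞 F₀) (𝓞 F)) =
        (w.asIdeal.comap jO).comap (algebraMap (𝓞 F₀) (𝓞 M))
      rw [Ideal.comap_comap, Ideal.comap_comap]
      congr 1
    let σ : M →ₐ[F₀] Ω :=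
      { toRingHom := (algebraMap K Ω).comp ((g : K →+* K).comp ι)
        commutes' := by
          intro r
          have h2 : ι (algebraMap F₀ M r) = algebraMap F K (algebraMap F₀ F r) :=
            Subtype.ext rfl
          show algebraMap K Ω (g (ι (algebraMap F₀ M r))) = algebraMap F₀ Ω r
          rw [h2, g.commutes]
          rfl }
    let g' : Gal(M/F₀) := AlgHom.restrictNormal' σ M
    have hg' : ∀ y : M, ((g' y : M) : Ω) = ((g (ι y) : K) : Ω) :=
      fun y => AlgHom.restrictNormal_commutes σ M y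
    have hg1 : g' = 1 := by
      apply (bc_inert F₀ M (w.asIdeal.comap jO)).2 hPun g'
      intro a
      obtain ⟨b', hb', hb''⟩ := hg (jO a)
      refine ⟨⟨g' (a : M) - a, ?_⟩, ?_, rfl⟩
      · exact (map_isIntegral_int g' (RingOfIntegers.isIntegral_coe a)).sub
          (RingOfIntegers.isIntegral_coe a)
      · rw [Ideal.mem_comap]
        have h2 : jO ⟨g' (a : M) - a, (map_isIntegral_int g' (RingOfIntegers.isIntegral_coe a)).sub
          (RingOfIntegers.isIntegral_coe a)⟩ = b' := by
          apply RingOfIntegers.ext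
          rw [hb'']
          apply Subtype.ext
          show ((g' (a : M) : M) : Ω) - ((a : M) : Ω) = ((g (ι (a : M)) : K) : Ω) - ((a : M) : Ω)
          rw [hg']
        rw [h2]
        exact hb'
    have hfix : ∀ (y : Ω) (hy : y ∈ f.rootSet Ω), g ⟨y, hRK y hy⟩ = ⟨y, hRK y hy⟩ := by
      intro y hy
      have hyM : y ∈ M := IntermediateField.subset_adjoin F₀ _ hy
      have h2 := hg' ⟨y, hyM⟩
      rw [hg1] at h2
      exact Subtype.ext h2.symm
    have h3 : (g : K →ₐ[F] K) = AlgHom.id F K := by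
      refine IntermediateField.algHom_ext_of_eq_adjoin F hK ?_
      intro y hy
      have hy' : y ∈ f.rootSet Ω := by rw [← hroot]; exact hy
      exact hfix y hy'
    apply AlgEquiv.ext
    intro y
    exact DFunLike.congr_fun h3 y
  have hKle : K ≤ (FSmax S : IntermediateField F Ω) :=
    le_iSup (fun K : {K : IntermediateField F Ω // FiniteDimensional F K ∧ UnramifiedOutside S K} =>
      K.1) ⟨K, hKfin, hKun⟩
  exact hKle (hRK x hxR)

end Pool.Agent.H429.MZU
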