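import Pool.Agent.H429.MZU.Stmts

/-! SUR: surjectivity of `Gal(K/F) → Gal(L/k)` when `F ⊓ L = k`. -/

set_option autoImplicit false

namespace Pool.Agent.H429.MZU

open MZ

theorem sur_gen {k Ω : Type} [Field k] [Field Ω] [Algebra k Ω] (L F : IntermediateField k Ω)
    (K : IntermediateField F Ω) [FiniteDimensional k L] [IsGalois k L] [IsGalois F K]
    (h : F ⊓ L = ⊥) (hK : ∀ x ∈ L, x ∈ K) (g : Gal(L/k)) :
    ∃ γ : Gal(K/F), ∀ (x : Ω) (hx : x ∈ L),
      ((γ ⟨x, hK x hx⟩ : K) : Ω) = ((g ⟨x, hx⟩ : L) : Ω) := by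
  let i : L →ₐ[k] K :=
    { toFun := fun x => ⟨x, hK x x.2⟩
      map_one' := rfl
      map_mul' := fun _ _ => rfl
      map_zero' := rfl
      map_add' := fun _ _ => rfl
      commutes' := fun _ => rfl }
  letI : Algebra L K := i.toRingHom.toAlgebra
  haveI : IsScalarTower k L K := IsScalarTower.of_algebraMap_eq (fun x => rfl)
  let φ : Gal(K/F) →* Gal(L/k) :=
    (AlgEquiv.restrictNormalHom L).comp (AlgEquiv.restrictScalarsHom k)
  have hφ : ∀ (γ : Gal(K/F)) (x : L), i (φ γ x) = γ (i x) := by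
    intro γ x
    exact AlgEquiv.restrictNormal_commutes (AlgEquiv.restrictScalars k γ) L x
  have hfix : IntermediateField.fixedField φ.range = ⊥ := by
    rw [eq_bot_iff]
    intro x hx
    rw [IntermediateField.mem_fixedField_iff] at hx
    have h1 : i x ∈ Set.range (algebraMap F K) := by
      rw [InfiniteGalois.mem_range_algebraMap_iff_fixed]
      intro γ
      rw [← hφ, hx (φ γ) ⟨γ, rfl⟩]
    obtain ⟨y, hy⟩ := h1
    have h2 : (y : Ω) = (x : Ω) := congrArg (fun z : K => (z : Ω)) hy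
    have h3 : (x : Ω) ∈ F ⊓ L := ⟨h2 ▸ y.2, x.2⟩
    rw [h, IntermediateField.mem_bot] at h3
    obtain ⟨a, ha⟩ := h3
    rw [IntermediateField.mem_bot]
    exact ⟨a, Subtype.ext ha⟩
  have htop : φ.range = ⊤ := by
    rw [← IntermediateField.fixingSubgroup_fixedField φ.range, hfix,
      IntermediateField.fixingSubgroup_bot]
  obtain ⟨γ, hγ⟩ : g ∈ φ.range := htop ▸ Subgroup.mem_top g
  refine ⟨γ, fun x hx => ?_⟩
  have h4 := hφ γ ⟨x, hx⟩
  rw [hγ] at h4
  exact (congrArg (fun z : K => (z : Ω)) h4).symm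

theorem sur (hfd : FiniteDimensional MZ.F5 MZ.Lf) (hgal : IsGalois MZ.F5 MZ.Lf) : S_Sur := by
  intro F K hFK h hK g
  exact sur_gen Lf F K h hK g

end Pool.Agent.H429.MZU
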