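import Pool.Agent.H429.MZU.Stmts
import Pool.Graph.R_seed8.W294.MZ.ExSlice2

/-!
# BURN: Burnside's theorem for `AbsIrred`
-/

set_option autoImplicit false

namespace Pool.Agent.H429.MZU

open MZ Matrix

namespace BurnAux

variable {k : Type} [Field k] {G : Type} [Group G] {n : ℕ}

/-- the span of the image, as a subalgebra -/
def alg (ρbar : G →* GL (Fin n) k) : Subalgebra k (Matrix (Fin n) (Fin n) k) :=
  (Submodule.span k (Set.range fun g : G => (ρbar g : Matrix (Fin n) (Fin n) k))).toSubalgebra
    (Submodule.subset_span ⟨1, by simp⟩)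
    (fun x y hx hy => by
      have h := Submodule.mul_mem_mul hx hy
      rw [Submodule.span_mul_span] at h
      refine Submodule.span_mono ?_ h
      rintro _ ⟨_, ⟨g, rfl⟩, _, ⟨g', rfl⟩, rfl⟩
      exact ⟨g * g', by simp⟩)

theorem mem_alg (ρbar : G →* GL (Fin n) k) (g : G) :
    (ρbar g : Matrix (Fin n) (Fin n) k) ∈ alg ρbar :=
  Submodule.subset_span ⟨g, rfl⟩

/-- `k ^ n` is simple -/
theorem simple (ρbar : G →* GL (Fin n) k) (hρ : AbsIrred ρbar) (i0 : Fin n) :
    IsSimpleModule (alg ρbar) (Fin n → k) := by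
  have : Nonempty (Fin n) := ⟨i0⟩
  have : Nontrivial (Fin n → k) := inferInstance
  set ι : k →+* AlgebraicClosure k := algebraMap k (AlgebraicClosure k) with hι
  rw [isSimpleModule_iff]
  refine { exists_pair_ne := ⟨⊥, ⊤, bot_ne_top⟩, eq_bot_or_eq_top := fun V => ?_ }
  set V' : Submodule (AlgebraicClosure k) (Fin n → AlgebraicClosure k) :=
    Submodule.span (AlgebraicClosure k) ((fun (x : Fin n → k) i => ι (x i)) '' (V : Set (Fin n → k)))
    with hV'
  have hstab : ∀ g, ∀ x ∈ V',
      ((ρbar g : Matrix (Fin n) (Fin n) k).map (algebraMap k (AlgebraicClosure k))).mulVec x ∈ V' := by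
    intro g
    have hle : V' ≤ V'.comap
        (Matrix.mulVecLin ((ρbar g : Matrix (Fin n) (Fin n) k).map ι)) := by
      rw [hV', Submodule.span_le]
      rintro _ ⟨x, hx, rfl⟩
      rw [SetLike.mem_coe, Submodule.mem_comap, Matrix.mulVecLin_apply]
      refine Submodule.subset_span ⟨(ρbar g : Matrix (Fin n) (Fin n) k).mulVec x, ?_, ?_⟩
      · exact V.smul_mem ⟨(ρbar g : Matrix (Fin n) (Fin n) k), mem_alg ρbar g⟩ hx
      · funext i
        exact RingHom.map_mulVec ι _ x i
    exact fun x hx => hle hx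
  rcases hρ V' hstab with h | h
  · left
    rw [Submodule.eq_bot_iff]
    intro x hx
    have h1 : (fun i => ι (x i)) ∈ V' := Submodule.subset_span ⟨x, hx, rfl⟩
    rw [h, Submodule.mem_bot] at h1
    funext i
    have h2 := congrFun h1 i
    exact (map_eq_zero ι).mp h2
  · right
    by_contra hne
    have hne' : V.restrictScalars k < ⊤ := by
      rw [lt_top_iff_ne_top]
      intro h1
      apply hne
      rw [Submodule.eq_top_iff'] at h1 ⊢
      exact h1
    obtain ⟨f, hf0, hf⟩ := Submodule.exists_le_ker_of_lt_top _ hne'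
    let f' : (Fin n → AlgebraicClosure k) →ₗ[AlgebraicClosure k] AlgebraicClosure k :=
      ∑ i, (ι (f (Pi.single i 1))) • LinearMap.proj i
    have hf' : ∀ x : Fin n → AlgebraicClosure k, f' x = ∑ i, ι (f (Pi.single i 1)) * x i := by
      intro x
      simp [f']
    have hker : V' ≤ LinearMap.ker f' := by
      rw [hV', Submodule.span_le]
      rintro _ ⟨x, hx, rfl⟩
      rw [SetLike.mem_coe, LinearMap.mem_ker, hf']
      have h2 : f x = 0 := hf hx
      have h3 : f x = ∑ i, f (Pi.single i 1) * x i := by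
        conv_lhs => rw [pi_eq_sum_univ' x]
        rw [map_sum]
        refine Finset.sum_congr rfl fun i _ => ?_
        rw [map_smul, smul_eq_mul, mul_comm]
      rw [← map_zero ι, ← h2, h3, map_sum]
      exact Finset.sum_congr rfl fun i _ => (map_mul ι _ _).symm
    rw [h, top_le_iff, LinearMap.ker_eq_top] at hker
    apply hf0
    refine LinearMap.pi_ext' fun i => LinearMap.ext_ring ?_
    rw [LinearMap.zero_comp, LinearMap.zero_apply, LinearMap.comp_apply, LinearMap.single_apply]
    have h4 : f' (Pi.single i 1) = 0 := by rw [hker]; rfl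
    rw [hf', Finset.sum_eq_single i] at h4
    · rw [Pi.single_eq_same, mul_one] at h4
      exact (map_eq_zero ι).mp h4
    · intro j _ hj
      rw [Pi.single_eq_of_ne hj, mul_zero]
    · intro h5
      exact absurd (Finset.mem_univ i) h5

/-- the commutant consists of scalars -/
theorem scalar (ρbar : G →* GL (Fin n) k) (hρ : AbsIrred ρbar) (i0 : Fin n)
    (φ : Module.End (alg ρbar) (Fin n → k)) : ∃ c : k, ∀ x, φ x = c • x := by
  let φ0 : (Fin n → k) →ₗ[k] (Fin n → k) := φ.restrictScalars k
  have hB : ∀ g, LinearMap.toMatrix' φ0 * (ρbar g : Matrix (Fin n) (Fin n) k) =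
      (ρbar g : Matrix (Fin n) (Fin n) k) * LinearMap.toMatrix' φ0 := by
    intro g
    refine Matrix.ext_of_mulVec_single fun i => ?_
    rw [← Matrix.mulVec_mulVec, ← Matrix.mulVec_mulVec, LinearMap.toMatrix'_mulVec,
      LinearMap.toMatrix'_mulVec]
    exact φ.map_smul ⟨(ρbar g : Matrix (Fin n) (Fin n) k), mem_alg ρbar g⟩ (Pi.single i 1)
  have h := MZEX.schur ρbar hρ i0 _ hB
  refine ⟨(LinearMap.toMatrix' φ0) i0 i0, fun x => ?_⟩
  have h1 : φ x = (LinearMap.toMatrix' φ0).mulVec x := (LinearMap.toMatrix'_mulVec φ0 x).symm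
  rw [h1]
  conv_lhs => rw [h]
  rw [Matrix.smul_mulVec, Matrix.one_mulVec]

end BurnAux

open BurnAux in
theorem burn : S_Burn := by
  classical
  intro k _ G _ n ρbar hρ
  rw [Submodule.eq_top_iff']
  intro N
  rcases Nat.eq_zero_or_pos n with hn | hn
  · subst hn
    have : N = 0 := Subsingleton.elim _ _
    rw [this]
    exact Submodule.zero_mem _
  have i0 : Fin n := ⟨0, hn⟩
  have := simple ρbar hρ i0
  let F : Module.End (Module.End (alg ρbar) (Fin n → k)) (Fin n → k) :=
    { toFun := fun x => N.mulVec x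
      map_add' := fun x y => Matrix.mulVec_add N x y
      map_smul' := fun φ x => by
        obtain ⟨c, hc⟩ := scalar ρbar hρ i0 φ
        show N.mulVec (φ x) = φ (N.mulVec x)
        rw [hc, hc, Matrix.mulVec_smul] }
  obtain ⟨r, hr⟩ := jacobson_density (R := alg ρbar) F
    (Finset.univ.image fun i : Fin n => (Pi.single i 1 : Fin n → k))
  have hN : N = (r : Matrix (Fin n) (Fin n) k) := by
    refine Matrix.ext_of_mulVec_single fun i => ?_
    exact hr _ (Finset.mem_image_of_mem _ (Finset.mem_univ i))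
  rw [hN]
  exact r.2

end Pool.Agent.H429.MZU
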