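import Pool.Agent.H429.MZU.Stmts
import Pool.Graph.R_seed8.W294.MZ.Transfer

/-!
# ASC: ascent of 2-rationality in a quadratic extension `Y = X(√ϖ)` of totally real fields
-/

set_option autoImplicit false

namespace Pool.Agent.H429.MZU

open NumberField IsDedekindDomain MZ294

namespace AscN

variable {X Y : Type} [Field X] [NumberField X] [Field Y] [NumberField Y] [Algebra X Y]

omit [NumberField X] [NumberField Y] in
lemma repr_theta (h2 : Module.finrank X Y = 2) {θ : Y} (hθ : θ ∉ (algebraMap X Y).range) (y : Y) :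
    ∃ p q : X, y = algebraMap X Y p + algebraMap X Y q * θ := by
  have : FiniteDimensional X Y := Module.finite_of_finrank_pos (by omega)
  have hli : LinearIndependent X ![(1 : Y), θ] := by
    rw [LinearIndependent.pair_iff]
    intro a b hab
    rw [Algebra.smul_def, Algebra.smul_def, mul_one] at hab
    by_cases hb : b = 0
    · subst hb
      rw [map_zero, zero_mul, add_zero] at hab
      exact ⟨(map_eq_zero _).1 hab, rfl⟩
    · exfalso
      apply hθ
      have hb' : algebraMap X Y b ≠ 0 := (map_ne_zero _).2 hb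
      refine ⟨-(a / b), ?_⟩
      rw [map_neg, map_div₀]
      field_simp
      linear_combination -hab
  have hspan := hli.span_eq_top_of_card_eq_finrank' (by rw [Fintype.card_fin, h2])
  have hy : y ∈ Submodule.span X (Set.range ![(1 : Y), θ]) := by
    rw [hspan]
    exact Submodule.mem_top
  rw [Submodule.mem_span_range_iff_exists_fun] at hy
  obtain ⟨c, hc⟩ := hy
  refine ⟨c 0, c 1, ?_⟩
  rw [← hc, Fin.sum_univ_two, Algebra.smul_def, Algebra.smul_def]
  simp

/-- the data of the quadratic extension -/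
structure Quad (X Y : Type) [Field X] [Field Y] [Algebra X Y] (θ : Y) (s : Y ≃ₐ[X] Y) : Prop where
  gal : IsGalois X Y
  card : ∀ g : Y ≃ₐ[X] Y, g = 1 ∨ g = s
  ne : s ≠ 1
  theta : s θ = -θ
  invol : ∀ y, s (s y) = y
  norm : ∀ y, algebraMap X Y (Algebra.norm X y) = y * s y

omit [NumberField X] [NumberField Y] in
lemma exists_quad [CharZero X] (h2 : Module.finrank X Y = 2) {θ : Y} {ϖ : X}
    (hθ2 : θ ^ 2 = algebraMap X Y ϖ)
    (hθ : θ ∉ (algebraMap X Y).range) : ∃ s : Y ≃ₐ[X] Y, Quad X Y θ s := by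
  have : FiniteDimensional X Y := Module.finite_of_finrank_pos (by omega)
  have : Algebra.IsQuadraticExtension X Y := ⟨h2⟩
  have hgal : IsGalois X Y := inferInstance
  have hcard : Nat.card (Y ≃ₐ[X] Y) = 2 := by
    rw [IsGalois.card_aut_eq_finrank, h2]
  have : Finite (Y ≃ₐ[X] Y) := Nat.finite_of_card_ne_zero (by omega)
  obtain ⟨s, hs1⟩ : ∃ s : Y ≃ₐ[X] Y, s ≠ 1 := by
    have : Nontrivial (Y ≃ₐ[X] Y) := Finite.one_lt_card_iff_nontrivial.mp (by omega)
    exact exists_ne 1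
  have hall : ∀ g : Y ≃ₐ[X] Y, g = 1 ∨ g = s := by
    intro g
    by_contra hcon
    push Not at hcon
    have h3 : ({1, s, g} : Set (Y ≃ₐ[X] Y)).ncard = 3 := by
      rw [Set.ncard_insert_of_notMem, Set.ncard_pair hcon.2.symm]
      simp only [Set.mem_insert_iff, Set.mem_singleton_iff, not_or]
      exact ⟨hs1.symm, hcon.1.symm⟩
    have h4 := Set.ncard_le_ncard (Set.subset_univ ({1, s, g} : Set (Y ≃ₐ[X] Y)))
      (Set.toFinite _)
    rw [h3, Set.ncard_univ, hcard] at h4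
    omega
  have hinv : ∀ y, s (s y) = y := by
    intro y
    rcases hall (s * s) with h | h
    · have := congrArg (fun g : Y ≃ₐ[X] Y => g y) h
      simpa using this
    · exfalso
      apply hs1
      exact mul_left_cancel (a := s) (by rw [h, mul_one])
  have hsθ : s θ = -θ := by
    have h5 : (s θ) ^ 2 = θ ^ 2 := by rw [← map_pow, hθ2, AlgEquiv.commutes]
    rcases sq_eq_sq_iff_eq_or_eq_neg.1 h5 with h | h
    · exfalso
      apply hs1
      ext y
      obtain ⟨p, q, rfl⟩ := repr_theta h2 hθ y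
      rw [map_add, map_mul, AlgEquiv.commutes, AlgEquiv.commutes, h]
      rfl
    · exact h
  refine ⟨s, hgal, hall, hs1, hsθ, hinv, ?_⟩
  intro y
  classical
  rw [Algebra.norm_eq_prod_automorphisms]
  have huniv : (Finset.univ : Finset (Y ≃ₐ[X] Y)) = {1, s} := by
    ext g
    simp only [Finset.mem_univ, Finset.mem_insert, Finset.mem_singleton, true_iff]
    exact hall g
  rw [huniv, Finset.prod_pair hs1.symm]
  rfl

omit [NumberField X] [NumberField Y] in
/-- real embeddings extend -/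
lemma ext_real (htr : ∀ τ : Y →+* ℂ, ComplexEmbedding.IsReal τ) (f : X →+* ℝ)
    [FiniteDimensional X Y] : ∃ g : Y →+* ℝ, ∀ x : X, g (algebraMap X Y x) = f x := by
  let fC : X →+* ℂ := Complex.ofRealHom.comp f
  let : Algebra X ℂ := fC.toAlgebra
  let g : Y →ₐ[X] ℂ := IsAlgClosed.lift
  have hg : ∀ x : X, g (algebraMap X Y x) = (f x : ℂ) := fun x => g.commutes x
  have hreal := htr g.toRingHom
  let gr : Y →+* ℝ := ComplexEmbedding.IsReal.embedding hreal
  have hgr : ∀ x : Y, ((gr x : ℝ) : ℂ) = g x := fun x => hreal.coe_embedding_apply x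
  refine ⟨gr, fun x => ?_⟩
  have : ((gr (algebraMap X Y x) : ℝ) : ℂ) = (f x : ℂ) := by rw [hgr, hg]
  exact_mod_cast this

/-- the inertia groups outside `2` are trivial -/
lemma ram_one {θ : Y} {s : Y ≃ₐ[X] Y} (hq : Quad X Y θ s) {ϖ : X} (hϖ : ϖ ≠ 0)
    (hθ2 : θ ^ 2 = algebraMap X Y ϖ)
    (hint : ∃ n : ℕ, IsIntegral ℤ (2 ^ n * ϖ) ∧ IsIntegral ℤ (2 ^ n * ϖ⁻¹))
    (P : Ideal (𝓞 Y)) [P.IsPrime] (h2 : (2 : 𝓞 Y) ∉ P) : P.ramificationIdx (𝓞 X) = 1 := by
  classical
  have := hq.gal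
  let : MulSemiringAction Gal(Y/X) (𝓞 Y) := IsIntegralClosure.MulSemiringAction (𝓞 X) X Y (𝓞 Y)
  have : IsGaloisGroup Gal(Y/X) (𝓞 X) (𝓞 Y) :=
    IsGaloisGroup.of_isFractionRing Gal(Y/X) (𝓞 X) (𝓞 Y) X Y
  have hact : ∀ (g : Gal(Y/X)) (x : 𝓞 Y), ((g • x : 𝓞 Y) : Y) = g (x : Y) := by
    intro g x
    exact algebraMap_galRestrict_apply (𝓞 X) g x
  obtain ⟨n, hn1, hn2⟩ := hint
  have hϖY : algebraMap X Y ϖ ≠ 0 := (map_ne_zero _).2 hϖ
  have hθ0 : θ ≠ 0 := by
    rintro rfl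
    apply hϖY
    rw [← hθ2]
    ring
  have h2int : IsIntegral ℤ ((2 : Y) ^ n) := by
    have : ((2 : ℤ) : Y) = 2 := by norm_num
    rw [← this]
    exact (isIntegral_intCast 2).pow n
  have hzi : IsIntegral ℤ (2 ^ n * θ) := by
    apply IsIntegral.of_pow (n := 2) (by norm_num)
    have h5 : (2 ^ n * θ) ^ 2 = 2 ^ n * algebraMap X Y (2 ^ n * ϖ) := by
      rw [mul_pow, hθ2, map_mul, map_pow, map_ofNat]
      ring
    rw [h5]
    exact h2int.mul (hn1.map (algebraMap X Y).toIntAlgHom)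
  have hzi' : IsIntegral ℤ (2 ^ n * θ⁻¹) := by
    apply IsIntegral.of_pow (n := 2) (by norm_num)
    have h5 : (2 ^ n * θ⁻¹) ^ 2 = 2 ^ n * algebraMap X Y (2 ^ n * ϖ⁻¹) := by
      rw [mul_pow, inv_pow, hθ2, map_mul, map_pow, map_ofNat, map_inv₀]
      ring
    rw [h5]
    exact h2int.mul (hn2.map (algebraMap X Y).toIntAlgHom)
  let z : 𝓞 Y := ⟨2 ^ n * θ, hzi⟩
  let z' : 𝓞 Y := ⟨2 ^ n * θ⁻¹, hzi'⟩
  have hzz : z * z' = 2 ^ n * 2 ^ n := by
    apply RingOfIntegers.ext
    change (2 ^ n * θ) * (2 ^ n * θ⁻¹) = (2 : Y) ^ n * 2 ^ n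
    field_simp
  have h2n : (2 : 𝓞 Y) ^ n ∉ P := fun h => h2 ((inferInstance : P.IsPrime).mem_of_pow_mem n h)
  have hzP : z ∉ P := by
    intro h
    have h4 : (2 : 𝓞 Y) ^ n * 2 ^ n ∈ P := by
      rw [← hzz]
      exact P.mul_mem_right _ h
    rcases (inferInstance : P.IsPrime).mem_or_mem h4 with h | h <;> exact h2n h
  have hinert : ∀ g : Gal(Y/X), g ∈ P.toAddSubgroup.inertia Gal(Y/X) → g = 1 := by
    intro g hg
    rcases hq.card g with h | h
    · exact h
    · exfalso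
      subst h
      rw [AddSubgroup.mem_inertia] at hg
      have e2 : g • z = -z := by
        apply RingOfIntegers.ext
        rw [hact]
        change g (2 ^ n * θ) = -(2 ^ n * θ)
        rw [map_mul, map_pow, map_ofNat, hq.theta]
        ring
      have e3 : -(2 * z) ∈ P := by
        have := hg z
        rw [e2] at this
        have h6 : -(2 * z) = -z - z := by ring
        rw [h6]
        exact this
      have e4 : 2 * z ∈ P := by
        have := P.neg_mem e3
        rwa [neg_neg] at this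
      rcases (inferInstance : P.IsPrime).mem_or_mem e4 with h | h
      · exact h2 h
      · exact hzP h
  have hcard : Nat.card (P.toAddSubgroup.inertia Gal(Y/X)) = 1 := by
    rw [Nat.card_eq_one_iff_unique]
    refine ⟨⟨fun a b => ?_⟩, ⟨1⟩⟩
    apply Subtype.ext
    rw [hinert a.1 a.2, hinert b.1 b.2]
  have key := Ideal.card_inertia_eq_ramificationIdxIn (G := Gal(Y/X)) (P.under (𝓞 X)) P
  have key2 := Ideal.ramificationIdxIn_eq_ramificationIdx (P.under (𝓞 X)) P Gal(Y/X)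
  rw [hcard, key2] at key
  exact key.symm

/-- even valuations descend -/
lemma even_descend {θ : Y} {s : Y ≃ₐ[X] Y} (hq : Quad X Y θ s) {ϖ : X} (hϖ : ϖ ≠ 0)
    (hθ2 : θ ^ 2 = algebraMap X Y ϖ)
    (hint : ∃ n : ℕ, IsIntegral ℤ (2 ^ n * ϖ) ∧ IsIntegral ℤ (2 ^ n * ϖ⁻¹)) (x : X)
    (hx : EvenOut2 Y (algebraMap X Y x)) : EvenOut2 X x := by
  intro v hv
  classical
  obtain ⟨⟨P, hPp, hPl⟩⟩ : Nonempty (v.asIdeal.primesOver (𝓞 Y)) := inferInstance
  have := hPp
  have := hPl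
  have hPbot : P ≠ ⊥ := Ideal.ne_bot_of_liesOver_of_ne_bot v.ne_bot P
  let w : HeightOneSpectrum (𝓞 Y) := ⟨P, hPp, hPbot⟩
  have : w.asIdeal.LiesOver v.asIdeal := hPl
  have hw2 : (2 : 𝓞 Y) ∉ w.asIdeal := by
    intro h
    apply hv
    rw [hPl.over, Ideal.mem_comap]
    have : algebraMap (𝓞 X) (𝓞 Y) 2 = 2 := map_ofNat _ 2
    rw [this]
    exact h
  have h1 := hx w hw2
  rw [← HeightOneSpectrum.valuation_liesOver Y v w] at h1
  have h3 : v.asIdeal.ramificationIdx' w.asIdeal = 1 := by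
    rw [Ideal.ramificationIdx'_eq_ramificationIdx _ _ v.ne_bot]
    exact ram_one hq hϖ hθ2 hint P hw2
  rw [h3, pow_one] at h1
  exact h1

omit [Algebra X Y] [NumberField X] [Field X] in
lemma even_mul_sq {b y : Y} (hb : EvenOut2 Y b) : EvenOut2 Y (b * (y * y)) := by
  intro v hv
  rw [map_mul, map_mul]
  exact (hb v hv).mul ⟨_, rfl⟩

/-- `b` is a square if its norm is a square -/
lemma sq_of_norm {θ : Y} {s : Y ≃ₐ[X] Y} (hq : Quad X Y θ s) {ϖ : X} (hϖ : ϖ ≠ 0)
    (htr : ∀ τ : Y →+* ℂ, ComplexEmbedding.IsReal τ)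
    (hθ2 : θ ^ 2 = algebraMap X Y ϖ)
    (hint : ∃ n : ℕ, IsIntegral ℤ (2 ^ n * ϖ) ∧ IsIntegral ℤ (2 ^ n * ϖ⁻¹))
    (hX : TwoRatE X ϖ) {b : Y} (hb0 : b ≠ 0) (hpos : ∀ f : Y →+* ℝ, 0 < f b)
    (hev : EvenOut2 Y b) (hn : IsSquare (Algebra.norm X b)) : IsSquare b := by
  have : FiniteDimensional X Y := by
    have := hq.gal
    exact Module.Finite.of_restrictScalars_finite ℚ X Y
  obtain ⟨c, hc⟩ := hn
  have hϖY : algebraMap X Y ϖ ≠ 0 := (map_ne_zero _).2 hϖ
  have hθ0 : θ ≠ 0 := by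
    rintro rfl
    apply hϖY
    rw [← hθ2]
    ring
  have hs0 : ∀ y : Y, y ≠ 0 → s y ≠ 0 := fun y hy => (map_ne_zero_iff s s.injective).2 hy
  set C := algebraMap X Y c with hC
  have hbs : b * s b = C * C := by rw [← hq.norm, hc, map_mul]
  have hC0 : C ≠ 0 := by
    intro h
    rw [h, mul_zero] at hbs
    exact mul_ne_zero hb0 (hs0 b hb0) hbs
  have hsC : s C = C := s.commutes c
  -- Hilbert 90
  obtain ⟨y, hy0, hy⟩ : ∃ y : Y, y ≠ 0 ∧ b * s y = C * y := by
    by_cases h : b = -C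
    · refine ⟨θ, hθ0, ?_⟩
      rw [h, hq.theta]
      ring
    · refine ⟨C + b, fun h' => h (by linear_combination h'), ?_⟩
      rw [map_add, hsC]
      linear_combination hbs
  have hys0 : s y ≠ 0 := hs0 y hy0
  have hN0 : Algebra.norm X y ≠ 0 := by
    intro h
    have h3 := hq.norm y
    rw [h, map_zero] at h3
    exact mul_ne_zero hy0 hys0 h3.symm
  set l : X := c / Algebra.norm X y with hl
  have hlY : algebraMap X Y l = C / (y * s y) := by
    rw [hl, map_div₀, hq.norm]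
  have hbl : b = algebraMap X Y l * (y * y) := by
    rw [hlY]
    field_simp
    linear_combination hy
  have hl0 : l ≠ 0 := by
    intro h
    rw [h, map_zero, zero_mul] at hbl
    exact hb0 hbl
  have hlb : algebraMap X Y l = b * (y⁻¹ * y⁻¹) := by
    rw [hbl]
    field_simp
  have hlev : EvenOut2 X l := by
    refine even_descend hq hϖ hθ2 hint l ?_
    rw [hlb]
    exact even_mul_sq hev
  have hlpos : ∀ f : X →+* ℝ, 0 < f l := by
    intro f
    obtain ⟨g, hg⟩ := ext_real (Y := Y) htr f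
    rw [← hg, hlb, map_mul, map_mul]
    have h1 := hpos g
    have h2 : g y⁻¹ ≠ 0 := (map_ne_zero g).2 (inv_ne_zero hy0)
    have h3 : 0 < g y⁻¹ * g y⁻¹ := mul_self_pos.2 h2
    exact mul_pos h1 h3
  rcases hX l hl0 hlpos hlev with ⟨e, he⟩ | ⟨e, he⟩
  · refine ⟨algebraMap X Y e * y, ?_⟩
    rw [hbl, he, map_mul]
    ring
  · refine ⟨algebraMap X Y e * θ⁻¹ * y, ?_⟩
    have h4 : θ ^ 2 * algebraMap X Y l = algebraMap X Y e * algebraMap X Y e := by
      rw [hθ2, ← map_mul, he, map_mul]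
    rw [hbl]
    field_simp
    linear_combination h4

end AscN

open AscN in
/-- ASC -/
theorem asc : S_Asc := by
  intro X Y _ _ _ _ _ h2 htr ϖ hϖ hint hX hth ϖ' hϖ'0 hϖ'pos hϖ'ev hsq a ha0 hapos haev
  obtain ⟨θ, hθ2, hθ⟩ := hth
  obtain ⟨s, hq⟩ := exists_quad h2 hθ2 hθ
  have : FiniteDimensional X Y := Module.finite_of_finrank_pos (by omega)
  have hs0 : ∀ y : Y, y ≠ 0 → s y ≠ 0 := fun y hy => (map_ne_zero_iff s s.injective).2 hy
  have hconj : ∀ b : Y, b ≠ 0 → EvenOut2 Y b → EvenOut2 Y (s b) := by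
    intro b hb0 hb
    apply evenOut2_ringEquiv (s.symm : Y ≃+* Y) _ (hs0 _ hb0)
    have : (s.symm : Y ≃+* Y) (s b) = b := s.symm_apply_apply b
    rw [this]
    exact hb
  have hN0 : Algebra.norm X a ≠ 0 := by
    intro h
    have h3 := hq.norm a
    rw [h, map_zero] at h3
    exact mul_ne_zero ha0 (hs0 a ha0) h3.symm
  have hNev : EvenOut2 X (Algebra.norm X a) := by
    refine even_descend hq hϖ hθ2 hint _ ?_
    rw [hq.norm]
    exact haev.mul (hconj a ha0 haev)
  have hNpos : ∀ f : X →+* ℝ, 0 < f (Algebra.norm X a) := by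
    intro f
    obtain ⟨g, hg⟩ := ext_real (Y := Y) htr f
    rw [← hg, hq.norm, map_mul]
    exact mul_pos (hapos g) (hapos (g.comp (s : Y →+* Y)))
  rcases hX _ hN0 hNpos hNev with h | h
  · exact Or.inl (sq_of_norm hq hϖ htr hθ2 hint hX ha0 hapos haev h)
  · right
    refine sq_of_norm hq hϖ htr hθ2 hint hX (mul_ne_zero hϖ'0 ha0) ?_ (hϖ'ev.mul haev) ?_
    · intro f
      rw [map_mul]
      exact mul_pos (hϖ'pos f) (hapos f)
    · obtain ⟨e, he⟩ := h
      obtain ⟨e', he'⟩ := hsq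
      refine ⟨e * e' * ϖ⁻¹, ?_⟩
      rw [map_mul]
      field_simp
      linear_combination (ϖ * Algebra.norm X a) * he' + (e' * e') * he

end Pool.Agent.H429.MZU
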