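import Pool.Agent.H429.MZU.Fin3
import Pool.Agent.H429.MZU.Asc

/-!
# MP_aa8fd2_nt : the fields to which the theorem applies (helper429)
-/

set_option autoImplicit false
set_option linter.all false
set_option maxHeartbeats 4000000
set_option synthInstance.maxHeartbeats 400000

namespace Pool.Agent.H429.MZU

open MZ NumberField IsDedekindDomain IsLocalRing

theorem tower' : S_Tower := tower (MZ294.stmL MZ413.stmN MZ413.stmM MZ413.stmP) asc

lemma finrank_Lf : Module.finrank F5 Lf = 9 :=
  (MZ294.stmL MZ413.stmN MZ413.stmM MZ413.stmP).2.2.1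

/-- a field of degree prime to three meets `L` trivially -/
theorem disjoint_of_not_dvd (F : IntermediateField F5 Om) [FiniteDimensional F5 F]
    (h : ¬ 3 ∣ Module.finrank F5 F) : F ⊓ Lf = ⊥ := by
  haveI : FiniteDimensional F5 Lf := (MZ294.stmL MZ413.stmN MZ413.stmM MZ413.stmP).1
  have h1 : Module.finrank F5 (F ⊓ Lf : IntermediateField F5 Om) ∣ 9 := by
    rw [← finrank_Lf]
    exact IntermediateField.finrank_dvd_of_le_right inf_le_right
  have h2 : Module.finrank F5 (F ⊓ Lf : IntermediateField F5 Om) ∣ Module.finrank F5 F :=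
    IntermediateField.finrank_dvd_of_le_right inf_le_left
  rw [← IntermediateField.finrank_eq_one_iff]
  have h3 : (9 : ℕ) = 3 ^ 2 := by norm_num
  rw [h3] at h1
  obtain ⟨i, hi, he⟩ := (Nat.dvd_prime_pow Nat.prime_three).mp h1
  rcases i with _ | i
  · simpa using he
  · exfalso
    apply h
    refine dvd_trans ?_ h2
    rw [he, pow_succ]
    exact Dvd.intro_left _ rfl

lemma real_of_le {M F : IntermediateField F5 Om} (hMF : M ≤ F)
    (hF : ∀ τ : F →+* ℂ, ComplexEmbedding.IsReal τ) (φ : M →+* ℂ) :
    ComplexEmbedding.IsReal φ := by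
  letI a1 : Algebra M F := incAlg hMF
  haveI : IsScalarTower F5 M F := IsScalarTower.of_algebraMap_eq (fun _ => rfl)
  haveI : Algebra.IsAlgebraic F5 F := inferInstance
  haveI : Algebra.IsAlgebraic M F := Algebra.IsAlgebraic.tower_top (K := F5) M
  letI a2 : Algebra M ℂ := φ.toAlgebra
  let f : F →ₐ[M] ℂ := IsAlgClosed.lift
  have h1 : f.toRingHom.comp (algebraMap M F) = φ := f.comp_algebraMap
  have h2 := hF f.toRingHom
  rw [ComplexEmbedding.isReal_iff] at h2 ⊢
  ext x
  rw [← h1]
  exact RingHom.congr_fun h2 (algebraMap M F x)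

/-- totally real fields satisfy `RealCond` -/
theorem realCond_of_real (m : ℕ) (F : IntermediateField F5 Om)
    (hF : ∀ τ : F →+* ℂ, ComplexEmbedding.IsReal τ) : RealCond m F :=
  fun M _ hMF _ φ => real_of_le hMF hF φ

lemma finrank_Fm' (m : ℕ) : Module.finrank F5 (Fm m) = 2 ^ m := (tower' m).2.2.1

instance finite_Fm (m : ℕ) : FiniteDimensional F5 (Fm m) := by
  refine IntermediateField.adjoin.finiteDimensional ?_
  exact Algebra.IsIntegral.isIntegral _

lemma real_Fm (m : ℕ) (τ : Fm m →+* ℂ) : ComplexEmbedding.IsReal τ :=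
  real_of_le (Fm_le_Lm m) (tower' m).2.2.2.1 τ

/-- odd extensions of `F_m` satisfy `RealCond` -/
theorem realCond_of_odd (m r : ℕ) (F : IntermediateField F5 Om) [FiniteDimensional F5 F]
    (hr : Odd r) (h : Module.finrank F5 F = 2 ^ m * r) : RealCond m F := by
  rintro M h1 h2 ⟨a, ha⟩
  haveI : FiniteDimensional F5 M := by
    letI a1 : Algebra M F := incAlg h2
    haveI : IsScalarTower F5 M F := IsScalarTower.of_algebraMap_eq (fun _ => rfl)
    exact FiniteDimensional.of_injective (IntermediateField.inclusion h2).toLinearMap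
      (IntermediateField.inclusion h2).injective
  have h3 : Module.finrank F5 M ∣ 2 ^ m * r := by
    rw [← h]; exact IntermediateField.finrank_dvd_of_le_right h2
  rw [ha] at h3
  have h4 : 2 ^ a ∣ 2 ^ m :=
    (Nat.Coprime.pow_left a (Nat.coprime_two_left.mpr hr)).dvd_of_dvd_mul_right h3
  have h5 : Module.finrank F5 M ≤ Module.finrank F5 (Fm m) := by
    rw [ha, finrank_Fm']; exact Nat.le_of_dvd (by positivity) h4
  have h6 : Fm m = M := IntermediateField.eq_of_le_of_finrank_le h1 h5
  subst h6
  exact real_Fm m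

end Pool.Agent.H429.MZU
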