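import Pool.Agent.H429.MZU.AsmA
import Pool.Graph.R_seed8.W21.MZ.ExA

/-!
# MP_aa8fd2_nt : assembly, Galois part (helper429, after `W566.MZ.Asm2`)
-/

set_option autoImplicit false
set_option linter.all false

namespace Pool.Agent.H429.MZU

open MZ IsLocalRing NumberField

section coeff

variable {k : Type} [Field k] {d : ℕ}

lemma mem_max_BB (f : BB k d) : f ∈ maximalIdeal (BB k d) ↔ MvPowerSeries.constantCoeff f = 0 := by
  rw [mem_maximalIdeal, mem_nonunits_iff, MvPowerSeries.isUnit_iff_constantCoeff,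
        isUnit_iff_ne_zero, not_not]

instance adic_BB : IsAdicComplete (maximalIdeal (BB k d)) (BB k d) := by
  have h0 : maximalIdeal k = ⊥ := maximalIdeal_eq_bot
  haveI : IsAdicComplete (maximalIdeal k) k := by rw [h0]; infer_instance
  exact (Pool.Agent.W21.MZ.exA k (Fin d)).1

lemma finite_res [Finite k] : Finite (ResidueField (BB k d)) := by
  refine Finite.of_surjective (fun a : k => residue (BB k d) (MvPowerSeries.C a)) ?_
  intro x
  obtain ⟨f, rfl⟩ := residue_surjective x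
  refine ⟨MvPowerSeries.constantCoeff f, ?_⟩
  show residue (BB k d) _ = residue (BB k d) f
  rw [← sub_eq_zero, ← map_sub, residue_eq_zero_iff, mem_max_BB]
  simp

lemma two_BB [CharP k 2] : (2 : BB k d) = 0 := by
  have h : ((2 : ℕ) : k) = 0 := CharP.cast_eq_zero k 2
  have h1 : ((2 : ℕ) : BB k d) = MvPowerSeries.C ((2 : ℕ) : k) := (map_natCast _ 2).symm
  rw [h, map_zero] at h1
  exact_mod_cast h1

end coeff

/-- ASM: the family of lifts over `F`; the elements of `E ∩ F` are totally real. -/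
def S_AsmR : Prop :=
  ∀ (F₀ L E F K : Type) [Field F₀] [NumberField F₀] [Field L] [NumberField L] [Field E]
    [Field F] [NumberField F] [Field K]
    [Algebra F₀ L] [Algebra L E] [Algebra F₀ E] [IsScalarTower F₀ L E]
    [Algebra E K] [Algebra F₀ K] [IsScalarTower F₀ E K]
    [Algebra F₀ F] [Algebra F K] [IsScalarTower F₀ F K]
    [FiniteDimensional F₀ L] [IsGalois F₀ L] [IsGalois F₀ E] [IsGalois L E] [IsGalois F K]
    [FiniteDimensional F₀ F],
    Module.finrank F₀ L = 9 →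
    (∀ τ : L →+* ℂ, ComplexEmbedding.IsReal τ) →
    (∀ (x : E) (y : F), algebraMap E K x = algebraMap F K y →
      ∀ f : E →+* ℂ, (starRingEnd ℂ) (f x) = f x) →
    ∀ (ϖ : F₀) (r : E), ϖ ≠ 0 → r ^ 2 = algebraMap F₀ E ϖ → r ∉ (algebraMap L E).range →
    ProTwo Gal(E/L) →
    (∀ (φ : (L →+* ℂ) → (E →+* ℂ)) (c : (L →+* ℂ) → Gal(E/L)),
      (∀ τ, (φ τ).comp (algebraMap L E) = τ) → (∀ τ, ComplexEmbedding.IsConj (φ τ) (c τ)) →
      ∀ N : Subgroup Gal(E/L), N.Normal → IsOpen (N : Set Gal(E/L)) →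
        2 ^ (∑ τ, orb N (c τ) + 1) ≤ numHom2 N) →
    (∀ (φ : (L →+* ℂ) → (E →+* ℂ)) (c : (L →+* ℂ) → Gal(E/L)) (σ : Gal(E/L)),
      (∀ τ, (φ τ).comp (algebraMap L E) = τ) → (∀ τ, ComplexEmbedding.IsConj (φ τ) (c τ)) →
      (∀ r : E, r ^ 2 = algebraMap F₀ E ϖ → σ r ≠ r) → TopGen c σ) →
    (∀ s : Gal(L/F₀), ∃ γ : Gal(K/F), ∀ x : L,
      γ (algebraMap E K (algebraMap L E x)) = algebraMap E K (algebraMap L E (s x))) →
    ∀ (k : Type) [Field k] [Finite k] [CharP k 2] (d : ℕ) (ρbar : Gal(K/F) →* GL (Fin 3) k),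
      IsOpen (ρbar.ker : Set Gal(K/F)) →
      (∀ g : Gal(K/F), (∀ x : L, g (algebraMap E K (algebraMap L E x)) =
        algebraMap E K (algebraMap L E x)) →
        ∃ a : k, (ρbar g : Matrix (Fin 3) (Fin 3) k) = a • (1 : Matrix (Fin 3) (Fin 3) k)) →
      Submodule.span k (Set.range fun g => (ρbar g : Matrix (Fin 3) (Fin 3) k)) = ⊤ →
    ∀ (X : (F₀ →+* ℂ) → GL (Fin 3) (BB k d)) (u : BB k d), (∀ v, X v * X v = 1) →
      (∀ v a b, ((X v : Matrix (Fin 3) (Fin 3) (BB k d)) - 1) a b ∈ maximalIdeal (BB k d)) →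
      u - 1 ∈ maximalIdeal (BB k d) →
    ∃ ρ : Gal(K/F) →* GL (Fin 3) (BB k d),
      (∀ g, Matrix.GeneralLinearGroup.map (MvPowerSeries.constantCoeff (σ := Fin d) (R := k)) (ρ g) =
        ρbar g) ∧
      (∀ m : ℕ, IsOpen {g : Gal(K/F) | ∀ a b : Fin 3,
        ((ρ g : Matrix (Fin 3) (Fin 3) (BB k d)) - 1) a b ∈ maximalIdeal (BB k d) ^ m}) ∧
      (∀ v a b, ((X v : Matrix (Fin 3) (Fin 3) (BB k d)) - 1) a b ∈
        Submodule.span k (Set.range fun g : Gal(K/F) =>
          (ρ g : Matrix (Fin 3) (Fin 3) (BB k d)).trace)) ∧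
      ∃ s : ℕ, u ^ (2 ^ s) - 1 ∈ Submodule.span k (Set.range fun g : Gal(K/F) =>
          (ρ g : Matrix (Fin 3) (Fin 3) (BB k d)).trace)

theorem asm (hT : StmT) (hLim : S_Lim) (hSZ : StmSZ) : S_AsmR := by
  intro F₀ L E F K _ _ _ _ _ _ _ _ _ _ _ _ _ _ _ _ _ _ _ _ _ _ _ _ h9 hreal hrealF ϖ r hϖ0 hr2 hr
    hpro hlow hgen hsur k _ _ _ d ρbar hρo hρs hspan XX u hX2 hX1 hu1
  classical
  haveI : CharZero E := charZero_of_injective_algebraMap (algebraMap F₀ E).injective
  -- basic group data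
  let P := Gal(E/L)
  let G := Gal(E/F₀)
  let j : Gal(E/L) →* Gal(E/F₀) := jR F₀ L E
  have hjinj : Function.Injective j := jR_inj
  have hjo : IsOpenMap j := isOpenMap_jR
  have hjc : Continuous j := continuous_jR
  let rL : Gal(E/F₀) →* Gal(L/F₀) := AlgEquiv.restrictNormalHom L
  have hrange : j.range = rL.ker := range_jR_eq_ker
  have hjn : j.range.Normal := by rw [hrange]; exact MonoidHom.normal_ker _
  have hrLsurj : Function.Surjective rL := AlgEquiv.restrictNormalHom_surjective E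
  have hPopen : IsOpen (j.range : Set Gal(E/F₀)) := by
    rw [MonoidHom.coe_range]
    exact hjo.isOpen_range
  have hcard9 : Nat.card (Gal(E/F₀) ⧸ j.range) = 9 := by
    rw [hrange]
    rw [Nat.card_congr (QuotientGroup.quotientKerEquivOfSurjective rL hrLsurj).toEquiv,
      IsGalois.card_aut_eq_finrank, h9]
  -- the element `√ϖ`
  have hϖE : algebraMap F₀ E ϖ ≠ 0 := by
    rw [Ne, map_eq_zero_iff _ (algebraMap F₀ E).injective]; exact hϖ0
  have hr0 : r ≠ 0 := by
    rintro rfl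
    apply hϖE
    rw [← hr2]; ring
  have hsq : ∀ g : Gal(E/F₀), g r = r ∨ g r = -r := by
    intro g
    have : (g r) ^ 2 = r ^ 2 := by rw [← map_pow, hr2, AlgEquiv.commutes]
    exact sq_eq_sq_iff_eq_or_eq_neg.mp this
  have hneg : r ≠ -r := by
    intro h
    have : (2 : E) * r = 0 := by linear_combination h
    rcases mul_eq_zero.mp this with h2 | h2
    · norm_num at h2
    · exact hr0 h2
  let D : Subgroup Gal(E/F₀) := j.range ⊓ MulAction.stabilizer Gal(E/F₀) r
  have hDmem : ∀ g, g ∈ D ↔ g ∈ j.range ∧ g r = r := fun g => Iff.rfl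
  have hDn : D.Normal := by
    constructor
    intro n hn g
    rw [hDmem] at hn ⊢
    refine ⟨hjn.conj_mem _ hn.1 g, ?_⟩
    show g (n (g⁻¹ r)) = r
    have hginv : g (g⁻¹ r) = r := by
      show (g * g⁻¹) r = r
      rw [mul_inv_cancel, AlgEquiv.one_apply]
    rcases hsq g⁻¹ with h | h
    · rw [h] at hginv ⊢
      rw [hn.2, hginv]
    · rw [h] at hginv ⊢
      rw [map_neg, hn.2, hginv]
  have hDo : IsOpen (D : Set Gal(E/F₀)) := by
    rw [Subgroup.coe_inf]
    exact hPopen.inter (isOpen_stab r)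
  -- some element of P moves r
  obtain ⟨p₀, hp₀⟩ : ∃ p : Gal(E/L), p r ≠ r := by
    by_contra hcon
    push Not at hcon
    exact hr ((InfiniteGalois.mem_range_algebraMap_iff_fixed r).mpr hcon)
  have hDidx : D.relIndex j.range = 2 := by
    rw [Subgroup.relIndex, Subgroup.index_eq_two_iff]
    refine ⟨⟨j p₀, p₀, rfl⟩, ?_⟩
    rintro ⟨b, hb⟩
    rw [Subgroup.mem_subgroupOf, Subgroup.mem_subgroupOf]
    have e1 : (j p₀) r = -r := by
      rcases hsq (j p₀) with h | h
      · exact absurd h hp₀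
      · exact h
    simp only [hDmem, Subgroup.coe_mul]
    rcases hsq b with h | h
    · right
      refine ⟨⟨hb, h⟩, ?_⟩
      rintro ⟨-, h2⟩
      have : b ((j p₀) r) = r := h2
      rw [e1, map_neg, h] at this
      exact hneg this.symm
    · left
      refine ⟨⟨mul_mem hb ⟨p₀, rfl⟩, ?_⟩, ?_⟩
      · show b ((j p₀) r) = r
        rw [e1, map_neg, h, neg_neg]
      · rintro ⟨-, h2⟩
        rw [h] at h2
        exact hneg h2.symm
  have hpro' : ∀ N : Subgroup Gal(E/F₀), N.Normal → IsOpen (N : Set Gal(E/F₀)) → N ≤ j.range →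
      ∃ e : ℕ, N.relIndex j.range = 2 ^ e := by
    intro N hN hNo _
    obtain ⟨e, he⟩ := hpro (N.comap j) (hN.comap j) (hNo.preimage hjc)
    refine ⟨e, ?_⟩
    rw [← he, ← Subgroup.index_comap]
    rfl
  obtain ⟨A, σ₀, hA, hA', hσP, hσD, hσA⟩ := hSZ Gal(E/F₀) j.range D hjn hPopen hDn hDo inf_le_left
    hDidx ⟨2, by rw [hcard9]; norm_num⟩ hpro'
  obtain ⟨σ, rfl⟩ := hσP
  have hσr : ∀ r' : E, r' ^ 2 = algebraMap F₀ E ϖ → σ r' ≠ r' := by
    intro r' hr' hfix
    have : r' = r ∨ r' = -r := sq_eq_sq_iff_eq_or_eq_neg.mp (by rw [hr', hr2])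
    apply hσD
    rw [hDmem]
    refine ⟨⟨σ, rfl⟩, ?_⟩
    show σ r = r
    rcases this with h | h
    · rw [← h]; exact hfix
    · rw [h, map_neg, neg_inj] at hfix; exact hfix
  -- embeddings
  have hext : ∀ v : F₀ →+* ℂ, ∃ φ : E →+* ℂ, φ.comp (algebraMap F₀ E) = v := by
    intro v
    letI := v.toAlgebra
    haveI : Algebra.IsAlgebraic F₀ E := inferInstance
    let f : E →ₐ[F₀] ℂ := IsAlgClosed.lift
    exact ⟨f.toRingHom, f.comp_algebraMap⟩
  choose Φ hΦ using hext
  -- complex conjugations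
  have hconj : ∀ φ : E →+* ℂ, ∃ c : Gal(E/L), ComplexEmbedding.IsConj φ c := by
    intro φ
    have h1 : φ.comp (algebraMap L E) = (ComplexEmbedding.conjugate φ).comp (algebraMap L E) := by
      have := hreal (φ.comp (algebraMap L E))
      rw [ComplexEmbedding.isReal_iff] at this
      rw [← this]
      ext x
      rfl
    obtain ⟨s, hs⟩ := NumberField.ComplexEmbedding.exists_comp_symm_eq_of_comp_eq φ
      (ComplexEmbedding.conjugate φ) h1
    exact ⟨s.symm, hs.symm⟩
  -- the element a τ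
  have hres : ∀ τ : L →+* ℂ, ∃ a ∈ A, ∀ x : L,
      Φ (τ.comp (algebraMap F₀ L)) (a⁻¹ (algebraMap L E x)) = τ x := by
    intro τ
    set v := τ.comp (algebraMap F₀ L) with hv
    have h1 : ((Φ v).comp (algebraMap L E)).comp (algebraMap F₀ L) = τ.comp (algebraMap F₀ L) := by
      rw [RingHom.comp_assoc, ← IsScalarTower.algebraMap_eq, hΦ v]
    obtain ⟨s, hs⟩ := NumberField.ComplexEmbedding.exists_comp_symm_eq_of_comp_eq
      ((Φ v).comp (algebraMap L E)) τ h1
    obtain ⟨g, hg⟩ := hrLsurj s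
    obtain ⟨a, ha, q, hq, hgq⟩ := hA' g
    refine ⟨a, ha, ?_⟩
    intro x
    have h2 : rL a = s := by
      have : rL q = 1 := by
        rw [hrange] at hq
        exact hq
      rw [← hg, hgq, map_mul, this, one_mul]
    have h3 : a⁻¹ (algebraMap L E x) = algebraMap L E (s.symm x) := by
      have h4 := res_apply (F := F₀) (E := L) (K := E) a⁻¹ x
      rw [← h4]
      congr 1
      show (rL a⁻¹) x = _
      rw [map_inv, h2]
      rfl
    rw [h3]
    exact RingHom.congr_fun hs x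
  choose a haA ha using hres
  -- uniqueness of a
  have hauniq : ∀ (τ : L →+* ℂ) (b : Gal(E/F₀)), b ∈ A →
      (∀ x : L, Φ (τ.comp (algebraMap F₀ L)) (b⁻¹ (algebraMap L E x)) = τ x) → b = a τ := by
    intro τ b hb hbx
    have h1 : a τ * b⁻¹ ∈ j.range := by
      rw [mem_range_jR]
      intro x
      have h2 : b⁻¹ (algebraMap L E x) = (a τ)⁻¹ (algebraMap L E x) := by
        apply (Φ (τ.comp (algebraMap F₀ L))).injective
        rw [hbx, ha]
      show (a τ) (b⁻¹ (algebraMap L E x)) = _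
      rw [h2]
      show ((a τ) * (a τ)⁻¹) (algebraMap L E x) = _
      rw [mul_inv_cancel, AlgEquiv.one_apply]
    have h3 : a τ * b⁻¹ ∈ A ⊓ j.range := ⟨A.mul_mem (haA τ) (A.inv_mem hb), h1⟩
    rw [hA, Subgroup.mem_bot, mul_inv_eq_one] at h3
    exact h3.symm
  let φ : (L →+* ℂ) → (E →+* ℂ) := fun τ =>
    (Φ (τ.comp (algebraMap F₀ L))).comp ((a τ)⁻¹ : Gal(E/F₀)).toRingEquiv.toRingHom
  have hφ : ∀ τ, (φ τ).comp (algebraMap L E) = τ := by
    intro τ
    ext x
    exact ha τ x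
  choose cv hcv using fun v : F₀ →+* ℂ => hconj (Φ v)
  have hcc : ∀ τ : L →+* ℂ, ∃ q : Gal(E/L), j q = a τ * j (cv (τ.comp (algebraMap F₀ L))) * (a τ)⁻¹ :=
    fun τ => hjn.conj_mem _ ⟨_, rfl⟩ (a τ)
  choose c hc using hcc
  have hcφ : ∀ τ, ComplexEmbedding.IsConj (φ τ) (c τ) := by
    intro τ
    have h1 := hcv (τ.comp (algebraMap F₀ L))
    rw [ComplexEmbedding.IsConj] at h1 ⊢
    ext x
    have h2 := RingHom.congr_fun h1 ((a τ)⁻¹ x)
    have h3 : (c τ) x = (a τ) ((cv (τ.comp (algebraMap F₀ L))) ((a τ)⁻¹ x)) := by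
      have := congrArg (fun g : Gal(E/F₀) => g x) (hc τ)
      exact this
    show ComplexEmbedding.conjugate (φ τ) x = (Φ (τ.comp (algebraMap F₀ L))) ((a τ)⁻¹ ((c τ) x))
    rw [h3]
    have h4 : (a τ)⁻¹ ((a τ) ((cv (τ.comp (algebraMap F₀ L))) ((a τ)⁻¹ x))) =
        (cv (τ.comp (algebraMap F₀ L))) ((a τ)⁻¹ x) := by
      show ((a τ)⁻¹ * (a τ)) _ = _
      rw [inv_mul_cancel, AlgEquiv.one_apply]
    rw [h4]
    exact h2
  have hTG : TopGen c σ := hgen φ c σ hφ hcφ hσr
  have hc2 : ∀ τ, c τ * c τ = 1 := by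
    intro τ
    have h1 := hcφ τ
    rw [ComplexEmbedding.IsConj] at h1
    ext x
    apply (φ τ).injective
    have h2 := RingHom.congr_fun h1 ((c τ) x)
    have h3 := RingHom.congr_fun h1 x
    show (φ τ) ((c τ) ((c τ) x)) = (φ τ) x
    have h4 : (φ τ) ((c τ) ((c τ) x)) = star ((φ τ) ((c τ) x)) := h2.symm
    have h5 : (φ τ) ((c τ) x) = star ((φ τ) x) := h3.symm
    rw [h4, h5, star_star]
  have hAssign : Assign c σ := hT Gal(E/L) hpro (L →+* ℂ) c σ hc2 hTG
    (fun N hN hNo => by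
      have := hlow φ c hφ hcφ N hN hNo
      convert this)
  -- restriction K → E
  let res : Gal(K/F) →* Gal(E/F₀) := resU F₀ E F K
  have hresc : Continuous res := continuous_resU F₀ E F K
  let U : Subgroup Gal(E/F₀) := res.range
  have hUo : IsOpen (U : Set Gal(E/F₀)) := isOpen_range_resU F₀ E F K
  have hUcl : IsClosed (U : Set Gal(E/F₀)) := isClosed_range_resU F₀ E F K
  -- complex conjugations lie in U
  have hcU : ∀ (f : E →+* ℂ) (q : Gal(E/L)), ComplexEmbedding.IsConj f q → j q ∈ U := by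
    intro f q hq
    rw [ComplexEmbedding.IsConj] at hq
    refine (mem_range_resU F₀ E F K (j q)).mpr ?_
    rintro x ⟨y, hy⟩
    have h4 : (starRingEnd ℂ) (f x) = f x := hrealF x y hy f
    have h5 := RingHom.congr_fun hq x
    apply f.injective
    show f (q x) = f x
    have h6 : f (q x) = (starRingEnd ℂ) (f x) := h5.symm
    rw [h6, h4]
  -- the normal core
  haveI : Finite (Gal(E/F₀) ⧸ U) := Subgroup.quotient_finite_of_isOpen U hUo
  haveI : U.FiniteIndex := Subgroup.finiteIndex_of_finite_quotient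
  let U' : Subgroup Gal(E/F₀) := U.normalCore
  have hU'o : IsOpen (U' : Set Gal(E/F₀)) :=
    Subgroup.isOpen_of_isClosed_of_finiteIndex _ (U.normalCore_isClosed hUcl)
  have hcU' : ∀ τ, j (c τ) ∈ U' := by
    intro τ g
    obtain ⟨q, hq⟩ : g * j (c τ) * g⁻¹ ∈ j.range := hjn.conj_mem _ ⟨_, rfl⟩ g
    have h1 : ComplexEmbedding.IsConj ((φ τ).comp (g⁻¹ : Gal(E/F₀)).toRingEquiv.toRingHom) q := by
      have h2 := hcφ τ
      rw [ComplexEmbedding.IsConj] at h2 ⊢
      ext x
      have h3 := RingHom.congr_fun h2 (g⁻¹ x)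
      have h4 : q x = g ((c τ) (g⁻¹ x)) := by
        have := congrArg (fun g : Gal(E/F₀) => g x) hq
        exact this
      show ComplexEmbedding.conjugate ((φ τ).comp (g⁻¹ : Gal(E/F₀)).toRingEquiv.toRingHom) x =
        (φ τ) (g⁻¹ (q x))
      rw [h4]
      have h5 : g⁻¹ (g ((c τ) (g⁻¹ x))) = (c τ) (g⁻¹ x) := by
        show (g⁻¹ * g) _ = _
        rw [inv_mul_cancel, AlgEquiv.one_apply]
      rw [h5]
      exact h3
    have := hcU _ _ h1
    rw [hq] at this
    exact this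
  let V : Subgroup Gal(E/L) := U'.comap j
  have hVo : IsOpen (V : Set Gal(E/L)) := hU'o.preimage hjc
  haveI hVn : V.Normal := Subgroup.Normal.comap inferInstance j
  have hVσ : V ⊔ Subgroup.zpowers σ = ⊤ := by
    refine hTG _ ?_ ?_ ?_
    · exact Subgroup.isOpen_mono (H₁ := V) le_sup_left hVo
    · intro τ
      exact Subgroup.mem_sup_left (hcU' τ)
    · exact Subgroup.mem_sup_right (Subgroup.mem_zpowers σ)
  obtain ⟨e, he⟩ := hpro V hVn hVo
  have hσe : σ ^ (2 ^ e) ∈ V := by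
    rw [← he]
    exact Subgroup.pow_index_mem V σ
  have hσU : (j σ) ^ (2 ^ e) ∈ U := by
    rw [← map_pow]
    exact U.normalCore_le hσe
  -- `A ≤ U`
  have hA9 : ∀ b ∈ A, b ^ 9 = 1 := by
    intro b hb
    have h1 : b ^ 9 ∈ j.range := by
      rw [← hcard9]
      exact Subgroup.pow_index_mem j.range b
    have h2 : b ^ 9 ∈ A ⊓ j.range := ⟨A.pow_mem hb 9, h1⟩
    rw [hA, Subgroup.mem_bot] at h2
    exact h2
  have hAU : ∀ b ∈ A, b ∈ U := by
    intro b hb
    obtain ⟨γ, hγ⟩ := hsur (rL b)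
    have h1 : rL (res γ) = rL b := by
      ext x
      apply (algebraMap L E).injective
      apply (algebraMap E K).injective
      rw [← hγ]
      have h2 := res_apply (F := F₀) (E := L) (K := E) (res γ) x
      show algebraMap E K (algebraMap L E ((AlgEquiv.restrictNormalHom L (res γ)) x)) = _
      rw [h2]
      exact resU_apply γ _
    have h3 : res γ * b⁻¹ ∈ j.range := by
      rw [hrange, MonoidHom.mem_ker, map_mul, map_inv, h1, mul_inv_cancel]
    obtain ⟨q, hq⟩ := h3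
    have h4 : q ∈ V ⊔ Subgroup.zpowers σ := by rw [hVσ]; exact Subgroup.mem_top q
    rw [Subgroup.mem_sup_of_normal_left] at h4
    obtain ⟨y, hy, z, hz, hyz⟩ := h4
    obtain ⟨i, rfl⟩ := Subgroup.mem_zpowers_iff.mp hz
    have h5 : (j σ) ^ i * b ∈ U := by
      have h6 : (j σ) ^ i * b = (j y)⁻¹ * res γ := by
        have : res γ = j q * b := by rw [hq]; group
        rw [this, ← hyz, map_mul, map_zpow]
        group
      rw [h6]
      exact U.mul_mem (U.inv_mem (U.normalCore_le hy)) ⟨γ, rfl⟩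
    exact mem_of_coprime U (j σ) b i e (hσA b hb).symm h5 hσU (hA9 b hb)
  have hρs' : ∀ g, res g ∈ j.range → ∃ a : k,
      (ρbar g : Matrix (Fin 3) (Fin 3) k) = a • (1 : Matrix (Fin 3) (Fin 3) k) := by
    intro g hg
    refine hρs g (fun x => ?_)
    rw [← resU_apply (F₀ := F₀) g]
    rw [mem_range_jR] at hg
    exact congrArg _ (hg x)
  -- lifts
  have hlf0 : ∀ b : Gal(E/F₀), ∃ g : Gal(K/F), b ∈ U → res g = b := by
    intro b
    by_cases hb : b ∈ U
    · obtain ⟨g, hg⟩ := hb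
      exact ⟨g, fun _ => hg⟩
    · exact ⟨1, fun h => absurd h hb⟩
  choose lf hlf using hlf0
  -- the assignment
  let π : Gal(E/F₀) → (L →+* ℂ) → (L →+* ℂ) := fun b τ =>
    τ.comp ((rL b)⁻¹ : Gal(L/F₀)).toRingEquiv.toRingHom
  have hπv : ∀ b τ, (π b τ).comp (algebraMap F₀ L) = τ.comp (algebraMap F₀ L) := by
    intro b τ
    ext x
    show τ ((rL b)⁻¹ (algebraMap F₀ L x)) = τ (algebraMap F₀ L x)
    rw [AlgEquiv.commutes]
  have hπa : ∀ b ∈ A, ∀ τ, a (π b τ) = b * a τ := by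
    intro b hb τ
    refine (hauniq (π b τ) (b * a τ) (A.mul_mem hb (haA τ)) ?_).symm
    intro x
    rw [hπv]
    have h1 : (b * a τ)⁻¹ (algebraMap L E x) = (a τ)⁻¹ (algebraMap L E ((rL b)⁻¹ x)) := by
      rw [_root_.mul_inv_rev]
      show (a τ)⁻¹ (b⁻¹ (algebraMap L E x)) = _
      congr 1
      have h4 := res_apply (F := F₀) (E := L) (K := E) b⁻¹ x
      rw [← h4]
      congr 1
      show (rL b⁻¹) x = _
      rw [map_inv]
    rw [h1]
    exact ha τ _
  have hπc : ∀ b ∈ A, ∀ τ, b * j (c τ) * b⁻¹ = j (c (π b τ)) := by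
    intro b hb τ
    rw [hc, hc, hπa b hb, hπv]
    group
  have hσc : ∀ b ∈ A, b * j σ * b⁻¹ = j σ := by
    intro b hb
    rw [hσA b hb, mul_inv_cancel_right]
  let R : Gal(E/F₀) → GL (Fin 3) (BB k d) := fun b => CM (ρbar (lf b))
  have hRmul : ∀ (g : Gal(K/F)) (b : Gal(E/F₀)), res g ∈ A → b ∈ A → ∀ (Y : GL (Fin 3) (BB k d)),
      R (res g * b) * Y * (R (res g * b))⁻¹ = CM (ρbar g) * (R b * Y * (R b)⁻¹) * (CM (ρbar g))⁻¹ := by
    intro g b hg hb Y
    obtain ⟨s, hs⟩ := hρs' (lf (res g * b) * (g * lf b)⁻¹) (by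
      rw [map_mul, map_inv, map_mul, hlf _ (hAU _ (A.mul_mem hg hb)), hlf _ (hAU _ hb), mul_inv_cancel]
      exact Subgroup.one_mem _)
    have := conj_scalar (ρbar (lf (res g * b))) (ρbar (g * lf b)) s (by
      rw [← map_inv, ← map_mul]; exact hs) Y
    show CM (ρbar (lf (res g * b))) * Y * (CM (ρbar (lf (res g * b))))⁻¹ = _
    rw [this]
    show _ = CM (ρbar g) * (CM (ρbar (lf b)) * Y * (CM (ρbar (lf b)))⁻¹) * (CM (ρbar g))⁻¹
    rw [map_mul, map_mul]
    group
  -- elements of A with prescribed projective image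
  have hscal_ne : ∀ (g : Gal(K/F)) (s : k),
      (ρbar g : Matrix (Fin 3) (Fin 3) k) = s • (1 : Matrix (Fin 3) (Fin 3) k) → s ≠ 0 := by
    rintro g s hs rfl
    rw [zero_smul] at hs
    have := (ρbar g).isUnit
    rw [hs] at this
    exact not_isUnit_zero this
  have hAel : ∀ h : Gal(K/F), ∃ b ∈ A, ∃ s : k, s ≠ 0 ∧
      (ρbar (lf b) : Matrix (Fin 3) (Fin 3) k) = s • (ρbar h : Matrix (Fin 3) (Fin 3) k) := by
    intro h
    obtain ⟨b, hb, q, hq, hbq⟩ := hA' (res h)
    obtain ⟨s, hs⟩ := hρs' (lf b * h⁻¹) (by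
      rw [map_mul, map_inv, hlf b (hAU b hb), hbq, _root_.mul_inv_rev, mul_inv_cancel_left]
      exact Subgroup.inv_mem _ hq)
    refine ⟨b, hb, s, hscal_ne _ _ hs, ?_⟩
    have : ρbar (lf b) = ρbar (lf b * h⁻¹) * ρbar h := by rw [← map_mul]; congr 1; group
    rw [this, Units.val_mul, hs, Matrix.smul_mul, one_mul]
  -- the scalar
  have huu : IsUnit u := by
    have h1 : MvPowerSeries.constantCoeff u = 1 := by
      rw [mem_max_BB, map_sub, map_one, sub_eq_zero] at hu1
      exact hu1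
    rw [MvPowerSeries.isUnit_iff_constantCoeff, h1]
    exact isUnit_one
  obtain ⟨u', rfl⟩ := huu
  let Ug : GL (Fin 3) (BB k d) := Units.map (Matrix.scalar (Fin 3)).toMonoidHom u'
  have hUg : (Ug : Matrix (Fin 3) (Fin 3) (BB k d)) = (u' : BB k d) • 1 := by
    show Matrix.scalar (Fin 3) (u' : BB k d) = _
    rw [Matrix.scalar_apply, ← Matrix.smul_one_eq_diagonal]
  have hUgc : ∀ M : GL (Fin 3) (BB k d), M * Ug * M⁻¹ = Ug := by
    intro M
    have : M * Ug = Ug * M := by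
      refine Units.ext ?_
      rw [Units.val_mul, Units.val_mul, hUg, Matrix.mul_smul, Matrix.smul_mul, mul_one, one_mul]
    rw [this, mul_inv_cancel_right]
  -- the assignment of involutions
  let t : (L →+* ℂ) → GL (Fin 3) (BB k d) := fun τ =>
    R (a τ) * XX (τ.comp (algebraMap F₀ L)) * (R (a τ))⁻¹
  have ht2 : ∀ τ, t τ * t τ = 1 := by
    intro τ
    calc R (a τ) * XX (τ.comp (algebraMap F₀ L)) * (R (a τ))⁻¹ *
          (R (a τ) * XX (τ.comp (algebraMap F₀ L)) * (R (a τ))⁻¹)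
        = R (a τ) * (XX (τ.comp (algebraMap F₀ L)) * XX (τ.comp (algebraMap F₀ L))) * (R (a τ))⁻¹ := by
          group
      _ = 1 := by rw [hX2, mul_one, mul_inv_cancel]
  have hmem1 : ∀ M : GL (Fin 3) (BB k d), M ∈ congr1 k 3 d 1 ↔ ∀ a b : Fin 3,
      ((M : Matrix (Fin 3) (Fin 3) (BB k d)) - 1) a b ∈ maximalIdeal (BB k d) := by
    intro M
    rw [mem_congr1, pow_one]
  have htred : ∀ τ, ∀ a b : Fin 3, ((t τ : Matrix (Fin 3) (Fin 3) (BB k d)) - 1) a b ∈
      maximalIdeal (BB k d) := by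
    intro τ
    have hn : (congr1 k 3 d 1).Normal := MonoidHom.normal_ker _
    exact (hmem1 _).mp (hn.conj_mem _ ((hmem1 _).mpr (hX1 _)) _)
  have hUred : ∀ a b : Fin 3, ((Ug : Matrix (Fin 3) (Fin 3) (BB k d)) - 1) a b ∈
      maximalIdeal (BB k d) := by
    intro a b
    rw [hUg]
    have : (((u' : BB k d) • (1 : Matrix (Fin 3) (Fin 3) (BB k d))) - 1) a b =
        ((u' : BB k d) - 1) * (1 : Matrix (Fin 3) (Fin 3) (BB k d)) a b := by
      rw [Matrix.sub_apply, Matrix.smul_apply, smul_eq_mul]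
      ring
    rw [this]
    exact Ideal.mul_mem_right _ _ hu1
  obtain ⟨ψ, hψ1, hψo, hψc, hψσ⟩ := hLim Gal(E/L) (L →+* ℂ) c σ hTG hAssign (BB k d) finite_res
    (by rw [two_BB]; exact Ideal.zero_mem _) 3 t Ug ht2 htred hUred
  have htπ : ∀ g : Gal(K/F), res g ∈ A → ∀ τ, t (π (res g) τ) =
      CM (ρbar g) * t τ * (CM (ρbar g))⁻¹ := by
    intro g hg τ
    show R (a (π (res g) τ)) * XX ((π (res g) τ).comp (algebraMap F₀ L)) * (R (a (π (res g) τ)))⁻¹ =
      CM (ρbar g) * (R (a τ) * XX (τ.comp (algebraMap F₀ L)) * (R (a τ))⁻¹) * (CM (ρbar g))⁻¹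
    rw [hπv, hπa _ hg, hRmul g (a τ) hg (haA τ)]
  obtain ⟨ρ, hρ1, hρ2, hρ3⟩ := extend_rep j hjinj hjo hjc hjn res hresc A
    (fun b hb => ⟨lf b, hlf b (hAU b hb)⟩) hA hA' c σ hTG π hπc hσc ρbar hρo hρs' t Ug
    (fun g => hUgc _) htπ ψ hψ1 hψo hψc hψσ
  refine ⟨ρ, hρ1, hρ2, ?_, ?_⟩
  · intro v
    set T := Submodule.span k (Set.range fun g : Gal(K/F) =>
          (ρ g : Matrix (Fin 3) (Fin 3) (BB k d)).trace) with hTdef
    have htr : ∀ g, (ρ g : Matrix (Fin 3) (Fin 3) (BB k d)).trace ∈ T := fun g =>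
      Submodule.subset_span ⟨g, rfl⟩
    -- choose τ with a τ = 1
    let τ₁ : L →+* ℂ := (Φ v).comp (algebraMap L E)
    have hτ₁v : τ₁.comp (algebraMap F₀ L) = v := by
      show ((Φ v).comp (algebraMap L E)).comp (algebraMap F₀ L) = v
      rw [RingHom.comp_assoc, ← IsScalarTower.algebraMap_eq, hΦ v]
    have haτ₁ : a τ₁ = 1 := by
      refine (hauniq τ₁ 1 A.one_mem ?_).symm
      intro x
      rw [hτ₁v, inv_one, AlgEquiv.one_apply]
      rfl
    let ct : Gal(K/F) := lf (j (c τ₁))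
    have hct : res ct = j (c τ₁) := hlf _ (U.normalCore_le (hcU' τ₁))
    obtain ⟨sc, hsc⟩ := hρs' ct (by rw [hct]; exact ⟨_, rfl⟩)
    have hsc0 : sc ≠ 0 := hscal_ne _ _ hsc
    -- values
    have hval0 : ∀ b ∈ A, ρ (lf b) = CM (ρbar (lf b)) := by
      intro b hb
      have := hρ3 (lf b) 1 b hb (by rw [hlf b (hAU b hb), map_one, one_mul])
      rw [this, map_one, one_mul]
    have hval : ∀ b ∈ A, ((ρ (lf b * ct) : GL (Fin 3) (BB k d)) : Matrix (Fin 3) (Fin 3) (BB k d)) =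
        (MvPowerSeries.C sc : BB k d) • ((ρbar (lf b) : Matrix (Fin 3) (Fin 3) k).map
          (MvPowerSeries.C (σ := Fin d) (R := k)) * (XX v : Matrix (Fin 3) (Fin 3) (BB k d))) := by
      intro b hb
      have h1 : res (lf b * ct) = j (c (π b τ₁)) * b := by
        rw [map_mul, hlf b (hAU b hb), ← hπc b hb, hct]
        group
      have h2 := hρ3 _ _ b hb h1
      have h3 : ψ (c (π b τ₁)) = R b * XX v * (R b)⁻¹ := by
        rw [hψc]
        show R (a (π b τ₁)) * XX ((π b τ₁).comp (algebraMap F₀ L)) * (R (a (π b τ₁)))⁻¹ = _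
        rw [hπv, hτ₁v, hπa b hb, haτ₁, mul_one]
      rw [h2, h3, map_mul, map_mul]
      have h4 : R b * XX v * (R b)⁻¹ * (CM (ρbar (lf b)) * CM (ρbar ct)) =
          CM (ρbar (lf b)) * XX v * CM (ρbar ct) := by
        show CM (ρbar (lf b)) * XX v * (CM (ρbar (lf b)))⁻¹ * (CM (ρbar (lf b)) * CM (ρbar ct)) = _
        group
      rw [h4, Units.val_mul, Units.val_mul, CM_coe, CM_coe, hsc]
      have h5 : ((sc • (1 : Matrix (Fin 3) (Fin 3) k)).map (MvPowerSeries.C (σ := Fin d) (R := k)) :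
          Matrix (Fin 3) (Fin 3) (BB k d)) = (MvPowerSeries.C sc : BB k d) • 1 := by
        ext1 i j
        by_cases hij : i = j
        · subst hij; simp
        · simp [Matrix.one_apply_ne hij]
      rw [h5, Matrix.mul_smul, mul_one]
    -- the linear functional
    let N : Matrix (Fin 3) (Fin 3) (BB k d) := (XX v : Matrix (Fin 3) (Fin 3) (BB k d)) - 1
    let Λ : Matrix (Fin 3) (Fin 3) k →ₗ[k] BB k d :=
      { toFun := fun M => (M.map (MvPowerSeries.C (σ := Fin d) (R := k)) * N).trace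
        map_add' := fun M M' => by
          rw [Matrix.map_add _ (fun a b => map_add _ a b), add_mul, Matrix.trace_add]
        map_smul' := fun s M => by
          have : (s • M).map (MvPowerSeries.C (σ := Fin d) (R := k)) =
              (MvPowerSeries.C s : BB k d) • M.map (MvPowerSeries.C (σ := Fin d) (R := k)) := by
            ext1 i j
            simp
          rw [this, Matrix.smul_mul, Matrix.trace_smul, RingHom.id_apply, smul_eq_mul,
            MvPowerSeries.smul_eq_C_mul] }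
    have hΛ : ∀ g : Gal(K/F), Λ (ρbar g : Matrix (Fin 3) (Fin 3) k) ∈ T := by
      intro g
      obtain ⟨b, hb, s, hs, hbs⟩ := hAel g
      have h1 : sc • Λ (ρbar (lf b) : Matrix (Fin 3) (Fin 3) k) ∈ T := by
        have h2 : sc • Λ (ρbar (lf b) : Matrix (Fin 3) (Fin 3) k) =
            (ρ (lf b * ct) : Matrix (Fin 3) (Fin 3) (BB k d)).trace -
              sc • (ρ (lf b) : Matrix (Fin 3) (Fin 3) (BB k d)).trace := by
          rw [hval b hb, hval0 b hb, CM_coe, Matrix.trace_smul, smul_eq_mul,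
            MvPowerSeries.smul_eq_C_mul, MvPowerSeries.smul_eq_C_mul, ← mul_sub, ← Matrix.trace_sub]
          congr 1
          show ((ρbar (lf b) : Matrix (Fin 3) (Fin 3) k).map
            (MvPowerSeries.C (σ := Fin d) (R := k)) *
              ((XX v : Matrix (Fin 3) (Fin 3) (BB k d)) - 1)).trace = _
          rw [mul_sub, mul_one]
        rw [h2]
        exact T.sub_mem (htr _) (T.smul_mem _ (htr _))
      rw [hbs, map_smul] at h1
      have h3 := T.smul_mem s⁻¹ (T.smul_mem sc⁻¹ h1)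
      rwa [smul_smul sc⁻¹, inv_mul_cancel₀ hsc0, one_smul, smul_smul, inv_mul_cancel₀ hs,
        one_smul] at h3
    have hall : ∀ M : Matrix (Fin 3) (Fin 3) k, Λ M ∈ T := by
      intro M
      have hM : M ∈ Submodule.span k (Set.range fun g => (ρbar g : Matrix (Fin 3) (Fin 3) k)) := by
        rw [hspan]; exact Submodule.mem_top
      induction hM using Submodule.span_induction with
      | mem x hx => obtain ⟨g, rfl⟩ := hx; exact hΛ g
      | zero => rw [map_zero]; exact T.zero_mem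
      | add x y _ _ hx hy => rw [map_add]; exact T.add_mem hx hy
      | smul s x _ hx => rw [map_smul]; exact T.smul_mem s hx
    intro i i'
    have h1 := hall (Matrix.single i' i 1)
    have h2 : Λ (Matrix.single i' i 1) = N i i' := by
      show ((Matrix.single i' i (1 : k)).map (MvPowerSeries.C (σ := Fin d) (R := k)) * N).trace = _
      have h3 : (Matrix.single i' i (1 : k)).map (MvPowerSeries.C (σ := Fin d) (R := k)) =
          Matrix.single i' i (1 : BB k d) := by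
        ext1 x y
        rw [Matrix.map_apply, Matrix.single_apply, Matrix.single_apply]
        split_ifs <;> simp
      rw [h3, Matrix.trace_single_mul]
      simp
    rw [h2] at h1
    exact h1
  · refine ⟨e, ?_⟩
    set T := Submodule.span k (Set.range fun g : Gal(K/F) =>
          (ρ g : Matrix (Fin 3) (Fin 3) (BB k d)).trace) with hTdef
    have htr : ∀ g, (ρ g : Matrix (Fin 3) (Fin 3) (BB k d)).trace ∈ T := fun g =>
      Submodule.subset_span ⟨g, rfl⟩
    let gs : Gal(K/F) := lf (j (σ ^ (2 ^ e)))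
    have hgs : res gs = j (σ ^ (2 ^ e)) := hlf _ (by rw [map_pow]; exact hσU)
    obtain ⟨s, hs⟩ := hρs' gs (by rw [hgs]; exact ⟨_, rfl⟩)
    have hs0 := hscal_ne _ _ hs
    have h1 := hρ3 gs (σ ^ (2 ^ e)) 1 A.one_mem (by rw [hgs, mul_one])
    have h3k : (3 : BB k d) = 1 := by
      have : (3 : BB k d) = 2 + 1 := by norm_num
      rw [this, two_BB, zero_add]
    have h2 : (ρ gs : Matrix (Fin 3) (Fin 3) (BB k d)).trace = s • ((u' : BB k d) ^ (2 ^ e)) := by
      rw [h1, map_pow, hψσ, Units.val_mul, Units.val_pow_eq_pow_val, hUg, CM_coe, hs]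
      have h5 : ((s • (1 : Matrix (Fin 3) (Fin 3) k)).map (MvPowerSeries.C (σ := Fin d) (R := k)) :
          Matrix (Fin 3) (Fin 3) (BB k d)) = (MvPowerSeries.C s : BB k d) • 1 := by
        ext1 i j
        by_cases hij : i = j
        · subst hij; simp
        · simp [Matrix.one_apply_ne hij]
      rw [h5, smul_pow, one_pow, Matrix.mul_smul, mul_one, Matrix.trace_smul, Matrix.trace_smul,
        Matrix.trace_one, MvPowerSeries.smul_eq_C_mul]
      simp [h3k]
    have h4 : (ρ 1 : Matrix (Fin 3) (Fin 3) (BB k d)).trace = 1 := by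
      rw [map_one, Units.val_one, Matrix.trace_one]
      simp [h3k]
    have h6 := T.smul_mem s⁻¹ (htr gs)
    rw [h2, smul_smul, inv_mul_cancel₀ hs0, one_smul] at h6
    have h7 := htr 1
    rw [h4] at h7
    exact T.sub_mem h6 h7

end Pool.Agent.H429.MZU
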