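import Pool.Agent.H429.MZU.Stmts
import Pool.Graph.R_seed8.W21.MZ.ExA
import Pool.Graph.R_seed8.W505.MZ.ExC

/-!
# MP_aa8fd2_nt : DIM (helper181 for helper429), after `Pool.Agent.W313.MZDim`
-/

set_option autoImplicit false
set_option linter.all false
set_option maxHeartbeats 1000000

open MvPowerSeries IsLocalRing

namespace Pool.Agent.H429.MZU

namespace QDim

section ring

variable (k : Type) [Field k] (d : ℕ)

theorem kcomplete : IsAdicComplete (maximalIdeal k) k := by
  rw [IsLocalRing.maximalIdeal_eq_bot]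
  infer_instance

theorem bcomplete : IsAdicComplete (maximalIdeal (BB k d)) (BB k d) := by
  haveI := kcomplete k
  exact (Pool.Agent.W21.MZ.exA k (Fin d)).1

/-- the power series ring as a coefficient ring -/
noncomputable def B0 (p : ℕ) [Fact p.Prime] [CharP k p] : MZ.CNL p k where
  A := BB k d
  complete := bcomplete k d
  alg := ((MvPowerSeries.C (σ := Fin d) (R := k)).comp WittVector.constantCoeff).toAlgebra
  res := MvPowerSeries.constantCoeff
  res_surj := fun a => ⟨MvPowerSeries.C a, MvPowerSeries.constantCoeff_C a⟩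
  res_coeff := fun x => MvPowerSeries.constantCoeff_C _

/-- the substitution `X_i = 0` -/
theorem subs (i : Fin d) : ∃ f : BB k d →+* BB k d, f (MvPowerSeries.X i) = 0 ∧
    ∀ j, j ≠ i → f (MvPowerSeries.X j) = MvPowerSeries.X j := by
  classical
  haveI := kcomplete k
  haveI := bcomplete k d
  obtain ⟨f, h1, -⟩ := Pool.Agent.W505.MZ.ExC.main k (BB k d) (fun x hx => by
      rw [IsLocalRing.maximalIdeal_eq_bot, Ideal.mem_bot] at hx
      rw [hx, map_zero]
      exact Ideal.zero_mem _) (Fin d)
    (fun j => if j = i then 0 else MvPowerSeries.X j) (fun j => by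
      show (if j = i then (0 : BB k d) else MvPowerSeries.X j) ∈ _
      split_ifs
      · exact Ideal.zero_mem _
      · rw [mem_maximalIdeal, mem_nonunits_iff, MvPowerSeries.isUnit_iff_constantCoeff,
          MvPowerSeries.constantCoeff_X]
        exact not_isUnit_zero)
  refine ⟨(f : BB k d →+* BB k d), ?_, fun j hj => ?_⟩
  · have := h1 i
    rw [if_pos rfl] at this
    exact this
  · have := h1 j
    rw [if_neg hj] at this
    exact this

open Classical in
/-- the composition of the first `n` substitutions -/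
noncomputable def hh : ℕ → (BB k d →+* BB k d)
  | 0 => RingHom.id _
  | (n + 1) => if h : n < d then (subs k d ⟨n, h⟩).choose.comp (hh n) else hh n

theorem hh_succ (n : ℕ) (h : n < d) : hh k d (n + 1) = (subs k d ⟨n, h⟩).choose.comp (hh k d n) := by
  rw [hh, dif_pos h]

theorem hh_ge (n : ℕ) : ∀ j : Fin d, n ≤ j → hh k d n (MvPowerSeries.X j) = MvPowerSeries.X j := by
  induction n with
  | zero =>
    intro j _
    rfl
  | succ n ih =>
    intro j hj
    have hn : n < d := by
      have := j.2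
      omega
    rw [hh_succ k d n hn, RingHom.comp_apply, ih j (by omega)]
    refine (subs k d ⟨n, hn⟩).choose_spec.2 j ?_
    intro h
    rw [h] at hj
    simp at hj

theorem hh_kill (i : Fin d) : hh k d (i + 1) (MvPowerSeries.X i) = 0 := by
  rw [hh_succ k d i i.2, RingHom.comp_apply, hh_ge k d i i le_rfl]
  exact (subs k d i).choose_spec.1

theorem ker_mono (n : ℕ) (x : BB k d) (h : hh k d n x = 0) : hh k d (n + 1) x = 0 := by
  by_cases hn : n < d
  · rw [hh_succ k d n hn, RingHom.comp_apply, h, map_zero]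
  · rw [hh, dif_neg hn]
    exact h

end ring

end QDim

open QDim

/-- **DIM** -/
theorem dim : S_Dim := by
  intro p _ k _ _ _ G _ _ _ n d ρbar ρ h1 h2 hspan R ρu hR
  have hlift : MZ.IsLift ρbar (B0 k d p) ρ := ⟨h1, h2⟩
  obtain ⟨f, ⟨-, M, -, hM⟩, -⟩ := hR.2 (B0 k d p) ρ hlift
  let ρ' : G →* GL (Fin n) (B0 k d p).A := ρ
  have htr : ∀ g, ((ρ g : Matrix (Fin n) (Fin n) (BB k d))).trace =
      f ((ρu g : Matrix (Fin n) (Fin n) R.A).trace) := by
    intro g
    have h5 : ρ' g = _ := hM g
    have h6 : (ρ' g : Matrix (Fin n) (Fin n) (B0 k d p).A) =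
        (M : Matrix (Fin n) (Fin n) (B0 k d p).A) *
        ((ρu g : Matrix (Fin n) (Fin n) R.A).map f) *
        ((M⁻¹ : GL (Fin n) (B0 k d p).A) : Matrix (Fin n) (Fin n) (B0 k d p).A) := by
      rw [h5]
      rfl
    have h7 : ((ρ' g : Matrix (Fin n) (Fin n) (B0 k d p).A)).trace =
        ((ρu g : Matrix (Fin n) (Fin n) R.A).map f).trace := by
      rw [h6, Matrix.trace_mul_comm, ← mul_assoc]
      have h8 : ((M⁻¹ : GL (Fin n) (B0 k d p).A) : Matrix (Fin n) (Fin n) (B0 k d p).A) *
          (M : Matrix (Fin n) (Fin n) (B0 k d p).A) = 1 := by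
        rw [← Units.val_mul, inv_mul_cancel, Units.val_one]
      rw [h8, one_mul]
    have h9 : ((ρu g : Matrix (Fin n) (Fin n) R.A).map f).trace =
        f ((ρu g : Matrix (Fin n) (Fin n) R.A).trace) := by
      rw [Matrix.trace, Matrix.trace, map_sum]
      rfl
    exact h7.trans h9
  have hfw : ∀ w : WittVector p k, f (algebraMap (WittVector p k) R.A w) =
      (MvPowerSeries.C (w.coeff 0) : BB k d) := fun w => f.commutes w
  obtain ⟨F, hF⟩ : ∃ F : R.A →+* BB k d, ∀ a, F a = f a := ⟨(f : R.A →+* (B0 k d p).A), fun _ => rfl⟩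
  have hFtr : ∀ g, F ((ρu g : Matrix (Fin n) (Fin n) R.A).trace) =
      (ρ g : Matrix (Fin n) (Fin n) (BB k d)).trace := fun g => by
    rw [hF]
    exact (htr g).symm
  have hFbr : ∀ a : k, F (algebraMap (WittVector p k) R.A (WittVector.teichmuller p a)) =
      MvPowerSeries.C a := by
    intro a
    rw [hF, hfw, WittVector.teichmuller_coeff_zero]
  -- the elements of the span are values of `F`
  have hval : ∀ y ∈ Submodule.span k (Set.range fun g : G =>
      (ρ g : Matrix (Fin n) (Fin n) (BB k d)).trace), ∃ a : R.A, F a = y := by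
    intro y hy
    induction hy using Submodule.span_induction with
    | mem x hx =>
      obtain ⟨g, rfl⟩ := hx
      exact ⟨_, hFtr g⟩
    | zero => exact ⟨0, map_zero _⟩
    | add x y _ _ hx hy =>
      obtain ⟨a, rfl⟩ := hx
      obtain ⟨b, rfl⟩ := hy
      exact ⟨a + b, map_add _ _ _⟩
    | smul c x _ hx =>
      obtain ⟨a, rfl⟩ := hx
      refine ⟨algebraMap (WittVector p k) R.A (WittVector.teichmuller p c) * a, ?_⟩
      rw [map_mul, hFbr, MvPowerSeries.smul_eq_C_mul]
  have hFp : F (p : R.A) = 0 := by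
    rw [map_natCast]
    have h1 : ((p : ℕ) : BB k d) = MvPowerSeries.C ((p : ℕ) : k) :=
      (map_natCast (MvPowerSeries.C (σ := Fin d) (R := k)) p).symm
    rw [h1, CharP.cast_eq_zero, map_zero]
  -- the primes
  let I : Ideal R.A := Ideal.span {(p : R.A)}
  have hI : ∀ j : ℕ, ∀ a ∈ I, ((hh k d j).comp F) a = 0 := by
    intro j a ha
    obtain ⟨c, rfl⟩ := Ideal.mem_span_singleton.1 ha
    rw [map_mul, RingHom.comp_apply, hFp, map_zero, zero_mul]
  let Q : ℕ → Ideal (R.A ⧸ I) := fun j =>
    RingHom.ker (Ideal.Quotient.lift I ((hh k d j).comp F) (hI j))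
  have hmemQ : ∀ j (a : R.A), Ideal.Quotient.mk I a ∈ Q j ↔ hh k d j (F a) = 0 := by
    intro j a
    show Ideal.Quotient.lift I ((hh k d j).comp F) (hI j) (Ideal.Quotient.mk I a) = 0 ↔ _
    rw [Ideal.Quotient.lift_mk]
    rfl
  haveI : IsDomain (BB k d) := NoZeroDivisors.to_isDomain _
  have hprime : ∀ j, (Q j).IsPrime := fun j => RingHom.ker_isPrime _
  have hle : ∀ j, Q j ≤ Q (j + 1) := by
    intro j x hx
    obtain ⟨a, rfl⟩ := Ideal.Quotient.mk_surjective x
    rw [hmemQ] at hx ⊢
    exact ker_mono k d j _ hx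
  have hlt : ∀ j : Fin d, Q j < Q (j + 1) := by
    intro j
    refine lt_of_le_of_ne (hle j) fun heq => ?_
    obtain ⟨m, hm, w, hw, hmem⟩ := hspan j
    obtain ⟨a, ha⟩ := hval _ hmem
    have h3 : Ideal.Quotient.mk I a ∈ Q (j + 1) := by
      rw [hmemQ, ha, map_mul, map_pow, hh_kill, zero_pow hm, zero_mul]
    rw [← heq, hmemQ, ha, map_mul, map_pow, hh_ge k d j j le_rfl] at h3
    have hX : ∀ i : Fin d, (MvPowerSeries.X i : BB k d) ≠ 0 := by
      intro i h
      have h4 := congrArg (MvPowerSeries.coeff (Finsupp.single i 1)) h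
      rw [MvPowerSeries.coeff_index_single_self_X, map_zero] at h4
      exact one_ne_zero h4
    rcases mul_eq_zero.1 h3 with h4 | h4
    · exact hX j (pow_eq_zero_iff hm |>.1 h4)
    · rcases hw with rfl | ⟨i, hi, rfl⟩
      · rw [map_one] at h4
        exact one_ne_zero h4
      · rw [hh_ge k d j i (by exact_mod_cast hi.le)] at h4
        exact hX i h4
  let s : Fin (d + 1) → PrimeSpectrum (R.A ⧸ I) := fun j => ⟨Q j, hprime j⟩
  have hs : StrictMono s := by
    rw [Fin.strictMono_iff_lt_succ]
    intro j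
    show Q _ < Q _
    have := hlt j
    simpa using this
  have hl := Order.LTSeries.length_le_krullDim (LTSeries.mk d s hs)
  exact hl

end Pool.Agent.H429.MZU
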