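import Pool.Agent.H429.MZU.Stmts

/-!
# MP_aa8fd2_nt : assembly, group-theoretic part, coefficients `k⟦X_0, …, X_{d-1}⟧` (helper429)

Generalises `Pool.Graph.R_seed8.W566.MZ.Asm1` (coefficients `k⟦X⟧`).
-/

set_option autoImplicit false

namespace Pool.Agent.H429.MZU

open Matrix MZ IsLocalRing

section

variable {k : Type} [Field k] {n d : ℕ}

/-- constant matrices -/
noncomputable def CM : GL (Fin n) k →* GL (Fin n) (BB k d) :=
  Matrix.GeneralLinearGroup.map (MvPowerSeries.C (σ := Fin d) (R := k))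

lemma map_CM (M : GL (Fin n) k) :
    Matrix.GeneralLinearGroup.map (MvPowerSeries.constantCoeff (σ := Fin d) (R := k)) (CM M) = M := by
  ext a b
  simp [CM]

lemma CM_coe (M : GL (Fin n) k) :
    ((CM M : GL (Fin n) (BB k d)) : Matrix (Fin n) (Fin n) (BB k d)) =
      (M : Matrix (Fin n) (Fin n) k).map (MvPowerSeries.C (σ := Fin d) (R := k)) := rfl

/-- the subgroup of matrices congruent to 1 mod `m^j` -/
noncomputable def congr1 (k : Type) [Field k] (n d m : ℕ) : Subgroup (GL (Fin n) (BB k d)) :=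
  (Matrix.GeneralLinearGroup.map (Ideal.Quotient.mk (maximalIdeal (BB k d) ^ m))).ker

lemma mem_congr1 (m : ℕ) (M : GL (Fin n) (BB k d)) :
    M ∈ congr1 k n d m ↔ ∀ a b : Fin n,
      ((M : Matrix (Fin n) (Fin n) (BB k d)) - 1) a b ∈ maximalIdeal (BB k d) ^ m := by
  unfold congr1
  rw [MonoidHom.mem_ker, Matrix.GeneralLinearGroup.ext_iff]
  refine forall_congr' fun a => forall_congr' fun b => ?_
  rw [Matrix.GeneralLinearGroup.map_apply, ← Ideal.Quotient.eq_zero_iff_mem,
    Matrix.sub_apply, map_sub, sub_eq_zero]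
  have : (Ideal.Quotient.mk (maximalIdeal (BB k d) ^ m))
      ((1 : Matrix (Fin n) (Fin n) (BB k d)) a b) =
      ((1 : GL (Fin n) (BB k d ⧸ (maximalIdeal (BB k d) ^ m))) : Matrix _ _ _) a b := by
    by_cases h : a = b
    · subst h; simp
    · simp [Matrix.one_apply_ne h]
  rw [this]

lemma eq_one_of_congr (M : GL (Fin n) (BB k d)) (h : ∀ m, M ∈ congr1 k n d m) : M = 1 := by
  ext a b
  have h2 : ((M : Matrix (Fin n) (Fin n) (BB k d)) - 1) a b = 0 := by
    have h3 : ((M : Matrix (Fin n) (Fin n) (BB k d)) - 1) a b ∈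
        (⨅ i : ℕ, maximalIdeal (BB k d) ^ i) := by
      rw [Ideal.mem_iInf]
      exact fun m => (mem_congr1 m M).mp (h m) a b
    rw [Ideal.iInf_pow_eq_bot_of_isLocalRing _ (Ideal.IsPrime.ne_top inferInstance)] at h3
    exact h3
  rw [Matrix.sub_apply, sub_eq_zero] at h2
  rw [h2]
  rfl

end

section

variable {P : Type} [Group P] [TopologicalSpace P] [IsTopologicalGroup P] {ι : Type}
variable {k : Type} [Field k] {n d : ℕ}

/-- two continuous homs to `GL_n(k⟦X⟧)` agreeing on topological generators agree -/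
lemma hom_ext_gen (c : ι → P) (σ : P) (hgen : TopGen c σ)
    (f g : P →* GL (Fin n) (BB k d))
    (hf : ∀ m : ℕ, IsOpen {q : P | ∀ a b : Fin n,
          ((f q : Matrix (Fin n) (Fin n) (BB k d)) - 1) a b ∈ maximalIdeal (BB k d) ^ m})
    (hg : ∀ m : ℕ, IsOpen {q : P | ∀ a b : Fin n,
          ((g q : Matrix (Fin n) (Fin n) (BB k d)) - 1) a b ∈ maximalIdeal (BB k d) ^ m})
    (hc : ∀ i, f (c i) = g (c i)) (hσ : f σ = g σ) : f = g := by
  have key : ∀ m : ℕ, ∀ q : P, (f q)⁻¹ * g q ∈ congr1 k n d m := by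
    intro m
    let Q := Matrix.GeneralLinearGroup.map (n := Fin n)
      (Ideal.Quotient.mk (maximalIdeal (BB k d) ^ m))
    let N : Subgroup P := MonoidHom.eqLocus (Q.comp f) (Q.comp g)
    have hN : IsOpen (N : Set P) := by
      have h1 : IsOpen (((Q.comp f).ker ⊓ (Q.comp g).ker : Subgroup P) : Set P) := by
        rw [Subgroup.coe_inf]
        refine IsOpen.inter ?_ ?_
        · convert hf m using 1
          ext q
          exact mem_congr1 m (f q)
        · convert hg m using 1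
          ext q
          exact mem_congr1 m (g q)
      refine Subgroup.isOpen_mono (H₁ := (Q.comp f).ker ⊓ (Q.comp g).ker) ?_ h1
      intro q hq
      obtain ⟨h3, h4⟩ := Subgroup.mem_inf.mp hq
      show (Q.comp f) q = (Q.comp g) q
      rw [MonoidHom.mem_ker.mp h3, MonoidHom.mem_ker.mp h4]
    have hT : N = ⊤ := hgen N hN (fun i => by
      show Q (f (c i)) = Q (g (c i))
      rw [hc i]) (by
      show Q (f σ) = Q (g σ)
      rw [hσ])
    intro q
    have hq : q ∈ N := by rw [hT]; exact Subgroup.mem_top q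
    have hq' : Q (f q) = Q (g q) := hq
    show (f q)⁻¹ * g q ∈ Q.ker
    rw [MonoidHom.mem_ker, map_mul, map_inv, hq', inv_mul_cancel]
  ext1 q
  have := eq_one_of_congr ((f q)⁻¹ * g q) (fun m => key m q)
  exact (inv_mul_eq_one.mp this)

end

/-- conjugation by scalar-equivalent matrices agree -/
lemma conj_scalar {k : Type} [Field k] {n d : ℕ} (M N : GL (Fin n) k) (a : k)
    (h : ((M * N⁻¹ : GL (Fin n) k) : Matrix (Fin n) (Fin n) k) = a • (1 : Matrix (Fin n) (Fin n) k))
    (Y : GL (Fin n) (BB k d)) :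
    CM M * Y * (CM M)⁻¹ = CM N * Y * (CM N)⁻¹ := by
  have h1 : ((CM (M * N⁻¹) : GL (Fin n) (BB k d)) : Matrix (Fin n) (Fin n) (BB k d))
      = (MvPowerSeries.C (σ := Fin d) a) • (1 : Matrix (Fin n) (Fin n) (BB k d)) := by
    rw [CM_coe, h]
    ext1 i j
    by_cases hij : i = j
    · subst hij; simp
    · simp [Matrix.one_apply_ne hij]
  have hc : CM (M * N⁻¹) * (CM N * Y * (CM N)⁻¹) = (CM N * Y * (CM N)⁻¹) * CM (M * N⁻¹) := by
    refine Units.ext ?_
    rw [Units.val_mul (CM (M * N⁻¹)), Units.val_mul (CM N * Y * (CM N)⁻¹), h1, Matrix.smul_mul,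
      Matrix.mul_smul, Matrix.one_mul, Matrix.mul_one]
  have h2 : (CM M : GL (Fin n) (BB k d)) = CM (M * N⁻¹) * CM N := by rw [← map_mul]; congr 1; group
  calc CM M * Y * (CM M)⁻¹ = CM (M * N⁻¹) * (CM N * Y * (CM N)⁻¹) * (CM (M * N⁻¹))⁻¹ := by
        rw [h2]; group
    _ = CM N * Y * (CM N)⁻¹ := by rw [hc]; group

/-- The extension of `ψ` to the big group. -/
theorem extend_rep {P G 𝒢 : Type} [Group P] [TopologicalSpace P] [IsTopologicalGroup P]
    [Group G] [TopologicalSpace G] [IsTopologicalGroup G]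
    [Group 𝒢] [TopologicalSpace 𝒢] [IsTopologicalGroup 𝒢]
    (j : P →* G) (hj : Function.Injective j) (hjo : IsOpenMap j) (hjc : Continuous j)
    (hjn : j.range.Normal)
    (res : 𝒢 →* G) (hres : Continuous res)
    (A : Subgroup G) (hsurj : ∀ a ∈ A, ∃ g, res g = a)
    (hA : A ⊓ j.range = ⊥) (hA' : ∀ g : G, ∃ a ∈ A, ∃ q ∈ j.range, g = q * a)
    {ι : Type} (c : ι → P) (σ : P) (hgen : TopGen c σ) (π : G → ι → ι)
    (hπ : ∀ b ∈ A, ∀ i, b * j (c i) * b⁻¹ = j (c (π b i))) (hσ : ∀ b ∈ A, b * j σ * b⁻¹ = j σ)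
    {k : Type} [Field k] {n d : ℕ} (ρbar : 𝒢 →* GL (Fin n) k) (hρo : IsOpen (ρbar.ker : Set 𝒢))
    (hρs : ∀ g, res g ∈ j.range → ∃ a : k,
      (ρbar g : Matrix (Fin n) (Fin n) k) = a • (1 : Matrix (Fin n) (Fin n) k))
    (t : ι → GL (Fin n) (BB k d)) (u : GL (Fin n) (BB k d))
    (hu : ∀ g : 𝒢, CM (ρbar g) * u * (CM (ρbar g))⁻¹ = u)
    (ht : ∀ g : 𝒢, res g ∈ A → ∀ i, t (π (res g) i) = CM (ρbar g) * t i * (CM (ρbar g))⁻¹)
    (ψ : P →* GL (Fin n) (BB k d))
    (hψ1 : ∀ g a b, ((ψ g : Matrix (Fin n) (Fin n) (BB k d)) - 1) a b ∈ maximalIdeal (BB k d))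
    (hψo : ∀ m : ℕ, IsOpen {g : P | ∀ a b : Fin n,
          ((ψ g : Matrix (Fin n) (Fin n) (BB k d)) - 1) a b ∈ maximalIdeal (BB k d) ^ m})
    (hψc : ∀ i, ψ (c i) = t i) (hψσ : ψ σ = u) :
    ∃ ρ : 𝒢 →* GL (Fin n) (BB k d),
      (∀ g, Matrix.GeneralLinearGroup.map (MvPowerSeries.constantCoeff (σ := Fin d) (R := k)) (ρ g) =
        ρbar g) ∧
      (∀ m : ℕ, IsOpen {g : 𝒢 | ∀ a b : Fin n,
          ((ρ g : Matrix (Fin n) (Fin n) (BB k d)) - 1) a b ∈ maximalIdeal (BB k d) ^ m}) ∧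
      (∀ g : 𝒢, ∀ q : P, ∀ a ∈ A, res g = j q * a → ρ g = ψ q * CM (ρbar g)) := by
  classical
  -- equivariance
  have hconjmem : ∀ (b : G) (q : P), b * j q * b⁻¹ ∈ j.range := fun b q =>
    hjn.conj_mem _ ⟨q, rfl⟩ b
  have hequiv : ∀ (g : 𝒢), res g ∈ A → ∀ q q' : P, j q' = res g * j q * (res g)⁻¹ →
      ψ q' = CM (ρbar g) * ψ q * (CM (ρbar g))⁻¹ := by
    intro g hg
    -- the conjugation automorphism of P
    let b := res g
    let cb : P → P := fun q => (hconjmem b q).choose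
    have hcb : ∀ q, j (cb q) = b * j q * b⁻¹ := fun q => (hconjmem b q).choose_spec
    let cbH : P →* P := MonoidHom.mk' cb (fun x y => by
      apply hj
      rw [map_mul, hcb, hcb, hcb, map_mul]
      group)
    have hcbc : Continuous cbH := by
      have hemb : Topology.IsOpenEmbedding j := Topology.IsOpenEmbedding.of_continuous_injective_isOpenMap hjc hj hjo
      rw [hemb.isInducing.continuous_iff]
      have : (j ∘ cbH) = fun q => b * j q * b⁻¹ := by
        funext q
        exact hcb q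
      rw [this]
      fun_prop
    have h1 : ψ.comp cbH = (MulAut.conj (CM (ρbar g))).toMonoidHom.comp ψ := by
      refine hom_ext_gen c σ hgen _ _ ?_ ?_ ?_ ?_
      · intro m
        have := (hψo m).preimage hcbc
        exact this
      · intro m
        convert hψo m using 1
        ext q
        have e1 := mem_congr1 m (ψ q)
        have e2 := mem_congr1 m (((MulAut.conj (CM (ρbar g))).toMonoidHom.comp ψ) q)
        rw [Set.mem_ofPred_eq, Set.mem_ofPred_eq, ← e1, ← e2]
        have hn : (congr1 k n d m).Normal := MonoidHom.normal_ker _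
        constructor
        · intro h
          have := hn.conj_mem _ h (CM (ρbar g))⁻¹
          simpa [MulAut.conj_apply, mul_assoc] using this
        · intro h
          have := hn.conj_mem _ h (CM (ρbar g))
          simpa [MulAut.conj_apply, mul_assoc] using this
      · intro i
        have : cb (c i) = c (π b i) := by
          apply hj
          rw [hcb, hπ b hg i]
        show ψ (cb (c i)) = CM (ρbar g) * ψ (c i) * (CM (ρbar g))⁻¹
        rw [this, hψc, hψc, ht g hg i]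
      · have : cb σ = σ := by
          apply hj
          rw [hcb, hσ b hg]
        show ψ (cb σ) = CM (ρbar g) * ψ σ * (CM (ρbar g))⁻¹
        rw [this, hψσ, hu]
    intro q q' hq
    have : q' = cb q := hj (by rw [hq, hcb])
    rw [this]
    exact DFunLike.congr_fun h1 q
  -- decomposition
  have hdec : ∀ g : 𝒢, ∃ q : P, ∃ a ∈ A, res g = j q * a := by
    intro g
    obtain ⟨a, ha, x, ⟨q, rfl⟩, h⟩ := hA' (res g)
    exact ⟨q, a, ha, h⟩
  choose Q α hα hQ using hdec
  have huniq : ∀ (q q' : P) (a a' : G), a ∈ A → a' ∈ A → j q * a = j q' * a' → q = q' ∧ a = a' := by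
    intro q q' a a' ha ha' h
    have h1 : a * a'⁻¹ ∈ A ⊓ j.range := by
      refine ⟨A.mul_mem ha (A.inv_mem ha'), q⁻¹ * q', ?_⟩
      rw [map_mul, map_inv, inv_mul_eq_iff_eq_mul, ← mul_assoc, h, mul_inv_cancel_right]
    rw [hA, Subgroup.mem_bot, mul_inv_eq_one] at h1
    subst h1
    exact ⟨hj (mul_right_cancel h), rfl⟩
  have hmul : ∀ g g' : 𝒢, ψ (Q (g * g')) * CM (ρbar (g * g')) =
      (ψ (Q g) * CM (ρbar g)) * (ψ (Q g') * CM (ρbar g')) := by
    intro g g'
    -- choose a lift of α g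
    obtain ⟨h, hh⟩ := hsurj (α g) (hα g)
    obtain ⟨q₁, hq₁⟩ := hconjmem (α g) (Q g')
    have e1 : j (Q (g * g')) * α (g * g') = j (Q g * q₁) * (α g * α g') := by
      rw [← hQ, map_mul, hQ, hQ, map_mul, hq₁]
      group
    obtain ⟨e2, -⟩ := huniq _ _ _ _ (hα _) (A.mul_mem (hα g) (hα g')) e1
    have e3 : ψ q₁ = CM (ρbar h) * ψ (Q g') * (CM (ρbar h))⁻¹ :=
      hequiv h (by rw [hh]; exact hα g) (Q g') q₁ (by rw [hq₁, hh])
    have hmem : res (g * h⁻¹) ∈ j.range := ⟨Q g, by rw [map_mul, map_inv, hQ, hh]; group⟩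
    obtain ⟨a, ha⟩ := hρs _ hmem
    have e4 : CM (ρbar g) * ψ (Q g') * (CM (ρbar g))⁻¹ = CM (ρbar h) * ψ (Q g') * (CM (ρbar h))⁻¹ := by
      refine conj_scalar (ρbar g) (ρbar h) a ?_ _
      rw [← map_inv, ← map_mul]
      exact ha
    rw [e2, map_mul, e3, ← e4, map_mul, map_mul]
    group
  let ρ : 𝒢 →* GL (Fin n) (BB k d) :=
    MonoidHom.mk' (fun g => ψ (Q g) * CM (ρbar g)) hmul
  refine ⟨ρ, ?_, ?_, ?_⟩
  · intro g
    show Matrix.GeneralLinearGroup.map (MvPowerSeries.constantCoeff (σ := Fin d) (R := k))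
      (ψ (Q g) * CM (ρbar g)) = _
    have h1 : Matrix.GeneralLinearGroup.map (MvPowerSeries.constantCoeff (σ := Fin d) (R := k))
        (ψ (Q g)) = 1 := by
      ext a b
      have h2 := hψ1 (Q g) a b
      rw [mem_maximalIdeal, mem_nonunits_iff, MvPowerSeries.isUnit_iff_constantCoeff,
        isUnit_iff_ne_zero, not_not, Matrix.sub_apply, map_sub, sub_eq_zero] at h2
      rw [Matrix.GeneralLinearGroup.map_apply, h2]
      by_cases h : a = b
      · subst h; simp
      · simp [Matrix.one_apply_ne h]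
    rw [map_mul, h1, map_CM, one_mul]
  · intro m
    -- subgroup containing an open subgroup
    have h0 : {g : 𝒢 | ∀ a b : Fin n,
        ((ρ g : Matrix (Fin n) (Fin n) (BB k d)) - 1) a b ∈ maximalIdeal (BB k d) ^ m} =
        (((congr1 k n d m).comap ρ : Subgroup 𝒢) : Set 𝒢) := by
      ext g
      exact (mem_congr1 m (ρ g)).symm
    rw [h0]
    let U : Subgroup P := (congr1 k n d m).comap ψ
    have hU : IsOpen (U : Set P) := by
      convert hψo m using 1
      ext q
      exact mem_congr1 m (ψ q)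
    let V : Subgroup 𝒢 := (U.map j).comap res ⊓ ρbar.ker
    have hV : IsOpen (V : Set 𝒢) := by
      rw [Subgroup.coe_inf]
      refine IsOpen.inter ?_ hρo
      have : IsOpen ((U.map j : Subgroup G) : Set G) := by
        rw [Subgroup.coe_map]
        exact hjo _ hU
      exact this.preimage hres
    refine Subgroup.isOpen_mono (H₁ := V) ?_ hV
    rintro g ⟨⟨q, hq, hq'⟩, hg2⟩
    have e1 : j (Q g) * α g = j q * 1 := by rw [← hQ, mul_one, hq']
    obtain ⟨e2, -⟩ := huniq _ _ _ _ (hα g) A.one_mem e1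
    show ρ g ∈ congr1 k n d m
    have : ρ g = ψ q := by
      show ψ (Q g) * CM (ρbar g) = _
      rw [e2, MonoidHom.mem_ker.mp hg2, map_one, mul_one]
    rw [this]
    exact hq
  · intro g q a ha h
    have e1 : j (Q g) * α g = j q * a := by rw [← hQ, h]
    obtain ⟨e2, -⟩ := huniq _ _ _ _ (hα g) ha e1
    show ψ (Q g) * CM (ρbar g) = _
    rw [e2]

end Pool.Agent.H429.MZU
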