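import Pool.Agent.H429.MZU.Gal2
import Pool.Agent.H429.MZU.Asm

/-!
# MP_aa8fd2_nt : lemmas for the final assembly (helper429)
-/

set_option autoImplicit false
set_option linter.all false

namespace Pool.Agent.H429.MZU

open MZ NumberField IsDedekindDomain IsLocalRing

/-- inclusion of intermediate fields as an algebra structure -/
noncomputable abbrev incAlg {k Ω : Type} [Field k] [Field Ω] [Algebra k Ω]
    {A B : IntermediateField k Ω} (h : A ≤ B) : Algebra A B :=
  (IntermediateField.inclusion h).toRingHom.toAlgebra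

lemma isGalois_inc {k Ω : Type} [Field k] [CharZero k] [Field Ω] [Algebra k Ω] [IsAlgClosure k Ω]
    (L F : IntermediateField k Ω) [IsGalois k L] (h : F ≤ L ⊔ F) :
    letI := incAlg h
    IsGalois F (L ⊔ F : IntermediateField k Ω) := by
  letI := incAlg h
  haveI := galois_sup (k := k) (Ω := Ω) L F
  let e : (IntermediateField.extendScalars (le_sup_right : F ≤ L ⊔ F)) ≃ₐ[F]
      (L ⊔ F : IntermediateField k Ω) :=
    { toFun := fun x => ⟨x.1, x.2⟩
      invFun := fun x => ⟨x.1, x.2⟩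
      left_inv := fun _ => rfl
      right_inv := fun _ => rfl
      map_mul' := fun _ _ => rfl
      map_add' := fun _ _ => rfl
      commutes' := fun _ => rfl }
  exact IsGalois.of_algEquiv e

/-! ### the tower -/

lemma th_int (m : ℕ) : IsIntegral ℤ (th m) := by
  induction m with
  | zero => rw [th_zero]; exact isIntegral_zero
  | succ m ih =>
    refine IsIntegral.of_pow (n := 2) (by norm_num) ?_
    rw [th_succ]
    exact IsIntegral.add (by exact_mod_cast isIntegral_algebraMap (R := ℤ) (A := Om) (x := 2)) ih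

lemma two_sub_th (m : ℕ) : 2 - th m ≠ 0 ∧ IsIntegral ℤ (2 * (2 - th m)⁻¹) := by
  induction m with
  | zero =>
    rw [th_zero, sub_zero]
    refine ⟨two_ne_zero, ?_⟩
    rw [mul_inv_cancel₀ two_ne_zero]
    exact isIntegral_one
  | succ m ih =>
    have h1 : (2 - th (m + 1)) * (2 + th (m + 1)) = 2 - th m := by
      linear_combination -th_succ m
    have h0 : 2 - th (m + 1) ≠ 0 := by
      intro h
      rw [h, zero_mul] at h1
      exact ih.1 h1.symm
    refine ⟨h0, ?_⟩
    have h2 : 2 * (2 - th (m + 1))⁻¹ = (2 + th (m + 1)) * (2 * (2 - th m)⁻¹) := by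
      rw [← h1]
      have h3 : 2 + th (m + 1) ≠ 0 := by
        intro h
        rw [h, mul_zero] at h1
        exact ih.1 h1.symm
      field_simp
    rw [h2]
    exact IsIntegral.mul (IsIntegral.add
      (by exact_mod_cast isIntegral_algebraMap (R := ℤ) (A := Om) (x := 2)) (th_int _)) ih.2

lemma two_add_th (m : ℕ) : 2 + th m ≠ 0 ∧ IsIntegral ℤ (2 * (2 + th m)⁻¹) := by
  cases m with
  | zero =>
    rw [th_zero, add_zero]
    refine ⟨two_ne_zero, ?_⟩
    rw [mul_inv_cancel₀ two_ne_zero]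
    exact isIntegral_one
  | succ m =>
    have h1 : (2 - th (m + 1)) * (2 + th (m + 1)) = 2 - th m := by
      linear_combination -th_succ m
    have ih := two_sub_th m
    have h0 : 2 + th (m + 1) ≠ 0 := by
      intro h
      rw [h, mul_zero] at h1
      exact ih.1 h1.symm
    refine ⟨h0, ?_⟩
    have h2 : 2 * (2 + th (m + 1))⁻¹ = (2 - th (m + 1)) * (2 * (2 - th m)⁻¹) := by
      rw [← h1]
      have h3 : 2 - th (m + 1) ≠ 0 := (two_sub_th (m + 1)).1
      field_simp
    rw [h2]
    exact IsIntegral.mul (IsIntegral.sub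
      (by exact_mod_cast isIntegral_algebraMap (R := ℤ) (A := Om) (x := 2)) (th_int _)) ih.2

lemma twoUnit_th (m : ℕ) : TwoUnit (2 + th m) := by
  refine ⟨(two_add_th m).1, 1, ?_, ?_⟩
  · rw [pow_one]
    have h2 : IsIntegral ℤ (2 : Om) := by
      exact_mod_cast isIntegral_algebraMap (R := ℤ) (A := Om) (x := 2)
    exact h2.mul (h2.add (th_int m))
  · rw [pow_one]
    exact (two_add_th m).2

lemma Fm_le_of_th {m : ℕ} {F : IntermediateField F5 Om} (h : th m ∈ F) : Fm m ≤ F := by
  unfold Fm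
  rw [IntermediateField.adjoin_le_iff]
  rintro x rfl
  exact h

/-- `Linf` is monotone. -/
lemma Linf_le {L₁ : IntermediateField F5 Om} {F : IntermediateField F5 Om}
    (L₂ : IntermediateField F Om) (h : ∀ x ∈ L₁, x ∈ L₂) (hK : KumClosed (Linf L₂ Om)) :
    ∀ x ∈ Linf L₁ Om, x ∈ Linf L₂ Om := by
  let M' : IntermediateField L₁ Om :=
    { (Linf L₂ Om).toSubfield with
      algebraMap_mem' := fun x => (Linf L₂ Om).algebraMap_mem ⟨x.1, h x.1 x.2⟩ }
  have h1 : KumClosed M' := fun x y hx hu hy => hK x y hx hu hy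
  intro x hx
  have h2 : Linf L₁ Om ≤ M' := sInf_le h1
  exact h2 hx

/-! ### the involutions -/

section mats

variable {B : Type} [CommRing B]

/-- generic square-zero matrix in characteristic two -/
def NN (y1 y2 z1 z2 : B) : Matrix (Fin 3) (Fin 3) B :=
  !![y1 * z1, y1 * z2, y1; y2 * z1, y2 * z2, y2;
    (z1 * y1 + z2 * y2) * z1, (z1 * y1 + z2 * y2) * z2, z1 * y1 + z2 * y2]

lemma NN_sq (h2 : (2 : B) = 0) (y1 y2 z1 z2 : B) : NN y1 y2 z1 z2 * NN y1 y2 z1 z2 = 0 := by
  unfold NN
  ext i j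
  fin_cases i <;> fin_cases j <;> simp [Matrix.mul_apply, Fin.sum_univ_three] <;>
    first
      | linear_combination (y1 * z1 * (z1 * y1 + z2 * y2)) * h2
      | linear_combination (y1 * z2 * (z1 * y1 + z2 * y2)) * h2
      | linear_combination (y1 * (z1 * y1 + z2 * y2)) * h2
      | linear_combination (y2 * z1 * (z1 * y1 + z2 * y2)) * h2
      | linear_combination (y2 * z2 * (z1 * y1 + z2 * y2)) * h2
      | linear_combination (y2 * (z1 * y1 + z2 * y2)) * h2
      | linear_combination ((z1 * y1 + z2 * y2) * z1 * (z1 * y1 + z2 * y2)) * h2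
      | linear_combination ((z1 * y1 + z2 * y2) * z2 * (z1 * y1 + z2 * y2)) * h2
      | linear_combination ((z1 * y1 + z2 * y2) * (z1 * y1 + z2 * y2)) * h2

lemma NN_add (h2 : (2 : B) = 0) (N : Matrix (Fin 3) (Fin 3) B) : N + N = 0 := by
  rw [← two_smul B, h2, zero_smul]

/-- `1 + N` as an involution -/
def XX (h2 : (2 : B) = 0) (y1 y2 z1 z2 : B) : GL (Fin 3) B where
  val := 1 + NN y1 y2 z1 z2
  inv := 1 + NN y1 y2 z1 z2
  val_inv := by
    rw [mul_add, add_mul, add_mul, mul_one, mul_one, one_mul, NN_sq h2, add_zero, add_assoc,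
      NN_add h2, add_zero]
  inv_val := by
    rw [mul_add, add_mul, add_mul, mul_one, mul_one, one_mul, NN_sq h2, add_zero, add_assoc,
      NN_add h2, add_zero]

lemma XX_sq (h2 : (2 : B) = 0) (y1 y2 z1 z2 : B) : XX h2 y1 y2 z1 z2 * XX h2 y1 y2 z1 z2 = 1 := by
  have : XX h2 y1 y2 z1 z2 * (XX h2 y1 y2 z1 z2)⁻¹ = 1 := mul_inv_cancel _
  exact this

lemma XX_sub (h2 : (2 : B) = 0) (y1 y2 z1 z2 : B) :
    ((XX h2 y1 y2 z1 z2 : GL (Fin 3) B) : Matrix (Fin 3) (Fin 3) B) - 1 = NN y1 y2 z1 z2 := by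
  show 1 + NN y1 y2 z1 z2 - 1 = _
  rw [add_sub_cancel_left]

lemma NN_mem (I : Ideal B) (y1 y2 z1 z2 : B) (h1 : y1 ∈ I) (h2 : y2 ∈ I) (a b : Fin 3) :
    NN y1 y2 z1 z2 a b ∈ I := by
  have h3 : z1 * y1 + z2 * y2 ∈ I := I.add_mem (I.mul_mem_left _ h1) (I.mul_mem_left _ h2)
  unfold NN
  fin_cases a <;> fin_cases b <;> simp
  all_goals first
    | exact h1
    | exact h2
    | exact h3
    | exact I.mul_mem_right _ h1
    | exact I.mul_mem_right _ h2
    | exact I.mul_mem_right _ h3

end mats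

end Pool.Agent.H429.MZU
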