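import Pool.Agent.H429.MZU.AsmA

/-!
# MP_aa8fd2_nt : the degree of `E ∩ F` over `F₀` is a power of two (helper429)
-/

set_option autoImplicit false
set_option linter.all false

namespace Pool.Agent.H429.MZU

open MZ NumberField

lemma index_pow_two {P G : Type} [Group P] [TopologicalSpace P] [IsTopologicalGroup P]
    [Group G] [TopologicalSpace G] [IsTopologicalGroup G] [CompactSpace G]
    (j : P →* G) (hjc : Continuous j) (hjn : j.range.Normal) (hjf : j.range.index ≠ 0)
    (hpro : ProTwo P) (U : Subgroup G) (hUo : IsOpen (U : Set G)) (hUP : U ⊔ j.range = ⊤) :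
    ∃ e : ℕ, U.index = 2 ^ e := by
  have hUcl : IsClosed (U : Set G) := Subgroup.isClosed_of_isOpen _ hUo
  haveI : Finite (G ⧸ U) := Subgroup.quotient_finite_of_isOpen U hUo
  haveI : U.FiniteIndex := Subgroup.finiteIndex_of_finite_quotient
  have hU'o : IsOpen (U.normalCore : Set G) :=
    Subgroup.isOpen_of_isClosed_of_finiteIndex _ (U.normalCore_isClosed hUcl)
  obtain ⟨e, he⟩ := hpro (U.normalCore.comap j) (Subgroup.Normal.comap inferInstance j)
    (hU'o.preimage hjc)
  have h1 : (U.comap j).index ∣ 2 ^ e := by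
    rw [← he]
    exact Subgroup.index_dvd_of_le (Subgroup.comap_mono U.normalCore_le)
  have h2 : U.index = (U.comap j).index := by
    rw [Subgroup.index_comap]
    haveI := hjn
    have h3 : j.range.relIndex U * U.index = (U ⊓ j.range).index := by
      rw [← Subgroup.inf_relIndex_left U j.range]
      exact Subgroup.relIndex_mul_index inf_le_left
    have h4 : U.relIndex j.range * j.range.index = (U ⊓ j.range).index := by
      rw [← Subgroup.inf_relIndex_right U j.range]
      exact Subgroup.relIndex_mul_index inf_le_right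
    have h5 : j.range.relIndex U = j.range.index := by
      rw [← Subgroup.relIndex_sup_right U j.range, hUP, Subgroup.relIndex_top_right]
    rw [h5, ← h4, mul_comm] at h3
    exact Nat.eq_of_mul_eq_mul_right (Nat.pos_of_ne_zero hjf) h3
  rw [h2]
  obtain ⟨e', -, he'⟩ := (Nat.dvd_prime_pow Nat.prime_two).mp h1
  exact ⟨e', he'⟩

theorem finrank_fixed
    {F₀ L E F K : Type} [Field F₀] [Field L] [Field E] [Field F] [Field K]
    [Algebra F₀ L] [Algebra L E] [Algebra F₀ E] [IsScalarTower F₀ L E]
    [Algebra E K] [Algebra F₀ K] [IsScalarTower F₀ E K]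
    [Algebra F₀ F] [Algebra F K] [IsScalarTower F₀ F K]
    [FiniteDimensional F₀ L] [IsGalois F₀ L] [IsGalois F₀ E] [IsGalois L E] [IsGalois F K]
    [FiniteDimensional F₀ F] (hpro : ProTwo Gal(E/L))
    (hsur : ∀ s : Gal(L/F₀), ∃ γ : Gal(K/F), ∀ x : L,
      γ (algebraMap E K (algebraMap L E x)) = algebraMap E K (algebraMap L E (s x))) :
    ∃ e : ℕ, Module.finrank F₀ (IntermediateField.fixedField (resU F₀ E F K).range) = 2 ^ e := by
  let j : Gal(E/L) →* Gal(E/F₀) := jR F₀ L E
  let rL : Gal(E/F₀) →* Gal(L/F₀) := AlgEquiv.restrictNormalHom L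
  have hrange : j.range = rL.ker := range_jR_eq_ker
  have hjn : j.range.Normal := by rw [hrange]; exact MonoidHom.normal_ker _
  have hUo := isOpen_range_resU F₀ E F K
  have hjf : j.range.index ≠ 0 := by
    rw [hrange, Subgroup.index_ker]
    exact Nat.card_pos.ne'
  have hUP : (resU F₀ E F K).range ⊔ j.range = ⊤ := by
    rw [eq_top_iff]
    intro g _
    obtain ⟨γ, hγ⟩ := hsur (rL g)
    have h1 : rL (resU F₀ E F K γ) = rL g := by
      ext x
      apply (algebraMap L E).injective
      apply (algebraMap E K).injective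
      rw [← hγ]
      have h2 := res_apply (F := F₀) (E := L) (K := E) (resU F₀ E F K γ) x
      show algebraMap E K (algebraMap L E ((AlgEquiv.restrictNormalHom L (resU F₀ E F K γ)) x)) = _
      rw [h2]
      exact resU_apply γ _
    have h3 : (resU F₀ E F K γ)⁻¹ * g ∈ j.range := by
      rw [hrange, MonoidHom.mem_ker, map_mul, map_inv, h1, inv_mul_cancel]
    have h4 : g = resU F₀ E F K γ * ((resU F₀ E F K γ)⁻¹ * g) := by group
    rw [h4]
    exact Subgroup.mul_mem_sup ⟨γ, rfl⟩ h3
  obtain ⟨e, he⟩ := index_pow_two j continuous_jR hjn hjf hpro (resU F₀ E F K).range hUo hUP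
  refine ⟨e, ?_⟩
  rw [IntermediateField.finrank_eq_fixingSubgroup_index]
  have h1 : (IntermediateField.fixedField (resU F₀ E F K).range).fixingSubgroup =
      (resU F₀ E F K).range :=
    InfiniteGalois.fixingSubgroup_fixedField ⟨(resU F₀ E F K).range, isClosed_range_resU F₀ E F K⟩
  rw [h1, he]

end Pool.Agent.H429.MZU
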