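import Pool.Agent.H429.MZU.Fin0
import Pool.Agent.H429.MZU.Real
import Pool.Agent.H429.MZU.BC
import Pool.Agent.H429.MZU.Sur
import Pool.Graph.R_seed8.W294.MZ.Strong

/-!
# MP_aa8fd2_nt : the concrete fields (helper429)
-/

set_option autoImplicit false
set_option linter.all false

namespace Pool.Agent.H429.MZU

open MZ NumberField IsDedekindDomain IsLocalRing

instance (F : IntermediateField F5 Om) : IsAlgClosure F Om :=
  ⟨inferInstance, Algebra.IsAlgebraic.tower_top (K := F5) F⟩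

instance fin_of_nf (F : IntermediateField F5 Om) [NumberField F] : FiniteDimensional F5 F :=
  Module.Finite.of_restrictScalars_finite ℚ F5 F

lemma Lf_le_S30 : ∀ x ∈ Lf, x ∈ (FSmax S30 : IntermediateField F5 Om) := by
  obtain ⟨hfd, hgal, h9, hreal, hunr, hNF, htwo⟩ :=
    MZ294.stmL MZ413.stmN MZ413.stmM MZ413.stmP
  intro x hx
  exact (le_iSup (fun K : {K : IntermediateField F5 Om // FiniteDimensional F5 K ∧
    UnramifiedOutside S30 K} => K.1) ⟨Lf, hfd, hunr⟩) hx

section

variable (F : IntermediateField F5 Om) [NumberField F]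
  (S : Set (HeightOneSpectrum (𝓞 F)))
  (h30 : ∀ v : HeightOneSpectrum (𝓞 F), (30 : 𝓞 F) ∈ v.asIdeal → v ∈ S)

include h30

lemma two_mem (v : HeightOneSpectrum (𝓞 F)) (h : (2 : 𝓞 F) ∈ v.asIdeal) : v ∈ S := by
  apply h30
  have : (30 : 𝓞 F) = 15 * 2 := by norm_num
  rw [this]
  exact Ideal.mul_mem_left _ _ h

lemma S30_le : ∀ x : Om, x ∈ (FSmax S30 : IntermediateField F5 Om) →
    x ∈ (FSmax S : IntermediateField F Om) := by
  refine bc MZ413.stmExH1 Pool.Agent.W178.MZK.K7 F5 Om S30 F S ?_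
  intro w v hv hwv
  apply h30
  have h1 : (30 : 𝓞 F5) ∈ v.asIdeal := hv
  rw [← hwv, Ideal.mem_comap, map_ofNat] at h1
  exact h1

lemma Lf_le_S : ∀ x ∈ Lf, x ∈ (FSmax S : IntermediateField F Om) := fun x hx =>
  S30_le F S h30 x (Lf_le_S30 x hx)

lemma LfF_le (x : Om) (hx : x ∈ Lf ⊔ F) : x ∈ (FSmax S : IntermediateField F Om) := by
  have h1 : Lf ⊔ F ≤ (FSmax S : IntermediateField F Om).restrictScalars F5 := by
    refine sup_le ?_ ?_
    · intro y hy
      exact Lf_le_S F S h30 y hy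
    · intro y hy
      exact (FSmax S : IntermediateField F Om).algebraMap_mem ⟨y, hy⟩
  exact h1 hx

lemma Linf_le_S (m : ℕ) (hth : th m ∈ F) : ∀ x ∈ Linf (Lm m) Om,
    x ∈ (FSmax S : IntermediateField F Om) := by
  obtain ⟨hfd, hgal, h9, hreal, hunr, hNF, htwo⟩ :=
    MZ294.stmL MZ413.stmN MZ413.stmM MZ413.stmP
  haveI : FiniteDimensional F5 (Lf ⊔ F : IntermediateField F5 Om) :=
    IntermediateField.finiteDimensional_sup Lf F
  let L₂ : IntermediateField F Om := IntermediateField.extendScalars (le_sup_right : F ≤ Lf ⊔ F)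
  haveI : FiniteDimensional F5 L₂ := by
    show FiniteDimensional F5 (Lf ⊔ F : IntermediateField F5 Om)
    infer_instance
  haveI : FiniteDimensional F L₂ := Module.Finite.of_restrictScalars_finite F5 F L₂
  have hL₂ : L₂ ≤ (FSmax S : IntermediateField F Om) := by
    intro x hx
    exact LfF_le F S h30 x hx
  have h1 : UnramifiedOutside S L₂ := MZ413.stmExH1 F Om S L₂ inferInstance hL₂
  have h2 := Pool.Agent.W178.MZK.K6 F Om S (two_mem F S h30) L₂ h1
  have h3 := Linf_le (L₁ := Lm m) (F := F) L₂ (by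
    intro x hx
    have : Lm m ≤ Lf ⊔ F := sup_le_sup le_rfl (Fm_le_of_th hth)
    exact this hx) (Pool.Agent.W343.MZ.stmK1.1 L₂ Om)
  intro x hx
  exact h2 (h3 x hx)

end

end Pool.Agent.H429.MZU
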