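import Pool.Agent.H429.MZU.Stmts

/-! Task MZU-LIM (helper328): from finite 2-groups to `GL_n(A)`, `A` complete noetherian local.
Adapted from the library file `W402/MZ/Lim.lean`. -/

set_option autoImplicit false

noncomputable section

namespace Pool.Agent.H429.MZU.LimL

open IsLocalRing

/-- truncation -/
abbrev RR (A : Type) [CommRing A] [IsLocalRing A] (m : ℕ) : Type := A ⧸ maximalIdeal A ^ m

section basic

variable {A : Type} [CommRing A] [IsLocalRing A]

/-- the quotient map -/
def q (m : ℕ) : A →+* RR A m := Ideal.Quotient.mk _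

lemma q_surj (m : ℕ) : Function.Surjective (q m : A →+* RR A m) :=
  Ideal.Quotient.mk_surjective

lemma q_eq {m : ℕ} {x y : A} : q m x = q m y ↔ x - y ∈ maximalIdeal A ^ m :=
  Ideal.Quotient.eq (I := maximalIdeal A ^ m)

lemma smodEq_iff {m : ℕ} {x y : A} :
    x ≡ y [SMOD (maximalIdeal A ^ m • ⊤ : Submodule A A)] ↔ x - y ∈ maximalIdeal A ^ m := by
  rw [SModEq.sub_mem]
  have e : (maximalIdeal A ^ m • ⊤ : Submodule A A) = maximalIdeal A ^ m := by
    rw [smul_eq_mul, Ideal.mul_top]
  rw [e]

lemma ext_q [IsHausdorff (maximalIdeal A) A] {x y : A} (h : ∀ m, q m x = q m y) : x = y := by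
  rw [← sub_eq_zero]
  apply IsHausdorff.haus (inferInstance : IsHausdorff (maximalIdeal A) A)
  intro m
  rw [smodEq_iff, sub_zero]
  exact q_eq.1 (h m)

lemma finite_RR [IsNoetherianRing A] (hf : Finite (ResidueField A)) (m : ℕ) : Finite (RR A m) := by
  have : Finite (A ⧸ maximalIdeal A) := hf
  exact Ideal.finite_quotient_pow (IsNoetherian.noetherian _) m

/-- further truncation -/
def pi {m m' : ℕ} (h : m ≤ m') : RR A m' →+* RR A m :=
  Ideal.Quotient.factor (Ideal.pow_le_pow_right h)

lemma pi_q {m m' : ℕ} (h : m ≤ m') (x : A) : pi h (q m' x) = q m x := rfl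

end basic

section group

variable {A : Type} [CommRing A] [IsLocalRing A] (n : ℕ)

/-- the congruence subgroup -/
def Gam (A : Type) [CommRing A] [IsLocalRing A] (n : ℕ) : Subgroup (GL (Fin n) A) :=
  (Matrix.GeneralLinearGroup.map (n := Fin n) (residue A)).ker

/-- its image modulo `𝔪 ^ m` -/
def HH (A : Type) [CommRing A] [IsLocalRing A] (n m : ℕ) : Subgroup (GL (Fin n) (RR A m)) :=
  (Gam A n).map (Matrix.GeneralLinearGroup.map (n := Fin n) (q m))

lemma mem_Gam {g : GL (Fin n) A} :
    g ∈ Gam A n ↔ ∀ a b, ((g : Matrix (Fin n) (Fin n) A) - 1) a b ∈ maximalIdeal A := by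
  unfold Gam
  rw [MonoidHom.mem_ker]
  constructor
  · intro h a b
    have h1 := congrArg (fun M : GL (Fin n) (ResidueField A) =>
      (M : Matrix (Fin n) (Fin n) (ResidueField A)) a b) h
    simp only [Matrix.GeneralLinearGroup.map_apply] at h1
    rw [← residue_eq_zero_iff, Matrix.sub_apply, map_sub, h1]
    by_cases hab : a = b
    · subst hab; simp
    · simp [hab]
  · intro h
    ext a b
    have h1 := h a b
    rw [← residue_eq_zero_iff, Matrix.sub_apply, map_sub, sub_eq_zero] at h1
    simp only [Matrix.GeneralLinearGroup.map_apply]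
    rw [h1]
    by_cases hab : a = b
    · subst hab; simp
    · simp [hab]

omit [IsLocalRing A] in
lemma mul_entries {I J : Ideal A} {Z W : Matrix (Fin n) (Fin n) A} (hZ : ∀ a b, Z a b ∈ I)
    (hW : ∀ a b, W a b ∈ J) (a b : Fin n) : (Z * W) a b ∈ I * J := by
  rw [Matrix.mul_apply]
  exact Ideal.sum_mem _ fun c _ => Ideal.mul_mem_mul (hZ a c) (hW c b)

lemma pow_entries (h2 : (2 : A) ∈ maximalIdeal A) {g : Matrix (Fin n) (Fin n) A}
    (hg : ∀ a b, (g - 1) a b ∈ maximalIdeal A) (j : ℕ) :
    ∀ a b, (g ^ (2 ^ j) - 1 : Matrix (Fin n) (Fin n) A) a b ∈ maximalIdeal A ^ (j + 1) := by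
  induction j with
  | zero =>
    intro a b
    have h1 := hg a b
    simpa using h1
  | succ j ih =>
    intro a b
    have e : g ^ (2 ^ (j + 1)) - 1 = (g ^ (2 ^ j) - 1) * (g ^ (2 ^ j) - 1) +
        (2 : A) • (g ^ (2 ^ j) - 1) := by
      rw [pow_succ 2 j, pow_mul, two_smul]
      noncomm_ring
    rw [e, Matrix.add_apply, Matrix.smul_apply, smul_eq_mul]
    apply Ideal.add_mem
    · have h3 := mul_entries n ih ih a b
      rw [← pow_add] at h3
      exact Ideal.pow_le_pow_right (by omega) h3
    · have h3 := Ideal.mul_mem_mul h2 (ih a b)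
      rw [← pow_succ'] at h3
      exact h3

lemma pgroup (h2 : (2 : A) ∈ maximalIdeal A) (m : ℕ) : IsPGroup 2 (HH A n m) := by
  rintro ⟨h, hh⟩
  obtain ⟨g, hg, rfl⟩ := hh
  refine ⟨m, ?_⟩
  apply Subtype.ext
  show (Matrix.GeneralLinearGroup.map (n := Fin n) (q m) g) ^ (2 ^ m) = 1
  rw [← map_pow]
  have hg' := (mem_Gam n).mp hg
  have h1 := pow_entries n h2 hg' m
  ext a b
  simp only [Matrix.GeneralLinearGroup.map_apply]
  have h3 : q m ((((g ^ (2 ^ m) : GL (Fin n) A)) : Matrix (Fin n) (Fin n) A) a b) =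
      q m ((1 : Matrix (Fin n) (Fin n) A) a b) := by
    rw [q_eq, Units.val_pow_eq_pow_val]
    have := h1 a b
    rw [Matrix.sub_apply] at this
    exact Ideal.pow_le_pow_right (Nat.le_succ m) this
  rw [h3]
  by_cases hab : a = b
  · subst hab; simp
  · simp [hab]

lemma mem_HH (m : ℕ) {g : GL (Fin n) A} (h : g ∈ Gam A n) :
    Matrix.GeneralLinearGroup.map (n := Fin n) (q m) g ∈ HH A n m := by
  unfold HH
  rw [Subgroup.mem_map]
  exact ⟨g, h, rfl⟩

/-- the image of an element of the congruence subgroup -/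
def toHH (m : ℕ) (g : GL (Fin n) A) (h : g ∈ Gam A n) : HH A n m :=
  ⟨_, mem_HH n m h⟩

lemma toHH_val (m : ℕ) (g : GL (Fin n) A) (h : g ∈ Gam A n) :
    (toHH n m g h : GL (Fin n) (RR A m)) =
      Matrix.GeneralLinearGroup.map (n := Fin n) (q m) g := rfl

lemma toHH_sq (m : ℕ) (g : GL (Fin n) A) (h : g ∈ Gam A n) (h2 : g * g = 1) :
    toHH n m g h * toHH n m g h = 1 := by
  apply Subtype.ext
  rw [Subgroup.coe_mul, toHH_val, ← map_mul, h2, map_one]
  rfl

end group

end LimL

open LimL IsLocalRing MZ in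
theorem lim : S_Lim := by
  intro P _ _ _ _ _ ι c σ hTop hAss A _ _ _ _ hfA h2A n t u ht2 ht1 hu1
  have hfin : ∀ m, Finite (RR A m) := finite_RR hfA
  have htΓ : ∀ i, t i ∈ Gam A n := fun i => (mem_Gam n).2 (ht1 i)
  have huΓ : u ∈ Gam A n := (mem_Gam n).2 hu1
  -- the maps to the finite levels
  have hex : ∀ m : ℕ, ∃ Ψ : P →* GL (Fin n) (RR A m), IsOpen (Ψ.ker : Set P) ∧
      (∀ i, Ψ (c i) = Matrix.GeneralLinearGroup.map (q m) (t i)) ∧
      Ψ σ = Matrix.GeneralLinearGroup.map (q m) u ∧
      ∀ g, Ψ g ∈ HH A n m := by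
    intro m
    have := hfin m
    have hfGL : Finite (GL (Fin n) (RR A m)) := inferInstance
    have hfH : Finite (HH A n m) := inferInstance
    have hcard : ∃ e : ℕ, Nat.card (HH A n m) = 2 ^ e := by
      have : Fact (Nat.Prime 2) := ⟨Nat.prime_two⟩
      exact (IsPGroup.iff_card).mp (pgroup n h2A m)
    obtain ⟨ψ, hψ1, hψ2, hψ3⟩ := hAss (HH A n m) hcard (fun i => toHH n m (t i) (htΓ i))
      (toHH n m u huΓ) (fun i => toHH_sq n m (t i) (htΓ i) (ht2 i))
    refine ⟨(HH A n m).subtype.comp ψ, ?_, ?_, ?_, fun g => (ψ g).2⟩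
    · have e : ((HH A n m).subtype.comp ψ).ker = ψ.ker := by
        ext g
        simp [MonoidHom.mem_ker]
      rw [e]
      exact hψ1
    · intro i
      rw [← toHH_val n m (t i) (htΓ i), ← hψ2 i]
      rfl
    · rw [← toHH_val n m u huΓ, ← hψ3]
      rfl
  choose Ψ hΨo hΨc hΨσ hΨH using hex
  -- compatibility
  have hcomp : ∀ m m' : ℕ, ∀ h : m ≤ m', ∀ g : P,
      Matrix.GeneralLinearGroup.map (pi h) (Ψ m' g) = Ψ m g := by
    intro m m' h g
    have h1 : ((Matrix.GeneralLinearGroup.map (n := Fin n) (pi h)).comp (Ψ m')).eqLocus (Ψ m) =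
        ⊤ := by
      apply hTop
      · apply Subgroup.isOpen_mono (H₁ := (Ψ m').ker ⊓ (Ψ m).ker)
        · rintro x ⟨hx1, hx2⟩
          show Matrix.GeneralLinearGroup.map (pi h) (Ψ m' x) = Ψ m x
          rw [MonoidHom.mem_ker.mp hx1, MonoidHom.mem_ker.mp hx2, map_one]
        · exact (hΨo m').inter (hΨo m)
      · intro i
        show Matrix.GeneralLinearGroup.map (pi h) (Ψ m' (c i)) = Ψ m (c i)
        rw [hΨc, hΨc]
        ext a b
        rfl
      · show Matrix.GeneralLinearGroup.map (pi h) (Ψ m' σ) = Ψ m σ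
        rw [hΨσ, hΨσ]
        ext a b
        rfl
    have h2 : g ∈ ((Matrix.GeneralLinearGroup.map (n := Fin n) (pi h)).comp (Ψ m')).eqLocus
        (Ψ m) := by
      rw [h1]
      exact Subgroup.mem_top g
    exact h2
  -- the limit
  let lift : (m : ℕ) → RR A m → A := fun m => Function.surjInv (q_surj m)
  have hlift : ∀ (m : ℕ) (r : RR A m), q m (lift m r) = r := fun m r =>
    Function.surjInv_eq (q_surj m) r
  have hMex : ∀ (g : P) (a b : Fin n), ∃ x : A, ∀ m : ℕ,
      q m x = (Ψ m g : Matrix (Fin n) (Fin n) (RR A m)) a b := by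
    intro g a b
    obtain ⟨x, hx⟩ := IsPrecomplete.prec (inferInstance : IsPrecomplete (maximalIdeal A) A)
      (f := fun m => lift m ((Ψ m g : Matrix (Fin n) (Fin n) (RR A m)) a b)) (by
        intro m m' hmm
        rw [smodEq_iff, ← q_eq, hlift, ← pi_q (m := m) (m' := m') hmm, hlift, ← hcomp m m' hmm g]
        rfl)
    refine ⟨x, fun m => ?_⟩
    have h1 := hx m
    rw [smodEq_iff, ← q_eq, hlift] at h1
    exact h1.symm
  choose M hM using hMex
  have hMext : ∀ B C : Matrix (Fin n) (Fin n) A,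
      (∀ m, B.map (q m) = C.map (q m)) → B = C := by
    intro B C h
    ext1 a b
    apply ext_q
    intro m
    exact congrFun (congrFun (h m) a) b
  have hMmap : ∀ (m : ℕ) (g : P), (Matrix.of (M g)).map (q m) =
      (Ψ m g : Matrix (Fin n) (Fin n) (RR A m)) := by
    intro m g
    ext1 a b
    exact hM g a b m
  let Mh : P →* Matrix (Fin n) (Fin n) A :=
    { toFun := fun g => Matrix.of (M g)
      map_one' := by
        apply hMext
        intro m
        rw [hMmap, map_one]
        ext1 a b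
        by_cases hab : a = b
        · subst hab; simp
        · simp [hab]
      map_mul' := by
        intro x y
        apply hMext
        intro m
        rw [hMmap, map_mul]
        have h1 : (Matrix.of (M x) * Matrix.of (M y)).map (q m) =
            (Matrix.of (M x)).map (q m) * (Matrix.of (M y)).map (q m) :=
          Matrix.map_mul
        rw [h1, hMmap, hMmap]
        rfl }
  refine ⟨Mh.toHomUnits, ?_, ?_, ?_, ?_⟩
  · intro g
    obtain ⟨γ, hγ, hγ2⟩ := hΨH 1 g
    intro a b
    have h2 := (mem_Gam n).mp hγ a b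
    have h3 : q 1 (M g a b) = q 1 ((γ : Matrix (Fin n) (Fin n) A) a b) := by
      rw [hM, ← hγ2]
      rfl
    rw [q_eq, pow_one] at h3
    have h4 := Ideal.add_mem _ h3 h2
    rw [Matrix.sub_apply] at h4
    show (Matrix.of (M g) - 1) a b ∈ maximalIdeal A
    rw [Matrix.sub_apply, Matrix.of_apply]
    have e : M g a b - (γ : Matrix (Fin n) (Fin n) A) a b +
      ((γ : Matrix (Fin n) (Fin n) A) a b - (1 : Matrix (Fin n) (Fin n) A) a b) =
        M g a b - (1 : Matrix (Fin n) (Fin n) A) a b := by ring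
    rwa [e] at h4
  · intro m
    have e : {g : P | ∀ a b : Fin n,
          ((Mh.toHomUnits g : Matrix (Fin n) (Fin n) A) - 1) a b ∈ maximalIdeal A ^ m} =
          ((Ψ m).ker : Set P) := by
      ext g
      constructor
      · intro h
        rw [SetLike.mem_coe, MonoidHom.mem_ker]
        ext a b
        have h1 : q m (M g a b) = q m ((1 : Matrix (Fin n) (Fin n) A) a b) := by
          rw [q_eq]
          exact h a b
        rw [hM] at h1
        rw [h1]
        by_cases hab : a = b
        · subst hab; simp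
        · simp [hab]
      · intro h a b
        rw [SetLike.mem_coe, MonoidHom.mem_ker] at h
        have h1 : q m (M g a b) = q m ((1 : Matrix (Fin n) (Fin n) A) a b) := by
          rw [hM, h]
          by_cases hab : a = b
          · subst hab; simp
          · simp [hab]
        rw [q_eq] at h1
        exact h1
    rw [e]
    exact hΨo m
  · intro i
    apply Units.ext
    show Matrix.of (M (c i)) = _
    apply hMext
    intro m
    rw [hMmap, hΨc]
    rfl
  · apply Units.ext
    show Matrix.of (M σ) = _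
    apply hMext
    intro m
    rw [hMmap, hΨσ]
    rfl

end Pool.Agent.H429.MZU
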