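import Pool.Agent.H429.MZU.Fin1
import Pool.Agent.H429.MZU.Lim
import Pool.Agent.H429.MZU.Dim
import Pool.Agent.H429.MZU.Burn
import Pool.Agent.H429.MZU.Delta
import Pool.Agent.H429.MZU.K8E

/-!
# MP_aa8fd2_nt : the family of lifts over `F ⊇ F_m` (helper429)
-/

set_option autoImplicit false
set_option linter.all false
set_option maxHeartbeats 4000000
set_option synthInstance.maxHeartbeats 400000

namespace Pool.Agent.H429.MZU

open MZ NumberField IsDedekindDomain IsLocalRing

/-- every subfield of `F` containing `F_m` whose degree is a power of two is totally real -/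
def RealCond (m : ℕ) (F : IntermediateField F5 Om) : Prop :=
  ∀ M : IntermediateField F5 Om, Fm m ≤ M → M ≤ F → (∃ a : ℕ, Module.finrank F5 M = 2 ^ a) →
    ∀ φ : M →+* ℂ, ComplexEmbedding.IsReal φ

theorem family (hTower : S_Tower) (m : ℕ) (F : IntermediateField F5 Om) [NumberField F]
    (hth : th m ∈ F) (hdis : F ⊓ Lf = ⊥) (hreal : RealCond m F)
    (S : Set (HeightOneSpectrum (𝓞 F)))
    (h30 : ∀ v : HeightOneSpectrum (𝓞 F), (30 : 𝓞 F) ∈ v.asIdeal → v ∈ S) :
    ∃ (k : Type) (_ : Field k) (_ : Finite k) (_ : CharP k 2) (ρbar : GFS Om S →* GL (Fin 3) k),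
      IsOpen (ρbar.ker : Set (GFS Om S)) ∧ AbsIrred ρbar ∧ (∀ g, ρbar g ^ 27 = 1) ∧
      ∀ (d : ℕ) (X : (Fm m →+* ℂ) → GL (Fin 3) (BB k d)) (u : BB k d), (∀ v, X v * X v = 1) →
      (∀ v a b, ((X v : Matrix (Fin 3) (Fin 3) (BB k d)) - 1) a b ∈ maximalIdeal (BB k d)) →
      u - 1 ∈ maximalIdeal (BB k d) →
    ∃ ρ : GFS Om S →* GL (Fin 3) (BB k d),
      (∀ g, Matrix.GeneralLinearGroup.map (MvPowerSeries.constantCoeff (σ := Fin d) (R := k)) (ρ g) =
        ρbar g) ∧
      (∀ m : ℕ, IsOpen {g : GFS Om S | ∀ a b : Fin 3,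
        ((ρ g : Matrix (Fin 3) (Fin 3) (BB k d)) - 1) a b ∈ maximalIdeal (BB k d) ^ m}) ∧
      (∀ v a b, ((X v : Matrix (Fin 3) (Fin 3) (BB k d)) - 1) a b ∈
        Submodule.span k (Set.range fun g : GFS Om S =>
          (ρ g : Matrix (Fin 3) (Fin 3) (BB k d)).trace)) ∧
      ∃ s : ℕ, u ^ (2 ^ s) - 1 ∈ Submodule.span k (Set.range fun g : GFS Om S =>
          (ρ g : Matrix (Fin 3) (Fin 3) (BB k d)).trace) := by
  classical
  obtain ⟨hfd, h9, hFm, hrealL, hthn, hNF, hmem, htwo⟩ := hTower m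
  obtain ⟨hfdL, hgalL, h9L, hrealLf, hunrL, hNFL, htwoL⟩ :=
    MZ294.stmL MZ413.stmN MZ413.stmM MZ413.stmP
  have hK1 : StmK1 := Pool.Agent.W343.MZ.stmK1
  have hK2 : StmK2 := Pool.Agent.W343.MZ.stmK2
  have hK3 : StmK3 := Pool.Agent.W47.MZK3.k3
  have hK7 : StmK7 := Pool.Agent.W178.MZK.K7
  have hK4 : StmK4 := Pool.Agent.W368.MZK4.t_K4 hK3
  have hK5 : StmK5 := Pool.Agent.W266.MZK5.t_K5
  obtain ⟨k, ik, iFin, iP, ρ₀, ω, hω, hρo, hρi, hρ27, hρs, hρT⟩ := MZ294.stmRho hK7
  -- instances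
  haveI i1 : IsGalois F (FSmax S : IntermediateField F Om) := hK7 F Om S
  haveI i2 : IsGalois F5 (FSmax S30 : IntermediateField F5 Om) := hK7 F5 Om S30
  haveI : FiniteDimensional F5 (Fm m) := by
    refine IntermediateField.adjoin.finiteDimensional ?_
    exact Algebra.IsIntegral.isIntegral _
  haveI : NumberField (Fm m) := NumberField.of_module_finite F5 (Fm m)
  letI a1 : Algebra (Fm m) (Lm m) := incAlg (Fm_le_Lm m)
  haveI t1 : IsScalarTower (Fm m) (Lm m) Om := IsScalarTower.of_algebraMap_eq (fun _ => rfl)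
  haveI t2 : IsScalarTower F5 (Fm m) (Lm m) := IsScalarTower.of_algebraMap_eq (fun _ => rfl)
  haveI galL : IsGalois (Fm m) (Lm m) := isGalois_inc Lf (Fm m) (Fm_le_Lm m)
  haveI galE : IsGalois (Fm m) (Linf (Lm m) Om) := hK1.2 (Fm m) (Lm m) Om galL
  haveI galE' : IsGalois (Lm m) (Linf (Lm m) Om) := hK1.2 (Lm m) (Lm m) Om inferInstance
  haveI : FiniteDimensional (Fm m) (Lm m) := Module.Finite.of_restrictScalars_finite F5 _ _
  -- E → K
  let inc : (Linf (Lm m) Om) →+* (FSmax S : IntermediateField F Om) :=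
    { toFun := fun x => ⟨(x : Om), Linf_le_S F S h30 m hth x x.2⟩
      map_one' := rfl
      map_mul' := fun _ _ => rfl
      map_zero' := rfl
      map_add' := fun _ _ => rfl }
  letI a2 : Algebra (Linf (Lm m) Om) (FSmax S : IntermediateField F Om) := inc.toAlgebra
  have hFF : Fm m ≤ F := Fm_le_of_th hth
  letI a3 : Algebra (Fm m) F := incAlg hFF
  haveI t3 : IsScalarTower (Fm m) F Om := IsScalarTower.of_algebraMap_eq (fun _ => rfl)
  haveI t3' : IsScalarTower F5 (Fm m) F := IsScalarTower.of_algebraMap_eq (fun _ => rfl)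
  haveI : FiniteDimensional (Fm m) F := Module.Finite.of_restrictScalars_finite F5 _ _
  haveI t4 : IsScalarTower (Fm m) (Linf (Lm m) Om) (FSmax S : IntermediateField F Om) :=
    IsScalarTower.of_algebraMap_eq (fun _ => rfl)
  haveI t5 : IsScalarTower (Fm m) F (FSmax S : IntermediateField F Om) :=
    IsScalarTower.of_algebraMap_eq (fun _ => rfl)
  have h99 : Module.finrank (Fm m) (Lm m) = 9 := by
    have h1 := Module.finrank_mul_finrank F5 (Fm m) (Lm m)
    rw [h9, hFm, mul_comm] at h1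
    exact Nat.eq_of_mul_eq_mul_right (by positivity) h1
  have hinc : ∀ x : Linf (Lm m) Om, ((algebraMap (Linf (Lm m) Om)
      (FSmax S : IntermediateField F Om) x : (FSmax S : IntermediateField F Om)) : Om) = x :=
    fun _ => rfl
  -- surjectivity
  have hsur : ∀ s : Gal((Lm m)/(Fm m)), ∃ γ : Gal((FSmax S : IntermediateField F Om)/F), ∀ x : Lm m,
      γ (algebraMap (Linf (Lm m) Om) (FSmax S : IntermediateField F Om)
        (algebraMap (Lm m) (Linf (Lm m) Om) x)) =
      algebraMap (Linf (Lm m) Om) (FSmax S : IntermediateField F Om)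
        (algebraMap (Lm m) (Linf (Lm m) Om) (s x)) := by
    intro s
    -- restriction of s to Lf
    letI a4 : Algebra Lf (Lm m) := incAlg (Lf_le_Lm m)
    haveI : IsScalarTower F5 Lf (Lm m) := IsScalarTower.of_algebraMap_eq (fun _ => rfl)
    let s' : Gal((Lm m)/F5) := AlgEquiv.restrictScalars F5 s
    let g : Gal(Lf/F5) := AlgEquiv.restrictNormalHom Lf s'
    have hg : ∀ x : Lf, ((g x : Lf) : Om) = ((s ⟨x.1, Lf_le_Lm m x.2⟩ : Lm m) : Om) := by
      intro x
      have := AlgEquiv.restrictNormal_commutes s' Lf x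
      exact congrArg (fun z : Lm m => (z : Om)) this
    obtain ⟨γ, hγ⟩ := sur hfdL hgalL F (FSmax S : IntermediateField F Om) i1 hdis
      (Lf_le_S F S h30) g
    refine ⟨γ, ?_⟩
    have hmemK : ∀ x ∈ Lm m, x ∈ (FSmax S : IntermediateField F Om) := fun x hx =>
      LfF_le F S h30 x ((sup_le_sup le_rfl hFF : Lm m ≤ Lf ⊔ F) hx)
    let f₁ : Lm m →ₐ[F5] Om :=
      { toFun := fun x => ((γ ⟨x.1, hmemK x.1 x.2⟩ : (FSmax S : IntermediateField F Om)) : Om)
        map_one' := by
          have : (⟨((1 : Lm m) : Om), hmemK _ (1 : Lm m).2⟩ : (FSmax S : IntermediateField F Om)) = 1 :=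
            rfl
          rw [this, map_one]; rfl
        map_mul' := fun x y => by
          have : (⟨((x * y : Lm m) : Om), hmemK _ (x * y).2⟩ : (FSmax S : IntermediateField F Om)) =
            ⟨x.1, hmemK x.1 x.2⟩ * ⟨y.1, hmemK y.1 y.2⟩ := rfl
          rw [this, map_mul]; rfl
        map_zero' := by
          have : (⟨((0 : Lm m) : Om), hmemK _ (0 : Lm m).2⟩ : (FSmax S : IntermediateField F Om)) = 0 :=
            rfl
          rw [this, map_zero]; rfl
        map_add' := fun x y => by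
          have : (⟨((x + y : Lm m) : Om), hmemK _ (x + y).2⟩ : (FSmax S : IntermediateField F Om)) =
            ⟨x.1, hmemK x.1 x.2⟩ + ⟨y.1, hmemK y.1 y.2⟩ := rfl
          rw [this, map_add]; rfl
        commutes' := fun x => by
          have : (⟨((algebraMap F5 (Lm m) x : Lm m) : Om), hmemK _ (algebraMap F5 (Lm m) x).2⟩ :
            (FSmax S : IntermediateField F Om)) =
              algebraMap F (FSmax S : IntermediateField F Om) (algebraMap F5 F x) := rfl
          show ((γ _ : (FSmax S : IntermediateField F Om)) : Om) = _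
          rw [this, AlgEquiv.commutes]; rfl }
    let f₂ : Lm m →ₐ[F5] Om := (Lm m).val.comp (s' : Lm m →ₐ[F5] Lm m)
    have hadj : Lm m = IntermediateField.adjoin F5 ((Lf : Set Om) ∪ (Fm m : Set Om)) := by
      rw [IntermediateField.adjoin_union, IntermediateField.adjoin_self,
        IntermediateField.adjoin_self]
      rfl
    have heq : f₁ = f₂ := by
      refine IntermediateField.algHom_ext_of_eq_adjoin (F := F5) (S := Lm m)
        (s := (Lf : Set Om) ∪ (Fm m : Set Om)) hadj ?_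
      rintro x (hx | hx)
      · show ((γ ⟨x, _⟩ : (FSmax S : IntermediateField F Om)) : Om) = ((s ⟨x, _⟩ : Lm m) : Om)
        rw [← hg ⟨x, hx⟩, ← hγ x hx]
      · show ((γ ⟨x, _⟩ : (FSmax S : IntermediateField F Om)) : Om) = ((s ⟨x, _⟩ : Lm m) : Om)
        have e1 : γ ⟨x, hmemK x (Fm_le_Lm m hx)⟩ = ⟨x, hmemK x (Fm_le_Lm m hx)⟩ :=
          γ.commutes ⟨x, hFF hx⟩
        have e2 : s ⟨x, Fm_le_Lm m hx⟩ = ⟨x, Fm_le_Lm m hx⟩ := s.commutes ⟨x, hx⟩
        rw [e1, e2]
    intro x
    apply Subtype.ext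
    have := congrArg (fun f : Lm m →ₐ[F5] Om => f x) heq
    exact this
  -- elements of `E ∩ F` are totally real
  have hrealE : ∀ (x : Linf (Lm m) Om) (y : F),
      algebraMap (Linf (Lm m) Om) (FSmax S : IntermediateField F Om) x =
        algebraMap F (FSmax S : IntermediateField F Om) y →
      ∀ f : Linf (Lm m) Om →+* ℂ, (starRingEnd ℂ) (f x) = f x := by
    intro x y hxy f
    let M : IntermediateField F5 Om := F ⊓ (Linf (Lm m) Om).restrictScalars F5
    have hM1 : Fm m ≤ M := le_inf hFF (fun z hz => (Linf (Lm m) Om).algebraMap_mem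
      ⟨z, Fm_le_Lm m hz⟩)
    have hM2 : M ≤ F := inf_le_left
    obtain ⟨e, he⟩ := finrank_fixed (F₀ := Fm m) (L := Lm m) (E := Linf (Lm m) Om) (F := F)
      (K := (FSmax S : IntermediateField F Om)) (hK2 (Lm m) Om) hsur
    have hM3 : ∃ a : ℕ, Module.finrank F5 M = 2 ^ a := by
      let N := IntermediateField.fixedField
        (resU (Fm m) (Linf (Lm m) Om) F (FSmax S : IntermediateField F Om)).range
      have hN : Module.finrank (Fm m) N = 2 ^ e := he
      haveI t7 : IsScalarTower F5 (Fm m) (Linf (Lm m) Om) :=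
        IsScalarTower.of_algebraMap_eq (fun _ => rfl)
      have h1 : Module.finrank F5 N = 2 ^ (m + e) := by
        haveI : IsScalarTower F5 (Fm m) N := IsScalarTower.of_algebraMap_eq (fun _ => rfl)
        rw [← Module.finrank_mul_finrank F5 (Fm m) N, hFm, hN, pow_add]
      refine ⟨m + e, ?_⟩
      rw [← h1]
      have hmemN : ∀ z : M, (⟨z.1, z.2.2⟩ : Linf (Lm m) Om) ∈ N := by
        intro z
        refine (fixed_resU (Fm m) (Linf (Lm m) Om) F (FSmax S : IntermediateField F Om) _).mpr ?_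
        exact ⟨⟨z.1, z.2.1⟩, rfl⟩
      refine LinearEquiv.finrank_eq (R := F5)
        { toFun := fun z => ⟨⟨z.1, z.2.2⟩, hmemN z⟩
          invFun := fun z => ⟨z.1.1, ?_, z.1.2⟩
          left_inv := fun _ => rfl
          right_inv := fun _ => rfl
          map_add' := fun _ _ => rfl
          map_smul' := fun _ _ => rfl }
      obtain ⟨y', hy'⟩ := (fixed_resU (Fm m) (Linf (Lm m) Om) F
        (FSmax S : IntermediateField F Om) z.1).mp z.2
      have : (z.1.1 : Om) = y' := congrArg (fun t : (FSmax S : IntermediateField F Om) => (t : Om)) hy'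
      rw [this]
      exact y'.2
    have hxM : (x : Om) ∈ M := by
      refine ⟨?_, x.2⟩
      have : (x : Om) = y := congrArg (fun t : (FSmax S : IntermediateField F Om) => (t : Om)) hxy
      rw [this]
      exact y.2
    let i : M →+* Linf (Lm m) Om :=
      { toFun := fun z => ⟨z.1, z.2.2⟩
        map_one' := rfl
        map_mul' := fun _ _ => rfl
        map_zero' := rfl
        map_add' := fun _ _ => rfl }
    have h2 := hreal M hM1 hM2 hM3 (f.comp i)
    rw [ComplexEmbedding.isReal_iff] at h2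
    exact RingHom.congr_fun h2 ⟨x, hxM⟩
  -- the residual representation
  let incK : (FSmax S30 : IntermediateField F5 Om) →+* (FSmax S : IntermediateField F Om) :=
    { toFun := fun x => ⟨(x : Om), S30_le F S h30 x x.2⟩
      map_one' := rfl
      map_mul' := fun _ _ => rfl
      map_zero' := rfl
      map_add' := fun _ _ => rfl }
  letI a5 : Algebra (FSmax S30 : IntermediateField F5 Om) (FSmax S : IntermediateField F Om) :=
    incK.toAlgebra
  haveI t6 : IsScalarTower F5 (FSmax S30 : IntermediateField F5 Om)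
    (FSmax S : IntermediateField F Om) := IsScalarTower.of_algebraMap_eq (fun _ => rfl)
  let res₀ : GFS Om S →* GFS Om S30 :=
    resU F5 (FSmax S30 : IntermediateField F5 Om) F (FSmax S : IntermediateField F Om)
  have hres₀ : ∀ (g : GFS Om S) (x : Om) (hx : x ∈ (FSmax S30 : IntermediateField F5 Om)),
      ((res₀ g ⟨x, hx⟩ : (FSmax S30 : IntermediateField F5 Om)) : Om) =
        ((g ⟨x, S30_le F S h30 x hx⟩ : (FSmax S : IntermediateField F Om)) : Om) := by
    intro g x hx
    have := resU_apply (F₀ := F5) (E := (FSmax S30 : IntermediateField F5 Om)) (F := F)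
      (K := (FSmax S : IntermediateField F Om)) g ⟨x, hx⟩
    exact congrArg (fun t : (FSmax S : IntermediateField F Om) => (t : Om)) this
  let ρbar : GFS Om S →* GL (Fin 3) k := ρ₀.comp res₀
  have hres₀c : Continuous res₀ :=
    continuous_resU F5 (FSmax S30 : IntermediateField F5 Om) F (FSmax S : IntermediateField F Om)
  have ho : IsOpen (ρbar.ker : Set (GFS Om S)) := hρo.preimage hres₀c
  -- scalars
  have hs : ∀ g : GFS Om S, (∀ x (hx : x ∈ Lf), g ⟨x, Lf_le_S F S h30 x hx⟩ =
      ⟨x, Lf_le_S F S h30 x hx⟩) →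
      ∃ a : k, (ρbar g : Matrix (Fin 3) (Fin 3) k) = a • (1 : Matrix (Fin 3) (Fin 3) k) := by
    intro g hg
    refine hρs (res₀ g) ?_
    intro x hx
    apply Subtype.ext
    rw [hres₀ g x.1 x.2]
    exact congrArg (fun t : (FSmax S : IntermediateField F Om) => (t : Om)) (hg x.1 hx)
  have hirr : AbsIrred ρbar := by
    intro V hV
    apply hρi
    intro h x hx
    -- restrict h to Lf
    letI a6 : Algebra Lf (FSmax S30 : IntermediateField F5 Om) := incAlg (fun z hz => Lf_le_S30 z hz)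
    haveI : IsScalarTower F5 Lf (FSmax S30 : IntermediateField F5 Om) :=
      IsScalarTower.of_algebraMap_eq (fun _ => rfl)
    let g : Gal(Lf/F5) := AlgEquiv.restrictNormalHom Lf h
    have hg : ∀ x : Lf, ((g x : Lf) : Om) =
        ((h ⟨x.1, Lf_le_S30 x.1 x.2⟩ : (FSmax S30 : IntermediateField F5 Om)) : Om) := by
      intro x
      have := AlgEquiv.restrictNormal_commutes h Lf x
      exact congrArg (fun z : (FSmax S30 : IntermediateField F5 Om) => (z : Om)) this
    obtain ⟨γ, hγ⟩ := sur hfdL hgalL F (FSmax S : IntermediateField F Om) i1 hdis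
      (Lf_le_S F S h30) g
    obtain ⟨a, ha⟩ := hρs (h * (res₀ γ)⁻¹) (by
      intro z hz
      have e1 : res₀ γ z = h z := by
        apply Subtype.ext
        have e2 := hres₀ γ z.1 z.2
        have e3 := hγ z.1 hz
        have e4 := hg ⟨z.1, hz⟩
        rw [e4] at e3
        exact e2.trans e3
      -- h stabilises Lf so use the inverse image
      have e5 : ∀ w : (FSmax S30 : IntermediateField F5 Om), (w : Om) ∈ Lf →
          ((res₀ γ)⁻¹ w : (FSmax S30 : IntermediateField F5 Om)) = h⁻¹ w := by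
        intro w hw
        -- w = h w' with w' in Lf
        let w' : Lf := g⁻¹ ⟨w.1, hw⟩
        have e6 : g w' = ⟨w.1, hw⟩ := by
          show (g * g⁻¹) ⟨w.1, hw⟩ = _
          rw [mul_inv_cancel, AlgEquiv.one_apply]
        have e7 : h ⟨w'.1, Lf_le_S30 w'.1 w'.2⟩ = w := by
          apply Subtype.ext
          rw [← hg w', e6]
        have e8 : res₀ γ ⟨w'.1, Lf_le_S30 w'.1 w'.2⟩ = w := by
          rw [← e7]
          apply Subtype.ext
          have e2 := hres₀ γ w'.1 (Lf_le_S30 w'.1 w'.2)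
          have e3 := hγ w'.1 w'.2
          rw [hg w'] at e3
          exact e2.trans e3
        have e9 : (res₀ γ)⁻¹ w = ⟨w'.1, Lf_le_S30 w'.1 w'.2⟩ := by
          conv_lhs => rw [← e8]
          show ((res₀ γ)⁻¹ * res₀ γ) _ = _
          rw [inv_mul_cancel, AlgEquiv.one_apply]
        have e10 : h⁻¹ w = ⟨w'.1, Lf_le_S30 w'.1 w'.2⟩ := by
          conv_lhs => rw [← e7]
          show (h⁻¹ * h) _ = _
          rw [inv_mul_cancel, AlgEquiv.one_apply]
        rw [e9, e10]
      show h ((res₀ γ)⁻¹ z) = z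
      rw [e5 z hz]
      show (h * h⁻¹) z = z
      rw [mul_inv_cancel, AlgEquiv.one_apply])
    have e11 : ρ₀ h = ρ₀ (h * (res₀ γ)⁻¹) * ρbar γ := by
      show _ = _ * ρ₀ (res₀ γ)
      rw [← map_mul, inv_mul_cancel_right]
    have e12 : (ρ₀ h : Matrix (Fin 3) (Fin 3) k) = a • (ρbar γ : Matrix (Fin 3) (Fin 3) k) := by
      rw [e11, Units.val_mul, ha, Matrix.smul_mul, one_mul]
    have e13 : ((ρ₀ h : Matrix (Fin 3) (Fin 3) k).map (algebraMap k (AlgebraicClosure k))).mulVec x =
        (algebraMap k (AlgebraicClosure k) a) •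
          ((ρbar γ : Matrix (Fin 3) (Fin 3) k).map (algebraMap k (AlgebraicClosure k))).mulVec x := by
      rw [e12, ← Matrix.smul_mulVec]
      congr 1
      ext i j
      simp
    rw [e13]
    exact V.smul_mem _ (hV γ x hx)
  refine ⟨k, ik, iFin, iP, ρbar, ho, hirr, fun g => hρ27 (res₀ g), ?_⟩
  intro d X u hX2 hX1 hu
  -- `√ϖ`
  have hthE : th (m + 1) ∈ Linf (Lm m) Om := by
    refine hK1.1 (Lm m) Om (2 + th m) (th (m + 1)) ?_ (twoUnit_th m) (th_succ m)
    exact (Linf (Lm m) Om).algebraMap_mem ⟨2 + th m, hmem⟩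
  have h2F : (2 + th m : Om) ∈ Fm m := add_mem (by exact_mod_cast (Fm m).natCast_mem 2) (th_mem_Fm m)
  refine asm Pool.Agent.W384.MZTF.stmT lim Pool.Agent.W462.MZSZ.StmSZ (Fm m) (Lm m) (Linf (Lm m) Om) F
    (FSmax S : IntermediateField F Om) h99 hrealL hrealE ⟨2 + th m, h2F⟩ ⟨th (m + 1), hthE⟩
    ?_ ?_ ?_ (hK2 (Lm m) Om) ?_ ?_ hsur k d ρbar ho ?_ (burn k (GFS Om S) 3 ρbar hirr) X u hX2 hX1 hu
  · intro h
    exact (two_add_th m).1 (congrArg Subtype.val h)
  · exact Subtype.ext (th_succ m)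
  · rintro ⟨x, hx⟩
    apply hthn
    have : (x : Om) = th (m + 1) := congrArg Subtype.val hx
    rw [← this]
    exact x.2
  · intro φ c h1 h2 N hN hNo
    have e1 := hK4 (Lm m) Om N hNo
    rw [hK5 (Lm m) Om hrealL φ c h1 h2 N hN hNo] at e1
    convert e1
  · intro φ c σ h1 h2 h3
    refine k8E W289.MZ.stmFrat hK1 hK2 hK3 (Lm m) Om hrealL ⟨2 + th m, hmem⟩ ?_ htwo φ c σ h1 h2 h3
    intro h
    exact (two_add_th m).1 (congrArg Subtype.val h)
  · intro g hg
    refine hs g ?_
    intro x hx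
    exact hg ⟨x, Lf_le_Lm m hx⟩

end Pool.Agent.H429.MZU
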