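import Pool.Agent.H429.MZU.Stmts
import Pool.Graph.R_seed8.W566.MZ.Asm3

/-!
# MP_aa8fd2_nt : the cyclotomic tower
-/

set_option autoImplicit false

namespace Pool.Agent.H429.MZU

open MZ NumberField IsDedekindDomain Polynomial

namespace TowerN

lemma norm_quad {X Y : Type} [Field X] [Field Y] [Algebra X Y] (h2 : Module.finrank X Y = 2)
    (θ : Y) (ϖ : X) (hθ : θ ^ 2 = algebraMap X Y ϖ) (hn : θ ∉ (algebraMap X Y).range) (a b : X) :
    Algebra.norm X (algebraMap X Y a + algebraMap X Y b * θ) = a ^ 2 - b ^ 2 * ϖ := by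
  have hli : LinearIndependent X ![(1 : Y), θ] := by
    rw [LinearIndependent.pair_iff]
    intro s t hst
    rw [Algebra.smul_def, Algebra.smul_def, mul_one] at hst
    have ht : t = 0 := by
      by_contra ht
      apply hn
      refine ⟨-s / t, ?_⟩
      have : algebraMap X Y t ≠ 0 := by simpa using ht
      rw [map_div₀, map_neg, div_eq_iff this]
      linear_combination -hst
    subst ht
    refine ⟨?_, rfl⟩
    simpa using hst
  have : FiniteDimensional X Y := FiniteDimensional.of_finrank_pos (by omega)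
  let b' := basisOfLinearIndependentOfCardEqFinrank hli (by simp [h2])
  have hb0 : b' 0 = 1 := by simp [b']
  have hb1 : b' 1 = θ := by simp [b']
  rw [Algebra.norm_eq_matrix_det b', Matrix.det_fin_two]
  simp only [Algebra.leftMulMatrix_eq_repr_mul]
  have e0 : (algebraMap X Y a + algebraMap X Y b * θ) * b' 0 = a • b' 0 + b • b' 1 := by
    rw [hb0, hb1, Algebra.smul_def, Algebra.smul_def]; ring
  have e1 : (algebraMap X Y a + algebraMap X Y b * θ) * b' 1 = (b * ϖ) • b' 0 + a • b' 1 := by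
    rw [hb0, hb1, Algebra.smul_def, Algebra.smul_def, map_mul, ← hθ]; ring
  rw [e0, e1]
  simp only [map_add, map_smul, Module.Basis.repr_self, Finsupp.add_apply, Finsupp.smul_apply,
    Finsupp.single_apply, smul_eq_mul]
  simp
  ring

lemma deg2 (K K' : IntermediateField F5 Om) [FiniteDimensional F5 K] (θ : Om) (h2 : θ ^ 2 ∈ K)
    (hn : θ ∉ K) (hK' : K' = K ⊔ IntermediateField.adjoin F5 {θ}) :
    FiniteDimensional F5 K' ∧ Module.finrank F5 K' = 2 * Module.finrank F5 K ∧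
      ∀ x ∈ K', ∃ a ∈ K, ∃ b ∈ K, x = a + b * θ := by
  have hint : IsIntegral K θ := Algebra.IsIntegral.isIntegral θ
  set q : Polynomial K := X ^ 2 - C ⟨θ ^ 2, h2⟩ with hq
  have hqm : q.Monic := by
    have := monic_X_pow_sub_C (⟨θ ^ 2, h2⟩ : K) (n := 2) (by norm_num)
    exact this
  have hqd : q.natDegree = 2 := natDegree_X_pow_sub_C
  have hq0 : aeval θ q = 0 := by
    rw [hq, map_sub, map_pow, aeval_X, aeval_C]
    exact sub_self _
  have hdvd : minpoly K θ ∣ q := minpoly.dvd K θ hq0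
  have hle : (minpoly K θ).natDegree ≤ 2 := by
    have := Polynomial.natDegree_le_of_dvd hdvd hqm.ne_zero
    rwa [hqd] at this
  have hpos := minpoly.natDegree_pos hint
  have hne : (minpoly K θ).natDegree ≠ 1 := by
    intro h
    obtain ⟨y, hy⟩ := minpoly.natDegree_eq_one_iff.mp h
    exact hn (hy ▸ y.2)
  have hdeg : (minpoly K θ).natDegree = 2 := by omega
  have hM : IntermediateField.restrictScalars F5 (IntermediateField.adjoin K {θ}) = K' := by
    rw [IntermediateField.restrictScalars_adjoin_eq_sup, hK']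
  have hfd : FiniteDimensional K (IntermediateField.adjoin K {θ}) :=
    IntermediateField.adjoin.finiteDimensional hint
  have hfr : Module.finrank K (IntermediateField.adjoin K {θ}) = 2 := by
    rw [IntermediateField.adjoin.finrank hint, hdeg]
  have : FiniteDimensional F5 (IntermediateField.adjoin K {θ}) := FiniteDimensional.trans F5 K _
  have htow := Module.finrank_mul_finrank F5 K (IntermediateField.adjoin K {θ})
  have e1 : Module.finrank F5 (IntermediateField.restrictScalars F5 (IntermediateField.adjoin K {θ})) =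
      2 * Module.finrank F5 K := by
    rw [mul_comm, ← hfr, htow]; rfl
  have e2 : FiniteDimensional F5 (IntermediateField.restrictScalars F5 (IntermediateField.adjoin K {θ})) := this
  rw [hM] at e1 e2
  refine ⟨e2, e1, ?_⟩
  intro x hx
  rw [← hM] at hx
  have h1 : x ∈ (IntermediateField.adjoin K {θ}).toSubalgebra := hx
  rw [IntermediateField.adjoin_simple_toSubalgebra_of_isAlgebraic hint.isAlgebraic,
    Algebra.adjoin_singleton_eq_range_aeval] at h1
  obtain ⟨p, rfl⟩ := h1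
  have h3 := Polynomial.modByMonic_add_div p q
  have h4 : (p %ₘ q).degree ≤ 1 := by
    have := Polynomial.degree_modByMonic_lt p hqm
    rw [Polynomial.degree_eq_natDegree hqm.ne_zero, hqd] at this
    rw [Polynomial.degree_le_iff_coeff_zero]
    intro m hm
    have hm' : (1 : ℕ) < m := by exact_mod_cast hm
    refine Polynomial.coeff_eq_zero_of_degree_lt (lt_of_lt_of_le this ?_)
    exact_mod_cast hm'
  have h6 := Polynomial.eq_X_add_C_of_degree_le_one h4
  have h7 : aeval θ p = aeval θ (p %ₘ q) := by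
    conv_lhs => rw [← h3]
    rw [map_add, map_mul, hq0, zero_mul, add_zero]
  refine ⟨_, ((p %ₘ q).coeff 0).2, _, ((p %ₘ q).coeff 1).2, ?_⟩
  show aeval θ p = _
  rw [h7]
  conv_lhs => rw [h6]
  rw [map_add, map_mul, aeval_X, aeval_C, aeval_C, add_comm]
  rfl


/-! ### the numbers `θ_m` -/

lemma th_eq (m : ℕ) : th m = th (m + 1) ^ 2 - 2 := by rw [th_succ]; ring

lemma two_mem (K : IntermediateField F5 Om) : (2 : Om) ∈ K := by
  have := K.algebraMap_mem (2 : F5)
  rwa [map_ofNat] at this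

lemma th_mem_of_succ {K : IntermediateField F5 Om} {m : ℕ} (h : th (m + 1) ∈ K) : th m ∈ K := by
  rw [th_eq]
  exact K.sub_mem (pow_mem h 2) (two_mem K)

lemma th_mem_Lm (m : ℕ) : th m ∈ Lm m := Fm_le_Lm m (th_mem_Fm m)

lemma Fm_succ (m : ℕ) : Fm (m + 1) = Fm m ⊔ IntermediateField.adjoin F5 {th (m + 1)} := by
  symm
  refine sup_eq_right.2 ?_
  rw [Fm, IntermediateField.adjoin_simple_le_iff]
  exact th_mem_of_succ (th_mem_Fm (m + 1))

lemma Lm_succ (m : ℕ) : Lm (m + 1) = Lm m ⊔ IntermediateField.adjoin F5 {th (m + 1)} := by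
  rw [Lm, Fm_succ, ← sup_assoc, ← Lm]

lemma abs_lt_two (m : ℕ) : ∀ (K : IntermediateField F5 Om) (h : th m ∈ K) (f : K →+* ℝ),
    |f ⟨th m, h⟩| < 2 := by
  induction m with
  | zero =>
    intro K h f
    have : (⟨th 0, h⟩ : K) = 0 := Subtype.ext th_zero
    rw [this, map_zero, abs_zero]
    norm_num
  | succ m ih =>
    intro K h f
    have h1 := ih K (th_mem_of_succ h) f
    have h2 : (⟨th (m + 1), h⟩ : K) ^ 2 = 2 + ⟨th m, th_mem_of_succ h⟩ :=
      Subtype.ext (th_succ m)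
    have h3 : f ⟨th (m + 1), h⟩ ^ 2 = 2 + f ⟨th m, th_mem_of_succ h⟩ := by
      rw [← map_pow, h2, map_add, map_ofNat]
    refine abs_lt_of_sq_lt_sq ?_ (by norm_num)
    rw [h3]
    have := (abs_lt.1 h1).2
    linarith

lemma int_th (m : ℕ) : IsIntegral ℤ (th m) := by
  induction m with
  | zero => rw [th_zero]; exact isIntegral_zero
  | succ m ih =>
    refine IsIntegral.of_pow (n := 2) (by norm_num) ?_
    rw [th_succ]
    have h2 : IsIntegral ℤ (2 : Om) := by
      have : (2 : Om) = algebraMap ℤ Om 2 := by norm_num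
      rw [this]; exact isIntegral_algebraMap
    exact h2.add ih

lemma int_two : IsIntegral ℤ (2 : Om) := by
  have : (2 : Om) = algebraMap ℤ Om 2 := by norm_num
  rw [this]; exact isIntegral_algebraMap

lemma exists_c (m : ℕ) : ∃ c : Om, IsIntegral ℤ c ∧ (2 - th m) * c = 2 := by
  induction m with
  | zero => exact ⟨1, isIntegral_one, by rw [th_zero]; ring⟩
  | succ m ih =>
    obtain ⟨c, hc, h⟩ := ih
    refine ⟨(2 + th (m + 1)) * c, (int_two.add (int_th _)).mul hc, ?_⟩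
    have h1 := th_succ m
    calc (2 - th (m + 1)) * ((2 + th (m + 1)) * c) = (4 - th (m + 1) ^ 2) * c := by ring
      _ = (2 - th m) * c := by rw [h1]; ring
      _ = 2 := h

lemma exists_d (m : ℕ) : ∃ d : Om, IsIntegral ℤ d ∧ (2 + th m) * d = 2 := by
  cases m with
  | zero => exact ⟨1, isIntegral_one, by rw [th_zero]; ring⟩
  | succ m =>
    obtain ⟨c, hc, h⟩ := exists_c m
    refine ⟨(2 - th (m + 1)) * c, (int_two.sub (int_th _)).mul hc, ?_⟩
    have h1 := th_succ m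
    calc (2 + th (m + 1)) * ((2 - th (m + 1)) * c) = (4 - th (m + 1) ^ 2) * c := by ring
      _ = (2 - th m) * c := by rw [h1]; ring
      _ = 2 := h

lemma add_ne (m : ℕ) : 2 + th m ≠ 0 := by
  obtain ⟨d, -, h⟩ := exists_d m
  intro h0
  rw [h0, zero_mul] at h
  exact two_ne_zero h.symm

lemma sub_ne (m : ℕ) : 2 - th m ≠ 0 := by
  obtain ⟨d, -, h⟩ := exists_c m
  intro h0
  rw [h0, zero_mul] at h
  exact two_ne_zero h.symm

lemma sq_rel (m : ℕ) : ∃ c ∈ Lm m, 2 - th m = (2 + th m) * c ^ 2 := by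
  induction m with
  | zero => exact ⟨1, (Lm 0).one_mem, by rw [th_zero]; ring⟩
  | succ m ih =>
    obtain ⟨c, hc, h⟩ := ih
    have hc' : c ∈ Lm (m + 1) := by
      rw [Lm_succ]; exact (le_sup_left : Lm m ≤ _) hc
    have hn := add_ne (m + 1)
    refine ⟨th (m + 1) * c / (2 + th (m + 1)),
      (Lm (m + 1)).div_mem ((Lm (m + 1)).mul_mem (th_mem_Lm _) hc')
        ((Lm (m + 1)).add_mem (two_mem _) (th_mem_Lm _)), ?_⟩
    have h1 := th_succ m
    have h2 : (2 - th (m + 1)) * (2 + th (m + 1)) = th (m + 1) ^ 2 * c ^ 2 := by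
      rw [h1, ← h]
      linear_combination -h1
    rw [div_pow, mul_pow, ← h2]
    field_simp

lemma evenOut (m : ℕ) (K : IntermediateField F5 Om) [NumberField K] (h : 2 + th m ∈ K) :
    MZ294.EvenOut2 K ⟨2 + th m, h⟩ := by
  intro v hv
  obtain ⟨d, hd, hdm⟩ := exists_d m
  have hdK : d ∈ K := by
    have : d = 2 / (2 + th m) := by
      rw [eq_div_iff (add_ne m), mul_comm]; exact hdm
    rw [this]
    exact K.div_mem (two_mem K) h
  have hinj : Function.Injective (algebraMap K Om) := (algebraMap K Om).injective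
  have i1 : IsIntegral ℤ (⟨2 + th m, h⟩ : K) :=
    (isIntegral_algebraMap_iff hinj).1 (int_two.add (int_th m))
  have i2 : IsIntegral ℤ (⟨d, hdK⟩ : K) := (isIntegral_algebraMap_iff hinj).1 hd
  let A : 𝓞 K := ⟨⟨2 + th m, h⟩, i1⟩
  let B : 𝓞 K := ⟨⟨d, hdK⟩, i2⟩
  have hAB : A * B = 2 := by
    apply RingOfIntegers.ext
    apply Subtype.ext
    exact hdm
  have hAv : A ∉ v.asIdeal := by
    intro hA
    apply hv
    rw [← hAB]
    exact Ideal.mul_mem_right _ _ hA
  have h1 : v.valuation K (algebraMap (𝓞 K) K A) = 1 :=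
    (HeightOneSpectrum.valuation_eq_one_iff_notMem v).2 hAv
  have h2 : (⟨2 + th m, h⟩ : K) = algebraMap (𝓞 K) K A := rfl
  rw [h2, h1]
  exact ⟨1, (one_mul 1).symm⟩


lemma real_of_sq {z : ℂ} {r : ℝ} (hr : 0 < r) (h : z ^ 2 = (r : ℂ)) :
    (starRingEnd ℂ) z = z := by
  have h1 : z ^ 2 = ((Real.sqrt r : ℝ) : ℂ) ^ 2 := by
    rw [h, ← Complex.ofReal_pow, Real.sq_sqrt hr.le]
  rcases sq_eq_sq_iff_eq_or_eq_neg.1 h1 with h2 | h2
  · rw [h2, Complex.conj_ofReal]
  · rw [h2, map_neg, Complex.conj_ofReal]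

/-- the predicate of the induction -/
def PP (K : IntermediateField F5 Om) (m : ℕ) : Prop :=
  FiniteDimensional F5 K ∧ Module.finrank F5 K = 9 * 2 ^ m ∧
    (∀ τ : K →+* ℂ, ComplexEmbedding.IsReal τ) ∧ th (m + 1) ∉ K ∧
    ∃ _ : NumberField K, ∃ h : 2 + th m ∈ K, TwoRatE K ⟨2 + th m, h⟩

lemma base (hL : MZ.StmL) : PP (Lm 0) 0 := by
  have h0 : Lm 0 = Lf := by
    rw [Lm, Fm, th_zero]
    simp
  rw [h0]
  obtain ⟨hfd, -, h9, hre, -, hNF, htr⟩ := hL
  refine ⟨hfd, by rw [h9]; norm_num, hre, ?_, hNF, ?_⟩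
  · intro h
    refine no_sqrt2_Lf h9 ⟨th 1, h⟩ ?_
    apply Subtype.ext
    show th 1 ^ 2 = 2
    rw [th_succ, th_zero, add_zero]
  · have h2 : 2 + th 0 ∈ Lf := by rw [th_zero, add_zero]; exact two_mem Lf
    refine ⟨h2, ?_⟩
    have e : (⟨2 + th 0, h2⟩ : Lf) = 2 := by
      apply Subtype.ext
      show 2 + th 0 = 2
      rw [th_zero, add_zero]
    rw [e]
    exact htr

lemma stepG {F Ω : Type} [Field F] [Field Ω] [CharZero Ω] [Algebra F Ω] (hA : S_Asc)
    (K K' : IntermediateField F Ω) [hNF : NumberField K] [hNF' : NumberField K'] (hle : K ≤ K')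
    (hfr0 : 0 < Module.finrank F K) (hfr' : Module.finrank F K' = 2 * Module.finrank F K)
    (t t' c d : Ω) (h2 : 2 + t ∈ K) (htK : t ∈ K) (htK' : t' ∈ K') (h2' : 2 + t' ∈ K')
    (hsq : t' ^ 2 = 2 + t)
    (hn : t' ∉ K) (hdec : ∀ x ∈ K', ∃ a ∈ K, ∃ b ∈ K, x = a + b * t')
    (hre : ∀ τ : K →+* ℂ, ComplexEmbedding.IsReal τ) (htr : TwoRatE K ⟨2 + t, h2⟩)
    (hlt : ∀ f : K →+* ℝ, |f ⟨t, htK⟩| < 2) (hlt' : ∀ f : K' →+* ℝ, |f ⟨t', htK'⟩| < 2)
    (hti : IsIntegral ℤ (2 * (2 + t))) (hd : IsIntegral ℤ d) (hdm : (2 + t) * d = 2)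
    (hev : MZ294.EvenOut2 K' ⟨2 + t', h2'⟩) (hc : c ∈ K) (hrel : 2 - t = (2 + t) * c ^ 2)
    (hadd : 2 + t ≠ 0) (hadd' : 2 + t' ≠ 0) (hsub : 2 - t ≠ 0) :
    (∀ τ : K' →+* ℂ, ComplexEmbedding.IsReal τ) ∧ (∀ z ∈ K', z ^ 2 ≠ 2 + t') ∧
      TwoRatE K' ⟨2 + t', h2'⟩ := by
  let _ : Algebra K K' := (IntermediateField.inclusion hle).toRingHom.toAlgebra
  have hst : IsScalarTower F K K' := IsScalarTower.of_algebraMap_eq (fun x => rfl)
  have h2r : Module.finrank K K' = 2 := by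
    have h3 := Module.finrank_mul_finrank F K K'
    rw [hfr', mul_comm 2] at h3
    exact Nat.eq_of_mul_eq_mul_left hfr0 h3
  set ϖ : K := ⟨2 + t, h2⟩ with hϖ
  have hϖ0 : ϖ ≠ 0 := by
    intro h
    exact hadd (congrArg Subtype.val h)
  set θ : K' := ⟨t', htK'⟩ with hθ
  have hθ2 : θ ^ 2 = algebraMap K K' ϖ := Subtype.ext hsq
  have hθn : θ ∉ (algebraMap K K').range := by
    rintro ⟨x, hx⟩
    apply hn
    have h3 := congrArg Subtype.val hx
    have h4 : (x : Ω) = t' := h3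
    rw [← h4]
    exact x.2
  have hre' : ∀ τ : K' →+* ℂ, ComplexEmbedding.IsReal τ := by
    intro τ
    have hσ := hre (τ.comp (algebraMap K K'))
    have hθr : (starRingEnd ℂ) (τ θ) = τ θ := by
      have h3 := hlt hσ.embedding
      have h4 : hσ.embedding ϖ = 2 + hσ.embedding ⟨t, htK⟩ := by
        have : ϖ = 2 + ⟨t, htK⟩ := rfl
        rw [this, map_add, map_ofNat]
      have h5 : 0 < hσ.embedding ϖ := by
        rw [h4]
        linarith [(abs_lt.1 h3).1]
      refine real_of_sq h5 ?_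
      rw [← map_pow, hθ2, ComplexEmbedding.IsReal.coe_embedding_apply]
      rfl
    rw [ComplexEmbedding.isReal_iff]
    ext x
    rw [ComplexEmbedding.conjugate_coe_eq]
    obtain ⟨a, ha, b, hb, hx⟩ := hdec x x.2
    have hx' : x = algebraMap K K' ⟨a, ha⟩ + algebraMap K K' ⟨b, hb⟩ * θ := Subtype.ext hx
    have hr : ∀ y : K, (starRingEnd ℂ) (τ (algebraMap K K' y)) = τ (algebraMap K K' y) := fun y =>
      RingHom.congr_fun (ComplexEmbedding.isReal_iff.1 hσ) y
    rw [hx']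
    simp only [map_add, map_mul]
    rw [hr, hr, hθr]
  have hϖ' : (⟨2 + t', h2'⟩ : K') = algebraMap K K' 2 + algebraMap K K' 1 * θ := by
    rw [map_ofNat, map_one, one_mul]
    rfl
  have hnorm : Algebra.norm K (⟨2 + t', h2'⟩ : K') = 4 - ϖ := by
    rw [hϖ', norm_quad h2r θ ϖ hθ2 hθn]
    ring
  have hrel' : 4 - ϖ = ϖ * ⟨c, hc⟩ ^ 2 := by
    apply Subtype.ext
    show 4 - (2 + t) = (2 + t) * c ^ 2
    rw [← hrel]; ring
  have hc0 : c ≠ 0 := by
    intro h0
    apply hsub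
    rw [hrel, h0]; ring
  refine ⟨hre', ?_, ?_⟩
  · intro z hz hzz
    have hz2 : (⟨z, hz⟩ : K') ^ 2 = ⟨2 + t', h2'⟩ := Subtype.ext hzz
    have h3 : Algebra.norm K (⟨z, hz⟩ : K') ^ 2 = ϖ * ⟨c, hc⟩ ^ 2 := by
      rw [← map_pow, hz2, hnorm, hrel']
    set s := Algebra.norm K (⟨z, hz⟩ : K') with hs
    have h4 : (s : Ω) ^ 2 = (2 + t) * c ^ 2 := congrArg Subtype.val h3
    have h5 : t' ^ 2 = ((s : Ω) / c) ^ 2 := by
      rw [hsq, div_pow, h4]
      field_simp
    apply hn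
    have h6 : (s : Ω) / c ∈ K := K.div_mem s.2 hc
    rcases sq_eq_sq_iff_eq_or_eq_neg.1 h5 with h7 | h7
    · rw [h7]; exact h6
    · rw [h7]; exact K.neg_mem h6
  · refine hA K K' h2r hre' ϖ hϖ0 ⟨1, ?_, ?_⟩ htr ⟨θ, hθ2, hθn⟩ _ ?_ ?_ hev ?_
    · have hinj : Function.Injective (algebraMap K Ω) := (algebraMap K Ω).injective
      refine (isIntegral_algebraMap_iff hinj).1 ?_
      have e : algebraMap K Ω (2 ^ 1 * ϖ) = 2 * (2 + t) := by
        rw [pow_one, map_mul, map_ofNat]; rfl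
      rw [e]
      exact hti
    · have hinj : Function.Injective (algebraMap K Ω) := (algebraMap K Ω).injective
      refine (isIntegral_algebraMap_iff hinj).1 ?_
      have e : algebraMap K Ω (2 ^ 1 * ϖ⁻¹) = d := by
        rw [pow_one, map_mul, map_ofNat, map_inv₀]
        show 2 * (2 + t)⁻¹ = d
        rw [mul_inv_eq_iff_eq_mul₀ hadd, mul_comm]
        exact hdm.symm
      rw [e]
      exact hd
    · intro h0
      exact hadd' (congrArg Subtype.val h0)
    · intro f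
      have h3 := hlt' f
      have h4 : f ⟨2 + t', h2'⟩ = 2 + f θ := by
        have : (⟨2 + t', h2'⟩ : K') = 2 + θ := rfl
        rw [this, map_add, map_ofNat]
      rw [h4]
      linarith [(abs_lt.1 h3).1]
    · rw [hnorm, hrel']
      exact ⟨ϖ * ⟨c, hc⟩, by ring⟩

lemma step (hA : S_Asc) (m : ℕ) (h : PP (Lm m) m) : PP (Lm (m + 1)) (m + 1) := by
  obtain ⟨hfd, hfr, hre, hn, hNF, h2, htr⟩ := h
  obtain ⟨hfd', hfr', hdec⟩ := deg2 (Lm m) (Lm (m + 1)) (th (m + 1)) (by rw [th_succ]; exact h2) hn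
    (Lm_succ m)
  have hNF' : NumberField (Lm (m + 1)) := NumberField.of_module_finite F5 (Lm (m + 1))
  have hle : Lm m ≤ Lm (m + 1) := by rw [Lm_succ]; exact le_sup_left
  have h2' : 2 + th (m + 1) ∈ Lm (m + 1) := (Lm (m + 1)).add_mem (two_mem _) (th_mem_Lm _)
  obtain ⟨c, hc, hrel⟩ := sq_rel m
  obtain ⟨d, hd, hdm⟩ := exists_d m
  obtain ⟨r1, r2, r3⟩ := stepG hA (Lm m) (Lm (m + 1)) hle (by rw [hfr]; positivity) hfr' (th m)
    (th (m + 1)) c d h2 (th_mem_Lm m) (th_mem_Lm (m + 1)) h2' (th_succ m) hn hdec hre htr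
    (abs_lt_two m (Lm m) (th_mem_Lm m)) (abs_lt_two (m + 1) (Lm (m + 1)) (th_mem_Lm (m + 1)))
    (int_two.mul (int_two.add (int_th m))) hd hdm (evenOut (m + 1) (Lm (m + 1)) h2') hc hrel
    (add_ne m) (add_ne (m + 1)) (sub_ne m)
  exact ⟨hfd', by rw [hfr', hfr]; ring, r1, fun hz => r2 _ hz (th_succ (m + 1)), hNF', h2', r3⟩

lemma finrank_Fm (hn : ∀ m, th (m + 1) ∉ Lm m) (m : ℕ) :
    FiniteDimensional F5 (Fm m) ∧ Module.finrank F5 (Fm m) = 2 ^ m := by
  induction m with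
  | zero =>
    have : Fm 0 = ⊥ := by rw [Fm, th_zero]; simp
    rw [this]
    refine ⟨inferInstance, ?_⟩
    rw [IntermediateField.finrank_bot, pow_zero]
  | succ m ih =>
    obtain ⟨hfd, hfr⟩ := ih
    have h2 : th (m + 1) ^ 2 ∈ Fm m := by
      rw [th_succ]; exact (Fm m).add_mem (two_mem _) (th_mem_Fm m)
    obtain ⟨hfd', hfr', -⟩ := deg2 (Fm m) (Fm (m + 1)) (th (m + 1)) h2
      (fun h => hn m (Fm_le_Lm m h)) (Fm_succ m)
    exact ⟨hfd', by rw [hfr', hfr]; ring⟩

end TowerN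

theorem tower (hL : MZ.StmL) (hA : S_Asc) : S_Tower := by
  have h : ∀ m, TowerN.PP (Lm m) m := by
    intro m
    induction m with
    | zero => exact TowerN.base hL
    | succ m ih => exact TowerN.step hA m ih
  intro m
  obtain ⟨h1, h2, h3, h4, h5⟩ := h m
  exact ⟨h1, h2, (TowerN.finrank_Fm (fun m => (h m).2.2.2.1) m).2, h3, h4, h5⟩

end Pool.Agent.H429.MZU
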