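import Pool.Agent.H429.MZU.Fin2
import Pool.Agent.H429.MZU.Tower

/-!
# MP_aa8fd2_nt : the lower bound for the Krull dimension (helper429)
-/

set_option autoImplicit false
set_option linter.all false
set_option maxHeartbeats 4000000
set_option synthInstance.maxHeartbeats 400000

namespace Pool.Agent.H429.MZU

open MZ NumberField IsDedekindDomain IsLocalRing

lemma exists_w' (F : IntermediateField F5 Om) (K : IntermediateField F Om) :
    ∃ w : InfinitePlace F → InfinitePlace K, ∀ v, (w v).comap (algebraMap F K) = v := by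
  have : ∀ v : InfinitePlace F, ∃ w : InfinitePlace K, w.comap (algebraMap F K) = v := by
    intro v
    let φ := v.embedding
    letI := φ.toAlgebra
    haveI : Algebra.IsAlgebraic F Om := Algebra.IsAlgebraic.tower_top (K := F5) F
    haveI : Algebra.IsAlgebraic F K := Algebra.IsAlgebraic.tower_bot (K := F) (L := K) (A := Om)
    let f : K →ₐ[F] ℂ := IsAlgClosed.lift
    refine ⟨InfinitePlace.mk f.toRingHom, ?_⟩
    rw [InfinitePlace.comap_mk]
    have : f.toRingHom.comp (algebraMap F K) = φ := f.comp_algebraMap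
    rw [this]
    exact InfinitePlace.mk_embedding v
  choose w hw using this
  exact ⟨w, hw⟩

lemma card_emb (hTower : S_Tower) (m : ℕ) : Nat.card (Fm m →+* ℂ) = 2 ^ (m + 1) := by
  obtain ⟨hfd, h9, hFm, hrealL, hthn, hNF, hmem, htwo⟩ := hTower m
  haveI : FiniteDimensional F5 (Fm m) := by
    refine IntermediateField.adjoin.finiteDimensional ?_
    exact Algebra.IsIntegral.isIntegral _
  haveI : NumberField (Fm m) := NumberField.of_module_finite F5 (Fm m)
  rw [Nat.card_eq_fintype_card, NumberField.Embeddings.card,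
    ← Module.finrank_mul_finrank ℚ F5 (Fm m), hFm, MZ294.finrank_F5, pow_succ, mul_comm]

section ring

variable {k : Type} [Field k] [CharP k 2] {d : ℕ}

instance charP_BB : CharP (BB k d) 2 :=
  charP_of_injective_ringHom (f := (MvPowerSeries.C : k →+* BB k d))
    MvPowerSeries.C_injective 2

lemma X_mem_max (i : Fin d) : (MvPowerSeries.X i : BB k d) ∈ maximalIdeal (BB k d) := by
  rw [mem_max_BB, MvPowerSeries.constantCoeff_X]

end ring

theorem core (hTower : S_Tower) (m : ℕ) (F : IntermediateField F5 Om) [NumberField F]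
    (hth : th m ∈ F) (hdis : F ⊓ Lf = ⊥) (hreal : RealCond m F)
    (S : Set (HeightOneSpectrum (𝓞 F))) (hS : S.Finite)
    (h30 : ∀ v : HeightOneSpectrum (𝓞 F), (30 : 𝓞 F) ∈ v.asIdeal → v ∈ S) :
    ∃ (k : Type) (_ : Field k) (_ : Finite k) (_ : CharP k 2) (ρbar : GFS Om S →* GL (Fin 3) k)
      (w : InfinitePlace F → InfinitePlace (FSmax S : IntermediateField F Om)),
      IsDatum F Om S 2 k 3 ρbar w ∧
      MZ.delta S ρbar w = 1 + 9 * (InfinitePlace.nrComplexPlaces F : ℤ) ∧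
      (∃ (R : CNL 2 k) (ρu : GFS Om S →* GL (Fin 3) R.A), IsUniversal ρbar R ρu) ∧
      ∀ (R : CNL 2 k) (ρu : GFS Om S →* GL (Fin 3) R.A), IsUniversal ρbar R ρu →
        ((1 + 2 ^ (m + 3) : ℕ) : WithBot ℕ∞) ≤ ringKrullDim (R.A ⧸ Ideal.span {((2 : ℕ) : R.A)}) := by
  classical
  haveI : Fact (Nat.Prime 2) := ⟨Nat.prime_two⟩
  obtain ⟨k, ik, iFin, iP, ρbar, ho, hirr, h27, hfam⟩ := family hTower m F hth hdis hreal S h30
  obtain ⟨w, hw⟩ := exists_w' F (FSmax S : IntermediateField F Om)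
  have hinv : ∀ g : GFS Om S, g * g = 1 → ρbar g = 1 := by
    intro g hg
    have h1 : ρbar g ^ 2 = 1 := by rw [sq, ← map_mul, hg, map_one]
    have h2 := h27 g
    calc ρbar g = ρbar g ^ 27 * (ρbar g ^ 2)⁻¹ ^ 13 := by
          rw [inv_pow, ← pow_mul, eq_mul_inv_iff_mul_eq, ← pow_succ']
      _ = 1 := by rw [h1, h2]; simp
  haveI : NumberField (FSmax S : IntermediateField F Om) → True := fun _ => trivial
  refine ⟨k, ik, iFin, iP, ρbar, w, ⟨by norm_num, by norm_num, hS,
    fun v hv => two_mem F S h30 v (by exact_mod_cast hv), ho, hirr, hw⟩,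
    deltaR F Om S k ρbar hinv w hw, ?_, ?_⟩
  · exact MZEX.stmEx F Om S hS (two_mem F S h30) k 3 (by norm_num) ρbar ho hirr
  · intro R ρu hu
    -- the variables
    obtain ⟨ev⟩ : Nonempty ((Fm m →+* ℂ) ≃ Fin (2 ^ (m + 1))) := by
      haveI : Finite (Fm m →+* ℂ) := Nat.finite_of_card_ne_zero (by
        rw [card_emb hTower m]; positivity)
      exact ⟨Finite.equivFinOfCardEq (card_emb hTower m)⟩
    have hd : (1 + 2 ^ (m + 3) : ℕ) = 1 + 4 * 2 ^ (m + 1) := by ring
    rw [hd]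
    set D := 2 ^ (m + 1) with hD
    let ix : (Fm m →+* ℂ) → Fin 4 → Fin (1 + 4 * D) := fun v t =>
      ⟨1 + (4 * (ev v : ℕ) + t), by have := (ev v).2; have := t.2; omega⟩
    let x0 : Fin (1 + 4 * D) := ⟨0, by omega⟩
    let Xv : (Fm m →+* ℂ) → Fin 4 → BB k (1 + 4 * D) := fun v t => MvPowerSeries.X (ix v t)
    have h2 : (2 : BB k (1 + 4 * D)) = 0 := two_BB
    let XM : (Fm m →+* ℂ) → GL (Fin 3) (BB k (1 + 4 * D)) := fun v =>
      XX h2 (Xv v 3) (Xv v 2) (Xv v 1) (Xv v 0)
    have hXM : ∀ v a b, ((XM v : Matrix (Fin 3) (Fin 3) (BB k (1 + 4 * D))) - 1) a b =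
        NN (Xv v 3) (Xv v 2) (Xv v 1) (Xv v 0) a b := fun v a b => by
      have := XX_sub h2 (Xv v 3) (Xv v 2) (Xv v 1) (Xv v 0)
      exact congrFun (congrFun this a) b
    obtain ⟨ρ, hρ1, hρ2, hρ3, s, hρ4⟩ := hfam (1 + 4 * D) XM (1 + MvPowerSeries.X x0)
      (fun v => XX_sq h2 _ _ _ _)
      (fun v a b => by
        rw [hXM]
        exact NN_mem _ _ _ _ _ (X_mem_max _) (X_mem_max _) a b)
      (by rw [add_sub_cancel_left]; exact X_mem_max _)
    refine dim 2 k (GFS Om S) 3 (1 + 4 * D) ρbar ρ hρ1 hρ2 ?_ R ρu hu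
    intro i
    by_cases hi : (i : ℕ) = 0
    · refine ⟨2 ^ s, by positivity, 1, Or.inl rfl, ?_⟩
      have hix : i = x0 := Fin.ext hi
      rw [add_comm (1 : BB k (1 + 4 * D)), add_pow_char_pow, one_pow, add_sub_cancel_right] at hρ4
      rw [mul_one, hix]
      exact hρ4
    · -- the index `i = 1 + 4 a + t`
      have hlt := i.2
      have ha : ((i : ℕ) - 1) / 4 < D := by
        rw [Nat.div_lt_iff_lt_mul (by norm_num)]; omega
      let v : Fm m →+* ℂ := ev.symm ⟨((i : ℕ) - 1) / 4, ha⟩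
      let t : Fin 4 := ⟨((i : ℕ) - 1) % 4, Nat.mod_lt _ (by norm_num)⟩
      have hev : (ev v : ℕ) = ((i : ℕ) - 1) / 4 := by
        show ((ev (ev.symm _) : Fin _) : ℕ) = _
        rw [Equiv.apply_symm_apply]
      have hix : ∀ t' : Fin 4, (ix v t' : ℕ) = 1 + (4 * (((i : ℕ) - 1) / 4) + t') := by
        intro t'
        show 1 + (4 * (ev v : ℕ) + (t' : ℕ)) = _
        rw [hev]
      have hdm := Nat.div_add_mod ((i : ℕ) - 1) 4
      have hmod : ((i : ℕ) - 1) % 4 < 4 := Nat.mod_lt _ (by norm_num)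
      have hiv : i = ix v t := by
        apply Fin.ext
        rw [hix t]
        show (i : ℕ) = 1 + (4 * (((i : ℕ) - 1) / 4) + ((i : ℕ) - 1) % 4)
        omega
      have e := hρ3 v
      simp only [hXM] at e
      have ht : ∀ t', t = t' → i = ix v t' := fun t' h => by rw [← h]; exact hiv
      rcases (show ∀ t : Fin 4, t = 0 ∨ t = 1 ∨ t = 2 ∨ t = 3 by decide) t with h | h | h | h
      · have e1 := e 0 1
        refine ⟨1, one_ne_zero, Xv v 3, Or.inr ⟨ix v 3, ?_, rfl⟩, ?_⟩
        · rw [ht _ h, Fin.lt_def, hix, hix]; simp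
        · rw [ht _ h, pow_one, show (MvPowerSeries.X (ix v 0) : BB k (1 + 4 * D)) * Xv v 3 =
            Xv v 3 * Xv v 0 from mul_comm _ _]
          exact e1
      · have e1 := e 0 0
        refine ⟨1, one_ne_zero, Xv v 3, Or.inr ⟨ix v 3, ?_, rfl⟩, ?_⟩
        · rw [ht _ h, Fin.lt_def, hix, hix]; simp
        · rw [ht _ h, pow_one, show (MvPowerSeries.X (ix v 1) : BB k (1 + 4 * D)) * Xv v 3 =
            Xv v 3 * Xv v 1 from mul_comm _ _]
          exact e1
      · have e1 := e 1 2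
        refine ⟨1, one_ne_zero, 1, Or.inl rfl, ?_⟩
        rw [ht _ h, pow_one, mul_one]
        exact e1
      · have e1 := e 0 2
        refine ⟨1, one_ne_zero, 1, Or.inl rfl, ?_⟩
        rw [ht _ h, pow_one, mul_one]
        exact e1

end Pool.Agent.H429.MZU
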