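import Pool.Agent.H429.MZU.Stmts

/-!
# MP_aa8fd2_nt : the extension `L_m / F_m` (helper429)
-/

set_option autoImplicit false
set_option linter.all false

namespace Pool.Agent.H429.MZU

open MZ NumberField

/-- the compositum with a Galois extension is Galois -/
lemma galois_sup {k Ω : Type} [Field k] [CharZero k] [Field Ω] [Algebra k Ω] [IsAlgClosure k Ω]
    (L F : IntermediateField k Ω) [IsGalois k L] :
    IsGalois F (IntermediateField.extendScalars (le_sup_right : F ≤ L ⊔ F)) := by
  haveI : Algebra.IsAlgebraic k Ω := IsAlgClosure.isAlgebraic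
  haveI : Algebra.IsAlgebraic F Ω := Algebra.IsAlgebraic.tower_top (K := k) F
  haveI : IsAlgClosed Ω := IsAlgClosure.isAlgClosed k
  haveI : IsAlgClosure F Ω := ⟨inferInstance, inferInstance⟩
  haveI : Normal F Ω := IsAlgClosure.normal F Ω
  haveI : Normal k Ω := IsAlgClosure.normal k Ω
  haveI : CharZero F := charZero_of_injective_algebraMap (algebraMap k F).injective
  set M := IntermediateField.extendScalars (le_sup_right : F ≤ L ⊔ F) with hM
  have hn : Normal F M := by
    rw [IntermediateField.normal_iff_forall_map_le]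
    intro σ
    have h1 : (L ⊔ F).map (σ.restrictScalars k) ≤ L ⊔ F := by
      rw [IntermediateField.map_sup]
      refine sup_le_sup ?_ ?_
      · exact IntermediateField.normal_iff_forall_map_le.mp inferInstance _
      · rintro _ ⟨x, hx, rfl⟩
        have : (σ.restrictScalars k : Ω →ₐ[k] Ω) x = x := σ.commutes ⟨x, hx⟩
        show (σ.restrictScalars k : Ω →ₐ[k] Ω) x ∈ F
        rw [this]
        exact hx
    rintro _ ⟨x, hx, rfl⟩
    exact h1 ⟨x, hx, rfl⟩
  haveI : Algebra.IsAlgebraic F M := inferInstance
  exact { }

end Pool.Agent.H429.MZU
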