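import Pool.Graph.R_seed8.W566.MZ.Stmts

/-!
# MP_aa8fd2_nt : unbounded failure of the dimension conjecture, interface statements (helper429)

`F_m = ℚ(√5, θ_m)` (`θ_0 = 0`, `θ_{m+1}² = 2 + θ_m`) is the `m`-th layer of the cyclotomic
`ℤ₂`-extension of `ℚ(√5)`, `L_m = L F_m` with `L = Lf` the `C₃ × C₃`-extension of `ℚ(√5)` of the library.
-/

set_option autoImplicit false

namespace Pool.Agent.H429.MZU

open MZ NumberField IsDedekindDomain IsLocalRing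

/-- power series in `d` variables over `k` -/
abbrev BB (k : Type) [Field k] (d : ℕ) : Type := MvPowerSeries (Fin d) k

/-- LIM: from finite 2-groups to `GL_n(A)`, `A` complete noetherian local with finite residue field of
characteristic 2. -/
def S_Lim : Prop :=
  ∀ (P : Type) [Group P] [TopologicalSpace P] [IsTopologicalGroup P] [CompactSpace P]
    [TotallyDisconnectedSpace P] (ι : Type) (c : ι → P) (σ : P), TopGen c σ → Assign c σ →
    ∀ (A : Type) [CommRing A] [IsLocalRing A] [IsNoetherianRing A]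
      [IsAdicComplete (maximalIdeal A) A], Finite (ResidueField A) → (2 : A) ∈ maximalIdeal A →
    ∀ (n : ℕ) (t : ι → GL (Fin n) A) (u : GL (Fin n) A),
      (∀ i, t i * t i = 1) →
      (∀ i a b, ((t i : Matrix (Fin n) (Fin n) A) - 1) a b ∈ maximalIdeal A) →
      (∀ a b, ((u : Matrix (Fin n) (Fin n) A) - 1) a b ∈ maximalIdeal A) →
      ∃ ψ : P →* GL (Fin n) A,
        (∀ g a b, ((ψ g : Matrix (Fin n) (Fin n) A) - 1) a b ∈ maximalIdeal A) ∧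
        (∀ m : ℕ, IsOpen {g : P | ∀ a b : Fin n,
          ((ψ g : Matrix (Fin n) (Fin n) A) - 1) a b ∈ maximalIdeal A ^ m}) ∧
        (∀ i, ψ (c i) = t i) ∧ ψ σ = u

/-- DIM: a chain of `d + 1` primes of `R/p` from a lift to `k⟦X_0, …, X_{d-1}⟧` whose traces span
suitable monomials. -/
def S_Dim : Prop :=
  ∀ (p : ℕ) [Fact p.Prime] (k : Type) [Field k] [Finite k] [CharP k p]
    (G : Type) [Group G] [TopologicalSpace G] [IsTopologicalGroup G] (n d : ℕ)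
    (ρbar : G →* GL (Fin n) k) (ρ : G →* GL (Fin n) (BB k d)),
    (∀ g, Matrix.GeneralLinearGroup.map (MvPowerSeries.constantCoeff (σ := Fin d) (R := k)) (ρ g) =
      ρbar g) →
    (∀ m : ℕ, IsOpen {g : G | ∀ a b : Fin n,
      ((ρ g : Matrix (Fin n) (Fin n) (BB k d)) - 1) a b ∈ maximalIdeal (BB k d) ^ m}) →
    (∀ i : Fin d, ∃ M : ℕ, M ≠ 0 ∧ ∃ w : BB k d,
      (w = 1 ∨ ∃ j : Fin d, i < j ∧ w = MvPowerSeries.X j) ∧
      (MvPowerSeries.X i : BB k d) ^ M * w ∈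
        Submodule.span k (Set.range fun g : G => (ρ g : Matrix (Fin n) (Fin n) (BB k d)).trace)) →
    ∀ (R : CNL p k) (ρu : G →* GL (Fin n) R.A), IsUniversal ρbar R ρu →
      ((d : ℕ) : WithBot ℕ∞) ≤ ringKrullDim (R.A ⧸ Ideal.span {(p : R.A)})

/-- BURN: Burnside's theorem for `AbsIrred`. -/
def S_Burn : Prop :=
  ∀ (k : Type) [Field k] (G : Type) [Group G] (n : ℕ) (ρbar : G →* GL (Fin n) k), AbsIrred ρbar →
    Submodule.span k (Set.range fun g : G => (ρbar g : Matrix (Fin n) (Fin n) k)) = ⊤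

/-- every totally positive element with even valuations outside 2 is a square or `ϖ` times a square -/
def TwoRatE (X : Type) [Field X] [NumberField X] (ϖ : X) : Prop :=
  ∀ a : X, a ≠ 0 → (∀ f : X →+* ℝ, 0 < f a) → MZ294.EvenOut2 X a → IsSquare a ∨ IsSquare (ϖ * a)

/-- K8E: generation (`StmK8` with `ϖ` instead of `2`). -/
def S_K8E : Prop :=
  ∀ (L Ω : Type) [Field L] [NumberField L] [Field Ω] [Algebra L Ω] [IsAlgClosure L Ω],
    (∀ τ : L →+* ℂ, ComplexEmbedding.IsReal τ) → ∀ ϖ : L, ϖ ≠ 0 → TwoRatE L ϖ →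
    ∀ (φ : (L →+* ℂ) → (Linf L Ω →+* ℂ)) (c : (L →+* ℂ) → Gal((Linf L Ω)/L))
      (σ : Gal((Linf L Ω)/L)),
      (∀ τ, (φ τ).comp (algebraMap L (Linf L Ω)) = τ) →
      (∀ τ, ComplexEmbedding.IsConj (φ τ) (c τ)) →
      (∀ r : Linf L Ω, r ^ 2 = algebraMap L (Linf L Ω) ϖ → σ r ≠ r) →
      TopGen c σ

/-- ASC: ascent of `TwoRatE` in the quadratic extension `Y = X(√ϖ)`. -/
def S_Asc : Prop :=
  ∀ (X Y : Type) [Field X] [NumberField X] [Field Y] [NumberField Y] [Algebra X Y],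
    Module.finrank X Y = 2 → (∀ τ : Y →+* ℂ, ComplexEmbedding.IsReal τ) →
    ∀ ϖ : X, ϖ ≠ 0 → (∃ n : ℕ, IsIntegral ℤ (2 ^ n * ϖ) ∧ IsIntegral ℤ (2 ^ n * ϖ⁻¹)) →
    TwoRatE X ϖ → (∃ θ : Y, θ ^ 2 = algebraMap X Y ϖ ∧ θ ∉ (algebraMap X Y).range) →
    ∀ ϖ' : Y, ϖ' ≠ 0 → (∀ f : Y →+* ℝ, 0 < f ϖ') → MZ294.EvenOut2 Y ϖ' →
      IsSquare (ϖ * Algebra.norm X ϖ') → TwoRatE Y ϖ'

/-- BC: `(F₀)_{S₀} ⊆ F_S` for a finite extension `F` of `F₀` and `S` containing the places above `S₀`. -/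
def S_BC : Prop :=
  ∀ (F₀ Ω : Type) [Field F₀] [NumberField F₀] [Field Ω] [Algebra F₀ Ω] [IsAlgClosure F₀ Ω]
    (S₀ : Set (HeightOneSpectrum (𝓞 F₀))) (F : IntermediateField F₀ Ω) [NumberField F]
    (S : Set (HeightOneSpectrum (𝓞 F))),
    (∀ w : HeightOneSpectrum (𝓞 F), ∀ v ∈ S₀,
      w.asIdeal.comap (algebraMap (𝓞 F₀) (𝓞 F)) = v.asIdeal → w ∈ S) →
    ∀ x : Ω, x ∈ (FSmax S₀ : IntermediateField F₀ Ω) → x ∈ (FSmax S : IntermediateField F Ω)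

/-- DELTA: `δ = 1` over a totally real field when involutions map to `1`. -/
def S_Delta : Prop :=
  ∀ (F Ω : Type) [Field F] [NumberField F] [Field Ω] [Algebra F Ω] [IsAlgClosure F Ω]
    (S : Set (HeightOneSpectrum (𝓞 F))), (∀ τ : F →+* ℂ, ComplexEmbedding.IsReal τ) →
    ∀ (k : Type) [Field k] [CharP k 2] (ρbar : GFS Ω S →* GL (Fin 3) k),
    (∀ g : GFS Ω S, g * g = 1 → ρbar g = 1) →
    ∀ w : InfinitePlace F → InfinitePlace (FSmax S : IntermediateField F Ω),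
      (∀ v : InfinitePlace F,
        (w v).comap (algebraMap F (FSmax S : IntermediateField F Ω)) = v) →
      delta S ρbar w = 1

/-! ## The tower -/

/-- `θ_0 = 0`, `θ_{m+1}² = 2 + θ_m` -/
noncomputable def th : ℕ → Om
  | 0 => 0
  | (m + 1) => (IsAlgClosed.exists_pow_nat_eq (2 + th m) (n := 2) (by norm_num)).choose

lemma th_zero : th 0 = 0 := by rw [th]

lemma th_succ (m : ℕ) : th (m + 1) ^ 2 = 2 + th m := by
  rw [th]
  exact (IsAlgClosed.exists_pow_nat_eq (2 + th m) (n := 2) (by norm_num)).choose_spec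

/-- `F_m = ℚ(√5)(θ_m)` -/
noncomputable def Fm (m : ℕ) : IntermediateField F5 Om := IntermediateField.adjoin F5 {th m}

/-- `L_m = L F_m` -/
noncomputable def Lm (m : ℕ) : IntermediateField F5 Om := Lf ⊔ Fm m

lemma Fm_le_Lm (m : ℕ) : Fm m ≤ Lm m := le_sup_right

lemma Lf_le_Lm (m : ℕ) : Lf ≤ Lm m := le_sup_left

lemma th_mem_Fm (m : ℕ) : th m ∈ Fm m := IntermediateField.mem_adjoin_simple_self _ _

/-- TOWER. -/
def S_Tower : Prop :=
  ∀ m : ℕ, FiniteDimensional F5 (Lm m) ∧ Module.finrank F5 (Lm m) = 9 * 2 ^ m ∧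
    Module.finrank F5 (Fm m) = 2 ^ m ∧ (∀ τ : Lm m →+* ℂ, ComplexEmbedding.IsReal τ) ∧
    th (m + 1) ∉ Lm m ∧
    ∃ _ : NumberField (Lm m), ∃ h : 2 + th m ∈ Lm m, TwoRatE (Lm m) ⟨2 + th m, h⟩

/-- SUR: `Gal(K/F) → Gal(L/ℚ(√5))` is surjective when `F ∩ L = ℚ(√5)`. -/
def S_Sur : Prop :=
  ∀ (F : IntermediateField F5 Om) (K : IntermediateField F Om), IsGalois F K → F ⊓ Lf = ⊥ →
    ∀ hK : ∀ x ∈ Lf, x ∈ K, ∀ g : Gal(Lf/F5), ∃ γ : Gal(K/F),
      ∀ (x : Om) (hx : x ∈ Lf), ((γ ⟨x, hK x hx⟩ : K) : Om) = ((g ⟨x, hx⟩ : Lf) : Om)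

/-! ## The assembly statement -/

/-- ASM: the family of lifts over `F`. -/
def S_Asm : Prop :=
  ∀ (F₀ L E F K : Type) [Field F₀] [NumberField F₀] [Field L] [NumberField L] [Field E]
    [Field F] [NumberField F] [Field K]
    [Algebra F₀ L] [Algebra L E] [Algebra F₀ E] [IsScalarTower F₀ L E]
    [Algebra E K] [Algebra F₀ K] [IsScalarTower F₀ E K]
    [Algebra F₀ F] [Algebra F K] [IsScalarTower F₀ F K]
    [FiniteDimensional F₀ L] [IsGalois F₀ L] [IsGalois F₀ E] [IsGalois L E] [IsGalois F K]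
    [FiniteDimensional F₀ F],
    Module.finrank F₀ L = 9 →
    (∀ τ : L →+* ℂ, ComplexEmbedding.IsReal τ) → (∀ τ : F →+* ℂ, ComplexEmbedding.IsReal τ) →
    ∀ (ϖ : F₀) (r : E), ϖ ≠ 0 → r ^ 2 = algebraMap F₀ E ϖ → r ∉ (algebraMap L E).range →
    ProTwo Gal(E/L) →
    (∀ (φ : (L →+* ℂ) → (E →+* ℂ)) (c : (L →+* ℂ) → Gal(E/L)),
      (∀ τ, (φ τ).comp (algebraMap L E) = τ) → (∀ τ, ComplexEmbedding.IsConj (φ τ) (c τ)) →
      ∀ N : Subgroup Gal(E/L), N.Normal → IsOpen (N : Set Gal(E/L)) →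
        2 ^ (∑ τ, orb N (c τ) + 1) ≤ numHom2 N) →
    (∀ (φ : (L →+* ℂ) → (E →+* ℂ)) (c : (L →+* ℂ) → Gal(E/L)) (σ : Gal(E/L)),
      (∀ τ, (φ τ).comp (algebraMap L E) = τ) → (∀ τ, ComplexEmbedding.IsConj (φ τ) (c τ)) →
      (∀ r : E, r ^ 2 = algebraMap F₀ E ϖ → σ r ≠ r) → TopGen c σ) →
    (∀ s : Gal(L/F₀), ∃ γ : Gal(K/F), ∀ x : L,
      γ (algebraMap E K (algebraMap L E x)) = algebraMap E K (algebraMap L E (s x))) →
    ∀ (k : Type) [Field k] [Finite k] [CharP k 2] (d : ℕ) (ρbar : Gal(K/F) →* GL (Fin 3) k),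
      IsOpen (ρbar.ker : Set Gal(K/F)) →
      (∀ g : Gal(K/F), (∀ x : L, g (algebraMap E K (algebraMap L E x)) =
        algebraMap E K (algebraMap L E x)) →
        ∃ a : k, (ρbar g : Matrix (Fin 3) (Fin 3) k) = a • (1 : Matrix (Fin 3) (Fin 3) k)) →
      Submodule.span k (Set.range fun g => (ρbar g : Matrix (Fin 3) (Fin 3) k)) = ⊤ →
    ∀ (X : (F₀ →+* ℂ) → GL (Fin 3) (BB k d)) (u : BB k d), (∀ v, X v * X v = 1) →
      (∀ v a b, ((X v : Matrix (Fin 3) (Fin 3) (BB k d)) - 1) a b ∈ maximalIdeal (BB k d)) →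
      u - 1 ∈ maximalIdeal (BB k d) →
    ∃ ρ : Gal(K/F) →* GL (Fin 3) (BB k d),
      (∀ g, Matrix.GeneralLinearGroup.map (MvPowerSeries.constantCoeff (σ := Fin d) (R := k)) (ρ g) =
        ρbar g) ∧
      (∀ m : ℕ, IsOpen {g : Gal(K/F) | ∀ a b : Fin 3,
        ((ρ g : Matrix (Fin 3) (Fin 3) (BB k d)) - 1) a b ∈ maximalIdeal (BB k d) ^ m}) ∧
      (∀ v a b, ((X v : Matrix (Fin 3) (Fin 3) (BB k d)) - 1) a b ∈
        Submodule.span k (Set.range fun g : Gal(K/F) =>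
          (ρ g : Matrix (Fin 3) (Fin 3) (BB k d)).trace)) ∧
      ∃ s : ℕ, u ^ (2 ^ s) - 1 ∈ Submodule.span k (Set.range fun g : Gal(K/F) =>
          (ρ g : Matrix (Fin 3) (Fin 3) (BB k d)).trace)

end Pool.Agent.H429.MZU
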